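import Pool.Agent.Work.MP_122e00_nt.Two.Defs

set_option autoImplicit false

/-!
# Shifted divisor sums with marks: claims (arithmetic module, see PLAN_ARITH.md)
-/

namespace Pool.Agent.Work.MP_122e00_nt.Two

open Finset Filter Topology MeasureTheory

open scoped ArithmeticFunction.vonMangoldt ArithmeticFunction.zeta

/-! ## G: counting with arbitrary coefficients -/

/-- G1: upper companion of `count_lower` (BV7). -/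
def claimG1 : Prop := ∀ (β : ℕ → ℝ) (K : ℝ), (∀ n, 0 ≤ β n) → (∀ n, β n ≤ K) →
    ∀ (A B N Q L : ℕ), A ≤ B → 1 ≤ L → ∀ (w : ℕ → ℝ) (W D : ℝ), (∀ e, 0 ≤ w e) → (∀ e, w e ≤ W) →
    (∀ k ∈ Finset.Icc 1 Q, (k.divisors.card : ℝ) ≤ D) → 0 ≤ D →
    ∀ h : ℕ, h ≠ 0 → ∀ η : ℤ, η.natAbs = h →
    ∑ e ∈ Finset.Icc 1 Q, w e * ∑ n ∈ Finset.range N, β n * (sol A B n e η : ℝ) ≤
      ((B : ℝ) - A) * (∑ e ∈ Finset.Icc 1 Q, ∑ n ∈ Finset.range N,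
        w e * β n * (Fh h (Nat.gcd n e) / e)) +
      ((h.divisors.card : ℝ) ^ 2 * Err0 W D K (B + 1) N Q L + h * W * (K * N) * (harmonic Q : ℝ))

/-- G2: decomposition of `n = m y` according to the class of `m`. -/
def claimG2 : Prop := ∀ (β w : ℕ → ℝ) (M Q : ℕ), (∀ m, 0 ≤ β m) → (∀ e, 0 ≤ w e) →
    (∀ m, β m ≠ 0 → m ∈ Finset.Icc 1 M) → ∀ δ η X lam : ℝ, 0 ≤ δ → 0 ≤ η → 0 < X → 1 < lam →
    ∀ (z : ℤ) (J : Finset ℕ),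
    (∀ m, β m ≠ 0 → ∃ j ∈ J, lam ^ j ≤ (m : ℝ) ∧ (m : ℝ) < lam ^ (j + 1)) →
    ∑ j ∈ J, ∑ e ∈ Finset.Icc 1 Q, w e * ∑ m ∈ Finset.range (⌊lam ^ (j + 1)⌋₊ + 1),
        cl lam j β m * (sol ⌊δ * X / lam ^ j⌋₊ ⌊η * X / lam ^ (j + 1)⌋₊ m e z : ℝ) ≤
      GC β w ⌊δ * X⌋₊ ⌊η * X⌋₊ M Q z ∧
    GC β w ⌊δ * X⌋₊ ⌊η * X⌋₊ M Q z ≤
      ∑ j ∈ J, ∑ e ∈ Finset.Icc 1 Q, w e * ∑ m ∈ Finset.range (⌊lam ^ (j + 1)⌋₊ + 1),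
        cl lam j β m * (sol ⌊δ * X / lam ^ (j + 1)⌋₊ ⌊η * X / lam ^ j⌋₊ m e z : ℝ)

/-- G3: main term and error, summed over the classes (compare `Scount_lower` in Key2). -/
def claimG3 : Prop := claimG1 → claimG2 → ∀ (β w : ℕ → ℝ) (M Q : ℕ) (K W D : ℝ),
    (∀ m, 0 ≤ β m) → (∀ m, β m ≤ K) → (∀ e, 0 ≤ w e) → (∀ e, w e ≤ W) →
    (∀ m, β m ≠ 0 → m ∈ Finset.Icc 1 M) → (∀ k ∈ Finset.Icc 1 Q, (k.divisors.card : ℝ) ≤ D) →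
    0 ≤ D → ∀ δ η X lam : ℝ, 0 ≤ δ → δ * lam ≤ η → η ≤ 1 → 1 ≤ X → 1 < lam → lam ≤ 2 →
    ∀ (h : ℕ) (z : ℤ), h ≠ 0 → z.natAbs = h → ∀ J : Finset ℕ,
    (∀ m, β m ≠ 0 → ∃ j ∈ J, lam ^ j ≤ (m : ℝ) ∧ (m : ℝ) < lam ^ (j + 1)) →
    ∀ (L : ℕ) (E1 N1 : ℝ), 1 ≤ L →
    (∀ j ∈ J, ∀ B : ℕ, (B : ℝ) ≤ X / lam ^ j → Err0 W D K (B + 1)
      (⌊lam ^ (j + 1)⌋₊ + 1) Q L ≤ E1) →
    (∀ j ∈ J, ((⌊lam ^ (j + 1)⌋₊ + 1 : ℕ) : ℝ) ≤ N1) →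
    (η / lam - δ) * X * GM h β w M Q - (h * (∑ m ∈ Finset.Icc 1 M, β m) * (W * (harmonic Q : ℝ)) +
      J.card * ((h.divisors.card : ℝ) ^ 2 * E1 + h * W * (K * N1) * (harmonic Q : ℝ))) ≤
      GC β w ⌊δ * X⌋₊ ⌊η * X⌋₊ M Q z ∧
    GC β w ⌊δ * X⌋₊ ⌊η * X⌋₊ M Q z ≤
      (lam * η - δ) * X * GM h β w M Q + (h * (∑ m ∈ Finset.Icc 1 M, β m) * (W * (harmonic Q : ℝ)) +
      J.card * ((h.divisors.card : ℝ) ^ 2 * E1 + h * W * (K * N1) * (harmonic Q : ℝ)))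

/-- G4: the count with power saving, `β` supported in `[X ^ θ, X ^ (1 - θ)]`
(compare `box_lower` in Key4). -/
def claimG4 : Prop := claimG3 → claimG1 → claimG2 → ∀ (h : ℕ) (θ lam δ η : ℝ), h ≠ 0 → 0 < θ →
    θ ≤ 1 / 2 → 1 < lam → lam ≤ 2 → 0 ≤ δ → δ * lam ≤ η → η ≤ 1 →
    ∃ C : ℝ, ∀ᶠ X : ℝ in atTop, ∀ β w : ℕ → ℝ,
    (∀ m, 0 ≤ β m) → (∀ m, β m ≤ X ^ (θ / 40)) → (∀ e, 0 ≤ w e) → (∀ e, w e ≤ X ^ (θ / 40)) →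
    (∀ m, β m ≠ 0 → X ^ θ ≤ (m : ℝ) ∧ (m : ℝ) ≤ X ^ (1 - θ)) →
    ∀ z : ℤ, z.natAbs = h →
    (η / lam - δ) * X * GM h β w ⌊X ^ (1 - θ)⌋₊ ⌊X ^ (1 / 2 - θ)⌋₊ - C * (X / X ^ (θ / 40)) ≤
      GC β w ⌊δ * X⌋₊ ⌊η * X⌋₊ ⌊X ^ (1 - θ)⌋₊ ⌊X ^ (1 / 2 - θ)⌋₊ z ∧
    GC β w ⌊δ * X⌋₊ ⌊η * X⌋₊ ⌊X ^ (1 - θ)⌋₊ ⌊X ^ (1 / 2 - θ)⌋₊ z ≤
      (lam * η - δ) * X * GM h β w ⌊X ^ (1 - θ)⌋₊ ⌊X ^ (1 / 2 - θ)⌋₊ + C * (X / X ^ (θ / 40))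

/-- G5: the exact count, used for small `m`. -/
def claimG5 : Prop := ∀ (m e lo hi h : ℕ) (z : ℤ), 0 < m → 0 < e → lo ≤ hi → h ≠ 0 →
    z.natAbs = h →
    |(((Finset.Ioc lo hi).filter (fun n : ℕ => m ∣ n ∧ (e : ℤ) ∣ (n : ℤ) - z)).card : ℝ) -
      ((hi : ℝ) - lo) * (Fh h (Nat.gcd m e) / (m * e))| ≤ 1

/-- G6: the count theorem for all `β` supported in `[1, X ^ (1 - θ)]`. -/
def claimGC : Prop := ∀ (h : ℕ) (θ lam δ η : ℝ), h ≠ 0 → 0 < θ →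
    θ ≤ 1 / 2 → 1 < lam → lam ≤ 2 → 0 ≤ δ → δ * lam ≤ η → η ≤ 1 →
    ∃ C : ℝ, ∀ᶠ X : ℝ in atTop, ∀ β w : ℕ → ℝ,
    (∀ m, 0 ≤ β m) → (∀ m, β m ≤ X ^ (θ / 40)) → (∀ e, 0 ≤ w e) → (∀ e, w e ≤ X ^ (θ / 40)) →
    ∀ z : ℤ, z.natAbs = h →
    (η / lam - δ) * X * GM h β w ⌊X ^ (1 - θ)⌋₊ ⌊X ^ (1 / 2 - θ)⌋₊ - C * (X / X ^ (θ / 40)) ≤
      GC β w ⌊δ * X⌋₊ ⌊η * X⌋₊ ⌊X ^ (1 - θ)⌋₊ ⌊X ^ (1 / 2 - θ)⌋₊ z ∧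
    GC β w ⌊δ * X⌋₊ ⌊η * X⌋₊ ⌊X ^ (1 - θ)⌋₊ ⌊X ^ (1 / 2 - θ)⌋₊ z ≤
      (lam * η - δ) * X * GM h β w ⌊X ^ (1 - θ)⌋₊ ⌊X ^ (1 / 2 - θ)⌋₊ + C * (X / X ^ (θ / 40))

def claimG6 : Prop := claimG1 → claimG2 → claimG3 → claimG4 → claimG5 → claimGC

/-! ## L: limits -/

/-- L1: abstract Darboux lemma: total mass from above and grid cubes from below give the limit
for all bounded almost everywhere continuous functions. -/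
def claimL1 : Prop := ∀ (ι : Type) [Fintype ι] (Ω : Set (ι → ℝ)) (ρ l : (ι → ℝ) → ℝ)
    (P : ℝ → ((ι → ℝ) × ℝ → ℝ) → ℝ) (ε : ℝ → ℝ),
    IsOpen Ω → (∀ y ∈ Ω, ∀ i, y i ∈ Set.Ioo (0 : ℝ) 1) → ContinuousOn ρ Ω → (∀ y ∈ Ω, 0 ≤ ρ y) →
    IntegrableOn ρ Ω → Continuous l → Tendsto ε atTop (𝓝 0) →
    (∀ X F G, P X (fun p => F p + G p) = P X F + P X G) →
    (∀ X (c : ℝ) F, P X (fun p => c * F p) = c * P X F) →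
    (∀ᶠ X in atTop, ∀ F : (ι → ℝ) × ℝ → ℝ, (∀ y t, |t - l y| ≤ ε X → 0 ≤ F (y, t)) → 0 ≤ P X F) →
    (∀ c, ∫ y in Ω, ρ y < c → ∀ᶠ X in atTop, P X (fun _ => 1) ≤ c) →
    (∀ (N : ℕ) (m : ι → ℕ), 0 < N → ccube N m ⊆ Ω → ∀ r, 0 ≤ r → (∀ y ∈ ccube N m, r ≤ ρ y) →
      ∀ c < r * (1 / (N : ℝ)) ^ Fintype.card ι,
        ∀ᶠ X in atTop, c ≤ P X (fun p => (gcube N m).indicator (fun _ => 1) p.1)) →
    ∀ (F : (ι → ℝ) × ℝ → ℝ) (B : ℝ), (∀ p, |F p| ≤ B) →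
    (∀ᵐ y ∂(volume.restrict Ω), ContinuousAt F (y, l y)) →
    Tendsto (fun X => P X F) atTop (𝓝 (∫ y in Ω, F (y, l y) * ρ y))

/-- L2: all tuples with a divisibility condition. -/
def claimL2 : Prop := ∀ s k : ℕ, k ≠ 0 → Tendsto (fun X : ℝ =>
    (∑ a ∈ tup s X, if k ∣ ∏ i, a i then ∏ i, (1 / (a i : ℝ)) else 0) / (Real.log X) ^ s)
    atTop (𝓝 (rho s k))

/-- L3: tuples with a weight. -/
def claimL3 : Prop := claimL1 → claimL2 → ∀ (s k : ℕ), k ≠ 0 → ∀ (φ : (Fin s → ℝ) → ℝ) (B : ℝ),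
    (∀ y, |φ y| ≤ B) → (∀ᵐ y, ContinuousAt φ y) → Tendsto (fun X : ℝ =>
    (∑ a ∈ tup s X, if k ∣ ∏ i, a i then φ (lg X a) * ∏ i, (1 / (a i : ℝ)) else 0) /
      (Real.log X) ^ s) atTop (𝓝 (rho s k * ∫ y in O1 s, φ y))

/-- Weighted pair sum. -/
noncomputable def PW {s : ℕ} (h : ℕ) (φ ψ : (Fin s → ℝ) → ℝ) (X : ℝ) : ℝ :=
  ∑ a ∈ tup s X, ∑ b ∈ tup s X, φ (lg X a) * ψ (lg X b) *
    (Fh h (Nat.gcd (∏ i, a i) (∏ i, b i)) * ((∏ i, (1 / (a i : ℝ))) * (∏ i, (1 / (b i : ℝ)))))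

/-- L4: pairs of tuples with weights (compare `tendsto_Wsum` in Corr). -/
def claimPW : Prop := ∀ (s h : ℕ), h ≠ 0 → ∀ (φ ψ : (Fin s → ℝ) → ℝ) (B : ℝ),
    (∀ y, |φ y| ≤ B) → (∀ᵐ y, ContinuousAt φ y) → (∀ y, |ψ y| ≤ B) → (∀ᵐ y, ContinuousAt ψ y) →
    Tendsto (fun X : ℝ => PW h φ ψ X / (Real.log X) ^ (2 * s)) atTop
      (𝓝 (Csing s h * ((∫ y in O1 s, φ y) * ∫ y in O1 s, ψ y)))

def claimL4 : Prop := claimL1 → claimL2 → claimL3 → claimPW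

/-- L5: Mertens for von Mangoldt and for primes. -/
def claimL5 : Prop :=
    (∃ C : ℝ, ∀ x : ℝ, 1 ≤ x → |∑ d ∈ Finset.Icc 1 ⌊x⌋₊, Λ d / (d : ℝ) - Real.log x| ≤ C) ∧
    (∃ C : ℝ, ∀ x : ℝ, 1 ≤ x →
      |∑ p ∈ (Finset.Icc 1 ⌊x⌋₊).filter Nat.Prime, Real.log p / (p : ℝ) - Real.log x| ≤ C)

/-- L6: affine hyperplanes are null sets. -/
def claimL6 : Prop := ∀ (ι : Type) [Fintype ι] (c : ι → ℝ) (b : ℝ), c ≠ 0 →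
    volume {y : ι → ℝ | ∑ i, c i * y i = b} = 0

/-- L7: main term for a box with marks, from below. -/
def claimMB : Prop := ∀ (s k h : ℕ), h ≠ 0 → ∀ (αm βm : Fin k → ℝ) (αv βv : Fin s → ℝ),
    (∀ j, 0 < αm j) → (∀ j, αm j ≤ βm j) → (∀ j, βm j ≤ 1) →
    (∀ i, 0 ≤ αv i) → (∀ i, αv i ≤ βv i) → (∀ i, βv i ≤ 1) →
    ∀ (ψ : (Fin s → ℝ) → ℝ) (B : ℝ), (∀ y, 0 ≤ ψ y) → (∀ y, ψ y ≤ B) → (∀ᵐ y, ContinuousAt ψ y) →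
    ∀ c < Csing s h * (((∏ j, (βm j - αm j)) * ∏ i, (βv i - αv i)) * ∫ y in O1 s, ψ y),
    ∀ᶠ X : ℝ in atTop, c * (Real.log X) ^ (k + 2 * s) ≤
      ∑ d ∈ box αm βm X, ∑ a ∈ box αv βv X, ∑ b ∈ tup s X,
        (∏ j, Λ (d j)) * ψ (lg X b) *
        (Fh h (Nat.gcd ((∏ j, d j) * ∏ i, a i) (∏ i, b i)) *
          (((∏ j, (1 / (d j : ℝ))) * ∏ i, (1 / (a i : ℝ))) * (∏ i, (1 / (b i : ℝ)))))

def claimL7 : Prop := claimPW → claimL5 → claimL6 → claimMB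

/-! ## T: structure sums -/

/-- T1: linearity in `F`. -/
def claimT1 : Prop := ∀ (L : ℝ) (s k n : ℕ) (F G : (Fin k → ℝ) → (Fin (s + 1) → ℝ) → ℝ) (c : ℝ),
    TS L s k n (fun x v => F x v + G x v) = TS L s k n F + TS L s k n G ∧
    TS L s k n (fun x v => c * F x v) = c * TS L s k n F

/-- T2: positivity; the positions of the points. -/
def claimT2 : Prop := ∀ (L : ℝ) (s k n : ℕ), 0 < L → n ≠ 0 →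
    ∀ F : (Fin k → ℝ) → (Fin (s + 1) → ℝ) → ℝ,
    (∀ x v, (∀ j, 0 ≤ x j) → (∀ i, 0 ≤ v i) → ∑ j, x j + ∑ i, v i = Real.log n / L → 0 ≤ F x v) →
    0 ≤ TS L s k n F

/-- T3: the identity behind the marks, and the total mass of the structure sum. -/
def claimT3 : Prop := (∀ (s n : ℕ), n ≠ 0 → ∑ d ∈ n.divisors,
      Λ d * (((ζ : ArithmeticFunction ℕ) ^ (s + 1)) (n / d) : ℝ) =
      Real.log n * (((ζ : ArithmeticFunction ℕ) ^ (s + 1)) n : ℝ) / (s + 1)) ∧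
    ∀ (L : ℝ) (s k n : ℕ), n ≠ 0 → TS L s k n (fun _ _ => 1) ≤
      (((ζ : ArithmeticFunction ℕ) ^ (s + 1)) n : ℝ) / (s + 1) ^ k

/-- T4: cubes from below. -/
def claimT4 : Prop := ∀ (s k n : ℕ) (X : ℝ), 1 < X → n ≠ 0 → (n : ℝ) ≤ X →
    ∀ (αm βm : Fin k → ℝ) (αv βv : Fin s → ℝ), (∀ j, 0 < αm j) → ∑ j, αm j < 1 →
    (∏ j : Fin k, (Real.log X * (1 - ∑ i ∈ Finset.univ.filter (fun i : Fin k => i < j), αm i))⁻¹) *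
      (∑ d ∈ box αm βm X, ∑ a ∈ box αv βv X,
        if (∏ j, d j) * ∏ i, a i ∣ n then ∏ j, Λ (d j) else 0) ≤
    TS (Real.log X) s k n (fun x v => if (∀ j, αm j < x j ∧ x j ≤ βm j) ∧
      (∀ i : Fin s, αv i < v (Fin.castSucc i) ∧ v (Fin.castSucc i) ≤ βv i) then 1 else 0)

/-- T5: a bound for `TS`, for the integrability of nothing but used for `n` in a finite range. -/
def claimT5 : Prop := ∀ (s n : ℕ), n ≠ 0 →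
    ((ζ : ArithmeticFunction ℕ) ^ (s + 1)) n ≤ (s + 1) *
      ((Fintype.piFinset (fun _ : Fin s => n.divisors)).filter
        (fun a => (∏ i, a i) ∣ n ∧ ∀ j, a j * (∏ i, a i) ≤ n)).card

/-- T6: total mass. -/
def claimTM : Prop := ∀ (s h : ℕ), 1 ≤ s → h ≠ 0 → ∀ θ : ℝ, 0 < θ → θ < 1 / 2 →
    ∀ ψ : (Fin s → ℝ) → ℝ, Wt s θ ψ → ∀ z : ℤ, z.natAbs = h → ∀ η : ℝ, 0 < η → η ≤ 1 →
    ∀ c, η * (Csing s h * (((s + 1) * volume.real (Rs s ∩ O1 s)) * ∫ y in O1 s, ψ y)) < c →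
    ∀ᶠ X : ℝ in atTop, ∑ n ∈ Finset.Icc 1 ⌊η * X⌋₊,
      Apsi ψ X z n * (((ζ : ArithmeticFunction ℕ) ^ (s + 1)) n : ℝ) ≤
      c * (X * (Real.log X) ^ (2 * s))

def claimT6 : Prop := claimGC → claimPW → claimL6 → claimT5 → claimTM

/-- T7: the volume of the region of the smaller variables, and the integral of the density. -/
def claimT7 : Prop := ∀ s : ℕ, 1 ≤ s →
    (s + 1) * volume.real (Rs s ∩ O1 s) ≤ 1 / (s.factorial : ℝ)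

def claimT8 : Prop := ∀ k s : ℕ, IntegrableOn (den (k := k) (s := s)) (Sim k s) ∧
    ∫ y in Sim k s, den y = 1 / ((s.factorial : ℝ) * (s + 1) ^ k)

/-! ## A: the asymptotic evaluation -/

/-- A1: one cube, from below. -/
def claimA1' : Prop := ∀ (s k h : ℕ), 1 ≤ s → h ≠ 0 → ∀ θ : ℝ, 0 < θ → θ < 1 / 2 →
    ∀ ψ : (Fin s → ℝ) → ℝ, Wt s θ ψ → ∀ z : ℤ, z.natAbs = h →
    ∀ (αm βm : Fin k → ℝ) (αv βv : Fin s → ℝ), (∀ j, 0 < αm j) → (∀ j, αm j ≤ βm j) →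
    (∀ i, 0 < αv i) → (∀ i, αv i ≤ βv i) → ∑ j, βm j + ∑ i, βv i < 1 →
    ∀ c < (∏ j : Fin k, (1 - ∑ i ∈ Finset.univ.filter (fun i : Fin k => i < j), αm i)⁻¹) *
      (((∏ j, (βm j - αm j)) * ∏ i, (βv i - αv i)) * (Csing s h * ∫ y in O1 s, ψ y)),
    ∀ᶠ X : ℝ in atTop, c * (X * (Real.log X) ^ (2 * s)) ≤
      ∑ n ∈ Finset.Ioc ⌊X / Real.log X⌋₊ ⌊X⌋₊, Apsi ψ X z n *
        TS (Real.log X) s k n (fun x v => if (∀ j, αm j < x j ∧ x j ≤ βm j) ∧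
          (∀ i : Fin s, αv i < v (Fin.castSucc i) ∧ v (Fin.castSucc i) ≤ βv i) then 1 else 0)

def claimA1 : Prop := claimGC → claimMB → claimT4 → claimA1'

/-- The asymptotic evaluation of structure sums. -/
def claimASY : Prop := ∀ (s k h : ℕ), 1 ≤ s → h ≠ 0 → ∀ θ : ℝ, 0 < θ → θ < 1 / 2 →
    ∀ ψ : (Fin s → ℝ) → ℝ, Wt s θ ψ → ∀ z : ℤ, z.natAbs = h →
    ∀ (F : (Fin k → ℝ) → (Fin (s + 1) → ℝ) → ℝ) (B : ℝ), (∀ x v, |F x v| ≤ B) →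
    (∀ᵐ y ∂(volume.restrict (Sim k s)), ContinuousAt (ext F) (y, 1 - ∑ i, y i)) →
    Tendsto (fun X : ℝ => (∑ n ∈ Finset.Icc 1 ⌊X⌋₊,
        Apsi ψ X z n * TS (Real.log X) s k n F) / (X * (Real.log X) ^ (2 * s))) atTop
      (𝓝 (Csing s h * (∫ y in O1 s, ψ y) * ∫ y in Sim k s, ext F (y, 1 - ∑ i, y i) * den y))

/-- A2: assembly. -/
def claimA2 : Prop := claimL1 → claimT1 → claimT2 → claimT3 → claimTM → claimT7 → claimT8 →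
    claimA1' → claimASY

/-- A3: crude upper bound with arbitrary coefficients, for tails. -/
def claimCR : Prop := ∀ (s h : ℕ) (θ : ℝ), h ≠ 0 → 0 < θ → θ < 1 / 2 →
    ∀ ψ : (Fin s → ℝ) → ℝ, Wt s θ ψ → ∃ C : ℝ, ∀ᶠ X : ℝ in atTop, ∀ z : ℤ, z.natAbs = h →
    ∀ β : ℕ → ℝ, (∀ m, 0 ≤ β m) → (∀ m, β m ≤ X ^ (θ / 40)) →
    ∑ n ∈ Finset.Icc 1 ⌊X⌋₊, Apsi ψ X z n *
      (∑ m ∈ Finset.Icc 1 ⌊X ^ (1 - θ)⌋₊, if m ∣ n then β m else 0) ≤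
    C * X * (Real.log X) ^ s * (∑ m ∈ Finset.Icc 1 ⌊X ^ (1 - θ)⌋₊, β m / m) +
      C * (X / X ^ (θ / 40))

def claimA3 : Prop := claimGC → claimCR

end Pool.Agent.Work.MP_122e00_nt.Two
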