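import Pool.Agent.Work.MP_122e00_nt.Two.Stmts

set_option autoImplicit false

/-!
# The integral of the density of size-biased marks over the simplex
-/

namespace Pool.Agent.Work.MP_122e00_nt.Two

open Finset Filter Topology MeasureTheory

open scoped ENNReal

namespace IT8

/-- the lintegral over `Fin (n + 1) → ℝ` by splitting off the first coordinate -/
lemma lintegral_cons {n : ℕ} (f : (Fin (n + 1) → ℝ) → ℝ≥0∞) (hf : Measurable f) :
    ∫⁻ x, f x = ∫⁻ x0 : ℝ, ∫⁻ x : Fin n → ℝ, f (Fin.cons x0 x) := by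
  have h := (volume_preserving_piFinSuccAbove (fun _ : Fin (n + 1) => ℝ) 0).symm
  rw [← h.lintegral_comp hf]
  rw [show (volume : Measure (ℝ × (Fin n → ℝ))) = volume.prod volume from rfl]
  rw [lintegral_prod]
  · refine lintegral_congr (fun x0 => lintegral_congr (fun x => ?_))
    congr 1
    exact Fin.insertNth_zero' x0 x
  · exact (hf.comp (MeasurableEquiv.measurable _)).aemeasurable

/-- `a R ^ n` for `R > 0` -/
noncomputable def G (n : ℕ) (a R : ℝ) : ℝ≥0∞ := if 0 < R then ENNReal.ofReal (a * R ^ n) else 0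

lemma G_int (n : ℕ) (a R : ℝ) (ha : 0 ≤ a) :
    ∫⁻ x : ℝ, (if 0 < x then G n a (R - x) else 0) = G (n + 1) (a / (n + 1)) R := by
  have h1 : ∀ x : ℝ, (if 0 < x then G n a (R - x) else 0) =
      (Set.Ioo 0 R).indicator (fun x => ENNReal.ofReal (a * (R - x) ^ n)) x := by
    intro x
    unfold G
    by_cases hx : 0 < x
    · by_cases hR : 0 < R - x
      · rw [if_pos hx, if_pos hR, Set.indicator_of_mem]
        exact ⟨hx, by linarith⟩
      · rw [if_pos hx, if_neg hR, Set.indicator_of_notMem]
        intro h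
        exact hR (by linarith [h.2])
    · rw [if_neg hx, Set.indicator_of_notMem]
      intro h
      exact hx h.1
  simp_rw [h1]
  rw [lintegral_indicator measurableSet_Ioo]
  unfold G
  split_ifs with hR
  · rw [← ofReal_integral_eq_lintegral_ofReal]
    · congr 1
      rw [← integral_Ioc_eq_integral_Ioo, ← intervalIntegral.integral_of_le hR.le,
        intervalIntegral.integral_const_mul,
        intervalIntegral.integral_comp_sub_left (fun x => x ^ n) R, sub_self, sub_zero,
        integral_pow]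
      rw [zero_pow (Nat.succ_ne_zero n)]
      field_simp
      ring
    · apply Continuous.integrableOn_Ioc (f := fun x : ℝ => a * (R - x) ^ n) (by fun_prop) |>.mono_set
      exact Set.Ioo_subset_Ioc_self
    · refine (ae_restrict_iff' measurableSet_Ioo).mpr (Eventually.of_forall (fun x hx => ?_))
      exact mul_nonneg ha (pow_nonneg (by linarith [hx.2]) n)
  · rw [Set.Ioo_eq_empty (by simpa using hR)]
    simp

/-- the density at scale `R` -/
noncomputable def D (k : ℕ) (R : ℝ) (x : Fin k → ℝ) : ℝ :=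
  ∏ j : Fin k, (R - ∑ i ∈ Finset.univ.filter (fun i : Fin k => i < j), x i)⁻¹

lemma D_cons (k : ℕ) (R x0 : ℝ) (x : Fin k → ℝ) :
    D (k + 1) R (Fin.cons x0 x) = R⁻¹ * D k (R - x0) x := by
  unfold D
  rw [Fin.prod_univ_succ]
  congr 1
  · have : (Finset.univ.filter (fun i : Fin (k + 1) => i < 0)) = ∅ := by
      ext i
      simp
    rw [this, Finset.sum_empty, sub_zero]
  · refine Finset.prod_congr rfl (fun j _ => ?_)
    congr 1
    rw [Finset.sum_filter, Fin.sum_univ_succ, Finset.sum_filter]
    simp only [Fin.succ_pos, if_true, Fin.cons_zero, Fin.cons_succ, Fin.succ_lt_succ_iff]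
    ring

lemma D_meas (k : ℕ) : Measurable (fun p : ℝ × (Fin k → ℝ) => D k p.1 p.2) := by
  unfold D
  refine Finset.measurable_prod _ (fun j _ => Measurable.inv ?_)
  refine measurable_fst.sub (Finset.measurable_sum _ (fun i _ => ?_))
  exact (measurable_pi_apply i).comp measurable_snd

/-- the region -/
def reg (k s : ℕ) (R : ℝ) : Set ((Fin k → ℝ) × (Fin s → ℝ)) :=
  {p | (∀ i, 0 < p.1 i) ∧ (∀ i, 0 < p.2 i) ∧ ∑ i, p.1 i + ∑ i, p.2 i < R}

open Classical in
/-- the iterated integral -/
noncomputable def T (k s : ℕ) (R : ℝ) : ℝ≥0∞ :=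
  ∫⁻ x : Fin k → ℝ, ∫⁻ v : Fin s → ℝ,
    if (x, v) ∈ reg k s R then ENNReal.ofReal (D k R x) else 0

lemma reg_meas (k s : ℕ) (R : ℝ) : MeasurableSet (reg k s R) := by
  unfold reg
  have h1 : MeasurableSet {p : (Fin k → ℝ) × (Fin s → ℝ) | ∀ i, 0 < p.1 i} := by
    rw [Set.ofPred_forall]
    exact MeasurableSet.iInter (fun i => measurableSet_lt measurable_const
      ((measurable_pi_apply i).comp measurable_fst))
  have h2 : MeasurableSet {p : (Fin k → ℝ) × (Fin s → ℝ) | ∀ i, 0 < p.2 i} := by
    rw [Set.ofPred_forall]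
    exact MeasurableSet.iInter (fun i => measurableSet_lt measurable_const
      ((measurable_pi_apply i).comp measurable_snd))
  have h3 : MeasurableSet {p : (Fin k → ℝ) × (Fin s → ℝ) | ∑ i, p.1 i + ∑ i, p.2 i < R} := by
    refine measurableSet_lt (Measurable.add ?_ ?_) measurable_const
    · exact Finset.measurable_sum _ (fun i _ => (measurable_pi_apply i).comp measurable_fst)
    · exact Finset.measurable_sum _ (fun i _ => (measurable_pi_apply i).comp measurable_snd)
  exact h1.inter (h2.inter h3)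

open Classical in
lemma int_meas (k s : ℕ) (R : ℝ) : Measurable (fun p : (Fin k → ℝ) × (Fin s → ℝ) =>
    if p ∈ reg k s R then ENNReal.ofReal (D k R p.1) else 0) := by
  refine Measurable.ite (reg_meas k s R) ?_ measurable_const
  refine ENNReal.measurable_ofReal.comp ?_
  exact (D_meas k).comp (measurable_const.prodMk measurable_fst)

/-- the volume of the simplex as a lintegral -/
noncomputable def S (s : ℕ) (R : ℝ) : ℝ≥0∞ := T 0 s R

lemma lintegral_fin0 (f : (Fin 0 → ℝ) → ℝ≥0∞) : ∫⁻ x, f x = f isEmptyElim := by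
  rw [volume_pi, Measure.pi_of_empty, lintegral_dirac]

open Classical in
/-- the volume of the simplex -/
noncomputable def S0 (s : ℕ) (R : ℝ) : ℝ≥0∞ :=
  ∫⁻ v : Fin s → ℝ, if (∀ i, 0 < v i) ∧ ∑ i, v i < R then 1 else 0

open Classical in
lemma S0_meas (s : ℕ) (R : ℝ) : Measurable (fun v : Fin s → ℝ =>
    if (∀ i, 0 < v i) ∧ ∑ i, v i < R then (1 : ℝ≥0∞) else 0) := by
  have h1 : MeasurableSet {v : Fin s → ℝ | ∀ i, 0 < v i} := by
    rw [Set.ofPred_forall]
    exact MeasurableSet.iInter (fun i => measurableSet_lt measurable_const (measurable_pi_apply i))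
  have h2 : MeasurableSet {v : Fin s → ℝ | ∑ i, v i < R} :=
    measurableSet_lt (Finset.measurable_sum _ (fun i _ => measurable_pi_apply i)) measurable_const
  exact Measurable.ite (h1.inter h2) measurable_const measurable_const

lemma S0_eq (s : ℕ) : ∀ R : ℝ, S0 s R = G s (1 / (s.factorial : ℝ)) R := by
  induction s with
  | zero =>
    intro R
    unfold S0 G
    rw [lintegral_fin0]
    by_cases hR : 0 < R
    · simp [hR]
    · simp [hR]
  | succ s ih =>
    intro R
    unfold S0
    rw [lintegral_cons _ (S0_meas (s + 1) R)]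
    have h1 : ∀ x0 : ℝ, (∫⁻ x : Fin s → ℝ,
        if (∀ i, 0 < (Fin.cons x0 x : Fin (s + 1) → ℝ) i) ∧
          ∑ i, (Fin.cons x0 x : Fin (s + 1) → ℝ) i < R then (1 : ℝ≥0∞) else 0) =
        if 0 < x0 then G s (1 / (s.factorial : ℝ)) (R - x0) else 0 := by
      intro x0
      split_ifs with hx
      · rw [← ih]
        unfold S0
        refine lintegral_congr (fun x => ?_)
        have e : ((∀ i, 0 < (Fin.cons x0 x : Fin (s + 1) → ℝ) i) ∧
          ∑ i, (Fin.cons x0 x : Fin (s + 1) → ℝ) i < R) ↔
            ((∀ i, 0 < x i) ∧ ∑ i, x i < R - x0) := by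
          rw [Fin.forall_fin_succ, Fin.sum_univ_succ]
          simp only [Fin.cons_zero, Fin.cons_succ]
          constructor
          · rintro ⟨⟨_, h1⟩, h2⟩
            exact ⟨h1, by linarith⟩
          · rintro ⟨h1, h2⟩
            exact ⟨⟨hx, h1⟩, by linarith⟩
        simp only [e]
      · refine (lintegral_congr (fun x => ?_)).trans lintegral_zero
        rw [if_neg]
        intro h
        exact hx (h.1 0)
    rw [lintegral_congr h1, G_int _ _ _ (by positivity)]
    congr 1
    rw [Nat.factorial_succ]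
    push_cast
    field_simp

lemma T_zero (s : ℕ) (R : ℝ) : T 0 s R = S0 s R := by
  unfold T S0
  rw [lintegral_fin0]
  refine lintegral_congr (fun v => ?_)
  have e : ((isEmptyElim : Fin 0 → ℝ), v) ∈ reg 0 s R ↔ ((∀ i, 0 < v i) ∧ ∑ i, v i < R) := by
    unfold reg
    simp
  simp only [e]
  simp [D]

lemma T_succ (k s : ℕ) (R : ℝ) (hR : 0 < R) : T (k + 1) s R =
    ∫⁻ x0 : ℝ, if 0 < x0 then ENNReal.ofReal R⁻¹ * T k s (R - x0) else 0 := by
  classical
  have hm : Measurable (fun x : Fin (k + 1) → ℝ => ∫⁻ v : Fin s → ℝ,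
      if (x, v) ∈ reg (k + 1) s R then ENNReal.ofReal (D (k + 1) R x) else 0) :=
    (int_meas (k + 1) s R).lintegral_prod_right'
  unfold T
  rw [lintegral_cons _ hm]
  refine lintegral_congr (fun x0 => ?_)
  split_ifs with hx
  · have hm2 : Measurable (fun x : Fin k → ℝ => ∫⁻ v : Fin s → ℝ,
        if (x, v) ∈ reg k s (R - x0) then ENNReal.ofReal (D k (R - x0) x) else 0) :=
      (int_meas k s (R - x0)).lintegral_prod_right'
    rw [← lintegral_const_mul _ hm2]
    refine lintegral_congr (fun x => ?_)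
    have hm3 : Measurable (fun v : Fin s → ℝ =>
        if (x, v) ∈ reg k s (R - x0) then ENNReal.ofReal (D k (R - x0) x) else 0) :=
      (int_meas k s (R - x0)).comp (measurable_const.prodMk measurable_id)
    rw [← lintegral_const_mul _ hm3]
    refine lintegral_congr (fun v => ?_)
    have e : ((Fin.cons x0 x : Fin (k + 1) → ℝ), v) ∈ reg (k + 1) s R ↔
        (x, v) ∈ reg k s (R - x0) := by
      unfold reg
      simp only [Set.mem_ofPred_eq]
      rw [Fin.forall_fin_succ, Fin.sum_univ_succ]
      simp only [Fin.cons_zero, Fin.cons_succ]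
      constructor
      · rintro ⟨⟨_, h1⟩, h2, h3⟩
        exact ⟨h1, h2, by linarith⟩
      · rintro ⟨h1, h2, h3⟩
        exact ⟨⟨hx, h1⟩, h2, by linarith⟩
    simp only [e]
    split_ifs with hreg
    · rw [D_cons, ENNReal.ofReal_mul (inv_nonneg.mpr hR.le)]
    · rw [mul_zero]
  · refine (lintegral_congr (fun x => ?_)).trans lintegral_zero
    refine (lintegral_congr (fun v => ?_)).trans lintegral_zero
    rw [if_neg]
    intro h
    exact hx (h.1 0)

lemma T_nonpos (k s : ℕ) (R : ℝ) (hR : R ≤ 0) : T k s R = 0 := by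
  unfold T
  refine (lintegral_congr (fun x => ?_)).trans lintegral_zero
  refine (lintegral_congr (fun v => ?_)).trans lintegral_zero
  rw [if_neg]
  rintro ⟨h1, h2, h3⟩
  have a1 : 0 ≤ ∑ i, x i := Finset.sum_nonneg (fun i _ => (h1 i).le)
  have a2 : 0 ≤ ∑ i, v i := Finset.sum_nonneg (fun i _ => (h2 i).le)
  have h3' : ∑ i, x i + ∑ i, v i < R := h3
  linarith

lemma T_eq (s k : ℕ) : ∀ R : ℝ, T k s R = G s (1 / ((s.factorial : ℝ) * (s + 1) ^ k)) R := by
  induction k with
  | zero =>
    intro R
    rw [T_zero, S0_eq, pow_zero, mul_one]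
  | succ k ih =>
    intro R
    rcases le_or_gt R 0 with hR | hR
    · rw [T_nonpos _ _ _ hR]
      unfold G
      rw [if_neg (not_lt.mpr hR)]
    · rw [T_succ k s R hR]
      have h1 : ∀ x0 : ℝ, (if 0 < x0 then ENNReal.ofReal R⁻¹ * T k s (R - x0) else 0) =
          ENNReal.ofReal R⁻¹ *
            (if 0 < x0 then G s (1 / ((s.factorial : ℝ) * (s + 1) ^ k)) (R - x0) else 0) := by
        intro x0
        rw [ih]
        split_ifs
        · rfl
        · rw [mul_zero]
      rw [lintegral_congr h1, lintegral_const_mul', G_int _ _ _ (by positivity)]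
      · unfold G
        rw [if_pos hR, if_pos hR, ← ENNReal.ofReal_mul (inv_nonneg.mpr hR.le)]
        congr 1
        field_simp
        ring
      · exact ENNReal.ofReal_ne_top

lemma Sim_meas (k s : ℕ) : MeasurableSet (Sim k s) := by
  unfold Sim
  have h1 : MeasurableSet {y : Fin k ⊕ Fin s → ℝ | ∀ i, 0 < y i} := by
    rw [Set.ofPred_forall]
    exact MeasurableSet.iInter (fun i => measurableSet_lt measurable_const (measurable_pi_apply i))
  have h2 : MeasurableSet {y : Fin k ⊕ Fin s → ℝ | ∑ i, y i < 1} :=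
    measurableSet_lt (Finset.measurable_sum _ (fun i _ => measurable_pi_apply i)) measurable_const
  exact h1.inter h2

lemma den_meas (k s : ℕ) : Measurable (den (k := k) (s := s)) := by
  unfold den
  refine Finset.measurable_prod _ (fun j _ => Measurable.inv ?_)
  exact measurable_const.sub (Finset.measurable_sum _ (fun i _ => measurable_pi_apply _))

lemma lint_den (k s : ℕ) : ∫⁻ y in Sim k s, ENNReal.ofReal (den y) = T k s 1 := by
  classical
  rw [← lintegral_indicator (Sim_meas k s)]
  have hf : Measurable ((Sim k s).indicator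
      (fun y : Fin k ⊕ Fin s → ℝ => ENNReal.ofReal (den y))) :=
    (ENNReal.measurable_ofReal.comp (den_meas k s)).indicator (Sim_meas k s)
  have h := volume_measurePreserving_sumPiEquivProdPi_symm (fun _ : Fin k ⊕ Fin s => ℝ)
  rw [← h.lintegral_comp hf]
  rw [show (volume : Measure ((Fin k → ℝ) × (Fin s → ℝ))) = volume.prod volume from rfl]
  rw [lintegral_prod]
  swap
  · exact (hf.comp (MeasurableEquiv.measurable _)).aemeasurable
  unfold T
  refine lintegral_congr (fun x => lintegral_congr (fun v => ?_))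
  have e : (MeasurableEquiv.sumPiEquivProdPi fun _ : Fin k ⊕ Fin s => ℝ).symm (x, v) ∈ Sim k s ↔
      (x, v) ∈ reg k s 1 := by
    unfold Sim reg
    simp only [Set.mem_ofPred_eq]
    rw [Fintype.sum_sum_type, Sum.forall]
    constructor
    · rintro ⟨⟨h1, h2⟩, h3⟩
      exact ⟨h1, h2, h3⟩
    · rintro ⟨h1, h2, h3⟩
      exact ⟨⟨h1, h2⟩, h3⟩
  by_cases hm : (x, v) ∈ reg k s 1
  · rw [if_pos hm, Set.indicator_of_mem (e.mpr hm)]
    rfl
  · rw [if_neg hm, Set.indicator_of_notMem (fun h => hm (e.mp h))]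

end IT8

open IT8 in
theorem prfT8 : claimT8 := by
  intro k s
  have h1 := lint_den k s
  rw [T_eq] at h1
  unfold G at h1
  rw [if_pos one_pos, one_pow, mul_one] at h1
  have hnn : ∀ᵐ y ∂(volume.restrict (Sim k s)), 0 ≤ den y := by
    refine (ae_restrict_iff' (Sim_meas k s)).mpr (Eventually.of_forall (fun y hy => ?_))
    unfold den
    refine Finset.prod_nonneg (fun j _ => inv_nonneg.mpr ?_)
    have h2 : ∑ i ∈ Finset.univ.filter (fun i : Fin k => i < j), y (Sum.inl i) ≤
        ∑ i : Fin k, y (Sum.inl i) :=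
      Finset.sum_le_sum_of_subset_of_nonneg (Finset.filter_subset _ _)
        (fun i _ _ => (hy.1 (Sum.inl i)).le)
    have h3 : 0 ≤ ∑ i : Fin s, y (Sum.inr i) :=
      Finset.sum_nonneg (fun i _ => (hy.1 (Sum.inr i)).le)
    have h4 : ∑ i, y i < 1 := hy.2
    rw [Fintype.sum_sum_type] at h4
    linarith
  have hms : AEStronglyMeasurable (den (k := k) (s := s)) (volume.restrict (Sim k s)) :=
    (den_meas k s).aestronglyMeasurable
  refine ⟨⟨hms, ?_⟩, ?_⟩
  · rw [hasFiniteIntegral_iff_ofReal hnn, h1]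
    exact ENNReal.ofReal_lt_top
  · rw [integral_eq_lintegral_of_nonneg_ae hnn hms, h1, ENNReal.toReal_ofReal (by positivity)]

end Pool.Agent.Work.MP_122e00_nt.Two
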