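import Pool.Agent.Work.MP_122e00_nt.Two.Stmts

set_option autoImplicit false

/-!
# L5: Mertens for von Mangoldt and for primes
-/

namespace Pool.Agent.Work.MP_122e00_nt.Two

open Finset Filter Topology MeasureTheory

open scoped ArithmeticFunction.vonMangoldt ArithmeticFunction.zeta

namespace IL5

theorem sum_log (N : ℕ) : ∑ n ∈ Ioc 0 N, Real.log n = ∑ d ∈ Ioc 0 N, Λ d * ((N / d : ℕ) : ℝ) := by
  rw [← ArithmeticFunction.sum_Ioc_mul_zeta_eq_sum, ArithmeticFunction.vonMangoldt_mul_zeta]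
  rfl

theorem log_lower (N : ℕ) : (N : ℝ) * Real.log N - N ≤ ∑ n ∈ Ioc 0 N, Real.log n := by
  induction N with
  | zero => simp
  | succ N ih =>
    rw [Finset.sum_Ioc_succ_top (Nat.zero_le N)]
    rcases Nat.eq_zero_or_pos N with h | h
    · subst h
      simp
    · have h0 : (0 : ℝ) < N := by exact_mod_cast h
      have h1 : Real.log ((N + 1 : ℕ) : ℝ) - Real.log N ≤ 1 / N := by
        rw [← Real.log_div (by positivity) (by positivity)]
        refine (Real.log_le_sub_one_of_pos (by positivity)).trans (le_of_eq ?_)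
        push_cast
        field_simp
        ring
      have h2 : (N : ℝ) * (Real.log ((N + 1 : ℕ) : ℝ) - Real.log N) ≤ 1 := by
        calc (N : ℝ) * (Real.log ((N + 1 : ℕ) : ℝ) - Real.log N) ≤ N * (1 / N) :=
              mul_le_mul_of_nonneg_left h1 h0.le
          _ = 1 := by field_simp
      push_cast at h2 ih ⊢
      nlinarith

theorem log_upper (N : ℕ) : ∑ n ∈ Ioc 0 N, Real.log n ≤ (N : ℝ) * Real.log N := by
  calc ∑ n ∈ Ioc 0 N, Real.log n ≤ ∑ n ∈ Ioc 0 N, Real.log N := by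
        refine Finset.sum_le_sum fun n hn => ?_
        have := Finset.mem_Ioc.1 hn
        exact Real.log_le_log (by exact_mod_cast this.1) (by exact_mod_cast this.2)
    _ = (N : ℝ) * Real.log N := by
        rw [Finset.sum_const, Nat.card_Ioc, nsmul_eq_mul]
        simp

theorem S1_bounds (N : ℕ) (hN : 1 ≤ N) : Real.log N - 1 ≤ ∑ d ∈ Ioc 0 N, Λ d / (d : ℝ) ∧
    ∑ d ∈ Ioc 0 N, Λ d / (d : ℝ) ≤ Real.log N + (Real.log 4 + 4) := by
  have h0 : (0 : ℝ) < N := by exact_mod_cast hN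
  have hS : (N : ℝ) * ∑ d ∈ Ioc 0 N, Λ d / (d : ℝ) = ∑ d ∈ Ioc 0 N, Λ d * ((N : ℝ) / d) := by
    rw [Finset.mul_sum]
    refine Finset.sum_congr rfl fun d _ => ?_
    ring
  have h1 : ∑ n ∈ Ioc 0 N, Real.log n ≤ (N : ℝ) * ∑ d ∈ Ioc 0 N, Λ d / (d : ℝ) := by
    rw [hS, sum_log]
    refine Finset.sum_le_sum fun d _ => ?_
    exact mul_le_mul_of_nonneg_left Nat.cast_div_le ArithmeticFunction.vonMangoldt_nonneg
  have hpsi : ∑ d ∈ Ioc 0 N, Λ d ≤ (Real.log 4 + 4) * N := by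
    have := Chebyshev.psi_le_const_mul_self h0.le
    rwa [Chebyshev.psi, Nat.floor_natCast] at this
  have h2 : (N : ℝ) * ∑ d ∈ Ioc 0 N, Λ d / (d : ℝ) ≤
      ∑ n ∈ Ioc 0 N, Real.log n + (Real.log 4 + 4) * N := by
    rw [hS, sum_log]
    calc ∑ d ∈ Ioc 0 N, Λ d * ((N : ℝ) / d)
        ≤ ∑ d ∈ Ioc 0 N, (Λ d * ((N / d : ℕ) : ℝ) + Λ d) := by
          refine Finset.sum_le_sum fun d hd => ?_
          have hd0 : 0 < d := (Finset.mem_Ioc.1 hd).1
          have h3 : (N : ℝ) / d ≤ ((N / d : ℕ) : ℝ) + 1 := by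
            rw [div_le_iff₀ (by exact_mod_cast hd0)]
            have h4 := Nat.lt_mul_div_succ N hd0
            have h5 : (N : ℝ) < (d : ℝ) * (((N / d : ℕ) : ℝ) + 1) := by exact_mod_cast h4
            linarith
          have h6 : 0 ≤ Λ d := ArithmeticFunction.vonMangoldt_nonneg
          nlinarith
      _ = ∑ d ∈ Ioc 0 N, Λ d * ((N / d : ℕ) : ℝ) + ∑ d ∈ Ioc 0 N, Λ d :=
          Finset.sum_add_distrib
      _ ≤ _ := by linarith
  have h3 := log_lower N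
  have h4 := log_upper N
  constructor
  · by_contra hc
    push Not at hc
    have := mul_lt_mul_of_pos_left hc h0
    nlinarith
  · by_contra hc
    push Not at hc
    have := mul_lt_mul_of_pos_left hc h0
    nlinarith

/-- the part of the sum over numbers which are not prime -/
noncomputable def D (N : ℕ) : ℝ := ∑ n ∈ Ioc 0 N, if n.Prime then 0 else Λ n / (n : ℝ)

/-- the sum of the von Mangoldt function over numbers which are not prime -/
noncomputable def Cn (N : ℕ) : ℝ := ∑ n ∈ Ioc 0 N, if n.Prime then 0 else Λ n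

theorem Cn_le (N : ℕ) (hN : 1 ≤ N) : Cn N ≤ 8 * (N : ℝ) ^ ((3 : ℝ) / 4) := by
  have h0 : (0 : ℝ) < N := by exact_mod_cast hN
  have h1 : Cn N = Chebyshev.psi N - Chebyshev.theta N := by
    rw [Chebyshev.psi_sub_theta_eq_sum_not_prime, Nat.floor_natCast, Finset.sum_filter]
    refine Finset.sum_congr rfl fun n _ => ?_
    by_cases h : n.Prime
    · rw [if_pos h, if_neg (not_not.2 h)]
    · rw [if_neg h, if_pos h]
  have h2 := (le_abs_self _).trans (Chebyshev.abs_psi_sub_theta_le_sqrt_mul_log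
    (by exact_mod_cast hN : (1 : ℝ) ≤ N))
  rw [← h1] at h2
  have h3 : Real.log N ≤ 4 * (N : ℝ) ^ ((1 : ℝ) / 4) := by
    have := Real.log_le_rpow_div h0.le (by norm_num : (0 : ℝ) < 1 / 4)
    linarith
  calc Cn N ≤ 2 * √(N : ℝ) * Real.log N := h2
    _ ≤ 2 * √(N : ℝ) * (4 * (N : ℝ) ^ ((1 : ℝ) / 4)) :=
        mul_le_mul_of_nonneg_left h3 (by positivity)
    _ = 8 * (N : ℝ) ^ ((3 : ℝ) / 4) := by
        rw [Real.sqrt_eq_rpow]
        have : (N : ℝ) ^ ((3 : ℝ) / 4) = (N : ℝ) ^ ((1 : ℝ) / 2) * (N : ℝ) ^ ((1 : ℝ) / 4) := by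
          rw [← Real.rpow_add h0]
          norm_num
        rw [this]
        ring

theorem D_abel (N : ℕ) : D (N + 1) = Cn (N + 1) / ((N : ℝ) + 1) +
    ∑ n ∈ range N, Cn (n + 1) / (((n : ℝ) + 1) * ((n : ℝ) + 2)) := by
  induction N with
  | zero =>
    simp [D, Cn]
  | succ N ih =>
    have h1 : D (N + 1 + 1) = D (N + 1) + (if (N + 1 + 1).Prime then 0 else
        Λ (N + 1 + 1) / ((N + 1 + 1 : ℕ) : ℝ)) := by
      unfold D
      rw [Finset.sum_Ioc_succ_top (Nat.zero_le _)]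
    have h2 : Cn (N + 1 + 1) = Cn (N + 1) + (if (N + 1 + 1).Prime then 0 else
        Λ (N + 1 + 1)) := by
      unfold Cn
      rw [Finset.sum_Ioc_succ_top (Nat.zero_le _)]
    have h3 : (if (N + 1 + 1).Prime then 0 else Λ (N + 1 + 1) / ((N + 1 + 1 : ℕ) : ℝ)) =
        (Cn (N + 1 + 1) - Cn (N + 1)) / ((N : ℝ) + 2) := by
      rw [h2]
      push_cast
      split_ifs
      · simp
      · have e : (N : ℝ) + 1 + 1 = N + 2 := by ring
        rw [e]
        ring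
    rw [h1, h3, ih, Finset.sum_range_succ]
    push_cast
    have e1 : (N : ℝ) + 1 ≠ 0 := by positivity
    have e2 : (N : ℝ) + 2 ≠ 0 := by positivity
    have e3 : (N : ℝ) + 1 + 1 = N + 2 := by ring
    rw [e3]
    field_simp
    ring

theorem D_le : ∃ C : ℝ, ∀ N : ℕ, D N ≤ C := by
  have hs : Summable (fun n : ℕ => 8 * (n : ℝ) ^ (-(5 : ℝ) / 4)) :=
    (Real.summable_nat_rpow.2 (by norm_num)).mul_left 8
  refine ⟨8 + ∑' n : ℕ, 8 * (n : ℝ) ^ (-(5 : ℝ) / 4), fun N => ?_⟩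
  have hnn : ∀ n : ℕ, 0 ≤ 8 * (n : ℝ) ^ (-(5 : ℝ) / 4) := fun n => by positivity
  rcases Nat.eq_zero_or_pos N with h | h
  · subst h
    have : D 0 = 0 := by simp [D]
    rw [this]
    have h9 : 0 ≤ ∑' n : ℕ, 8 * (n : ℝ) ^ (-(5 : ℝ) / 4) := tsum_nonneg hnn
    linarith
  obtain ⟨M, rfl⟩ : ∃ M, N = M + 1 := ⟨N - 1, by omega⟩
  rw [D_abel]
  have h1 : Cn (M + 1) / ((M : ℝ) + 1) ≤ 8 := by
    have h0 : (1 : ℝ) ≤ (M : ℝ) + 1 := by
      have : (0 : ℝ) ≤ M := Nat.cast_nonneg M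
      linarith
    rw [div_le_iff₀ (by linarith)]
    have h2 := Cn_le (M + 1) (by omega)
    push_cast at h2
    have h3 : ((M : ℝ) + 1) ^ ((3 : ℝ) / 4) ≤ (M : ℝ) + 1 := by
      calc ((M : ℝ) + 1) ^ ((3 : ℝ) / 4) ≤ ((M : ℝ) + 1) ^ (1 : ℝ) :=
            Real.rpow_le_rpow_of_exponent_le h0 (by norm_num)
        _ = (M : ℝ) + 1 := Real.rpow_one _
    linarith
  have h2 : ∑ n ∈ range M, Cn (n + 1) / (((n : ℝ) + 1) * ((n : ℝ) + 2)) ≤
      ∑ n ∈ range M, 8 * ((n + 1 : ℕ) : ℝ) ^ (-(5 : ℝ) / 4) := by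
    refine Finset.sum_le_sum fun n _ => ?_
    have h0 : (0 : ℝ) < (n : ℝ) + 1 := by positivity
    have h3 := Cn_le (n + 1) (by omega)
    push_cast at h3 ⊢
    calc Cn (n + 1) / (((n : ℝ) + 1) * ((n : ℝ) + 2))
        ≤ 8 * ((n : ℝ) + 1) ^ ((3 : ℝ) / 4) / (((n : ℝ) + 1) * ((n : ℝ) + 2)) := by
          gcongr
      _ ≤ 8 * ((n : ℝ) + 1) ^ ((3 : ℝ) / 4) / (((n : ℝ) + 1) * ((n : ℝ) + 1)) := by
          gcongr
          norm_num
      _ = 8 * ((n : ℝ) + 1) ^ (-(5 : ℝ) / 4) := by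
          have e : ((n : ℝ) + 1) ^ (-(5 : ℝ) / 4) * (((n : ℝ) + 1) * ((n : ℝ) + 1)) =
              ((n : ℝ) + 1) ^ ((3 : ℝ) / 4) := by
            have e2 : ((n : ℝ) + 1) * ((n : ℝ) + 1) = ((n : ℝ) + 1) ^ (2 : ℝ) := by
              rw [Real.rpow_two]
              ring
            rw [e2, ← Real.rpow_add h0]
            norm_num
          rw [← e]
          field_simp
  have h3 : ∑ n ∈ range M, 8 * ((n + 1 : ℕ) : ℝ) ^ (-(5 : ℝ) / 4) ≤
      ∑' n : ℕ, 8 * (n : ℝ) ^ (-(5 : ℝ) / 4) := by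
    have h4 : ∑ n ∈ range M, 8 * ((n + 1 : ℕ) : ℝ) ^ (-(5 : ℝ) / 4) ≤
        ∑ n ∈ range (M + 1), 8 * (n : ℝ) ^ (-(5 : ℝ) / 4) := by
      rw [Finset.sum_range_succ']
      have := hnn 0
      linarith
    exact h4.trans (hs.sum_le_tsum _ fun n _ => hnn n)
  linarith

theorem D_nonneg (N : ℕ) : 0 ≤ D N := by
  refine Finset.sum_nonneg fun n _ => ?_
  split_ifs
  · exact le_rfl
  · exact div_nonneg ArithmeticFunction.vonMangoldt_nonneg (Nat.cast_nonneg _)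

theorem split (N : ℕ) : ∑ d ∈ Ioc 0 N, Λ d / (d : ℝ) =
    ∑ p ∈ (Ioc 0 N).filter Nat.Prime, Real.log p / (p : ℝ) + D N := by
  unfold D
  rw [Finset.sum_filter, ← Finset.sum_add_distrib]
  refine Finset.sum_congr rfl fun n _ => ?_
  by_cases h : n.Prime
  · rw [if_pos h, if_pos h, ArithmeticFunction.vonMangoldt_apply_prime h, add_zero]
  · rw [if_neg h, if_neg h, zero_add]

theorem log_floor {x : ℝ} (hx : 1 ≤ x) : Real.log ⌊x⌋₊ ≤ Real.log x ∧
    Real.log x ≤ Real.log ⌊x⌋₊ + 1 := by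
  have h1 : 1 ≤ ⌊x⌋₊ := Nat.le_floor (by exact_mod_cast hx)
  have h1' : (1 : ℝ) ≤ (⌊x⌋₊ : ℝ) := by exact_mod_cast h1
  have h2 : (⌊x⌋₊ : ℝ) ≤ x := Nat.floor_le (by linarith)
  have h3 : x < (⌊x⌋₊ : ℝ) + 1 := Nat.lt_floor_add_one x
  refine ⟨Real.log_le_log (by linarith) h2, ?_⟩
  have h4 : Real.log x ≤ Real.log (2 * (⌊x⌋₊ : ℝ)) :=
    Real.log_le_log (by linarith) (by linarith)
  rw [Real.log_mul (by norm_num) (by linarith)] at h4
  have h5 := Real.log_two_lt_d9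
  linarith

end IL5

open IL5 in
theorem prfL5 : claimL5 := by
  have hIcc : ∀ N : ℕ, Icc 1 N = Ioc 0 N := fun N => by
    ext n
    simp only [mem_Icc, mem_Ioc]
    omega
  constructor
  · refine ⟨Real.log 4 + 4 + 2, fun x hx => ?_⟩
    have h1 : 1 ≤ ⌊x⌋₊ := Nat.le_floor (by exact_mod_cast hx)
    obtain ⟨a1, a2⟩ := S1_bounds ⌊x⌋₊ h1
    obtain ⟨b1, b2⟩ := log_floor hx
    have h4 : 0 ≤ Real.log 4 := Real.log_nonneg (by norm_num)
    rw [hIcc, abs_le]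
    constructor <;> linarith
  · obtain ⟨C, hC⟩ := D_le
    refine ⟨Real.log 4 + 4 + 2 + C, fun x hx => ?_⟩
    have h1 : 1 ≤ ⌊x⌋₊ := Nat.le_floor (by exact_mod_cast hx)
    obtain ⟨a1, a2⟩ := S1_bounds ⌊x⌋₊ h1
    obtain ⟨b1, b2⟩ := log_floor hx
    have h4 : 0 ≤ Real.log 4 := Real.log_nonneg (by norm_num)
    have h5 := split ⌊x⌋₊
    have h6 := hC ⌊x⌋₊
    have h7 := D_nonneg ⌊x⌋₊
    rw [hIcc, abs_le]
    constructor <;> linarith

end Pool.Agent.Work.MP_122e00_nt.Two
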