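import Pool.Agent.Work.MP_122e00_nt.Two.Stmts

set_option autoImplicit false

/-!
# Shifted divisor sums with marks: the tail (many marks of small total size)
-/

namespace Pool.Agent.Work.MP_122e00_nt.Two

open Finset Filter Topology MeasureTheory

open scoped ArithmeticFunction.vonMangoldt ArithmeticFunction.zeta

/-- The structure function `all marks have total size < T`. -/
noncomputable def FT {s : ℕ} (k : ℕ) (T : ℝ) : (Fin k → ℝ) → (Fin (s + 1) → ℝ) → ℝ :=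
  fun x _ => if ∑ j, x j < T then 1 else 0

/-- The structure function `all marks but the last one have total size < T`. -/
noncomputable def FL {s : ℕ} (k : ℕ) (T : ℝ) : (Fin (k + 1) → ℝ) → (Fin (s + 1) → ℝ) → ℝ :=
  fun x _ => if ∑ j : Fin k, x (Fin.castSucc j) < T then 1 else 0

/-- U1: marks of total size `< T` as a divisor sum with the convolution powers of `Λ`. -/
def claimU1 : Prop := ∀ (s k n : ℕ) (L a T : ℝ), 0 < L → 0 < a → n ≠ 0 →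
    a ≤ Real.log n - T * L →
    TS L s k n (FT k T) ≤ (a⁻¹) ^ k * ∑ m ∈ n.divisors, if Real.log m < T * L then
      ((Λ ^ k : ArithmeticFunction ℝ) m) * (((ζ : ArithmeticFunction ℕ) ^ (s + 1)) (n / m) : ℝ)
      else 0

/-- U2: the last mark is summed out. -/
def claimU2 : Prop := ∀ (s k n : ℕ) (L T : ℝ), 0 < L → n ≠ 0 →
    TS L s (k + 1) n (FL k T) ≤ TS L s k n (FT k T) / (s + 1)

/-- U3: the convolution powers of `Λ`. -/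
def claimU3 : Prop := ∀ k m : ℕ, m ≠ 0 → 0 ≤ (Λ ^ k : ArithmeticFunction ℝ) m ∧
    (Λ ^ k : ArithmeticFunction ℝ) m ≤ (Real.log m) ^ k

/-- U4: `∑ Λ(d) d ^ (-1-σ)`. -/
def claimU4 : Prop := ∃ C : ℝ, 0 ≤ C ∧ ∀ (X σ : ℝ), 1 ≤ X → 0 < σ →
    ∑ d ∈ Finset.Icc 1 ⌊X⌋₊, Λ d / (d : ℝ) * (d : ℝ) ^ (-σ) ≤ 2 * (1 / σ + C)

/-- U5: Rankin's bound for the convolution powers of `Λ`. -/
def claimU5 : Prop := ∀ lam : ℝ, 1 ≤ lam → ∀ᶠ X : ℝ in atTop, ∀ k : ℕ,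
    ∑ m ∈ Finset.Icc 1 ⌊X⌋₊, (Λ ^ k : ArithmeticFunction ℝ) m / (m : ℝ) ≤
      Real.exp lam * (3 * Real.log X / lam) ^ k

/-- U6: the mean value of the divisor function, from above. -/
def claimU6 : Prop := ∀ (s : ℕ) (X : ℝ), 0 ≤ X →
    ∑ n ∈ Finset.Icc 1 ⌊X⌋₊, (((ζ : ArithmeticFunction ℕ) ^ (s + 1)) n : ℝ) ≤
      X * (∑ a ∈ Finset.Icc 1 ⌊X⌋₊, 1 / (a : ℝ)) ^ s

/-- U7: the tail in `k`. -/
def claimU7 : Prop := ∀ (s h : ℕ), 1 ≤ s → h ≠ 0 → ∀ θ : ℝ, 0 < θ → θ < 1 / 2 →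
    ∀ ψ : (Fin s → ℝ) → ℝ, Wt s θ ψ → ∀ M₀ : ℝ, 0 < M₀ → M₀ < 1 → ∀ C₀ : ℝ, 1 ≤ C₀ →
    ∃ c : ℝ, 0 < c ∧ ∀ ε : ℝ, 0 < ε → ∃ K : ℕ, ∀ᶠ X : ℝ in atTop, ∀ z : ℤ, z.natAbs = h →
    ∑ n ∈ Finset.Ioc ⌊X / Real.log X⌋₊ ⌊X⌋₊, Apsi ψ X z n *
      (∑ k ∈ Finset.Ioc K ⌊c * Real.log X⌋₊, C₀ ^ k * TS (Real.log X) s k n (FT k M₀)) ≤
      ε * (X * (Real.log X) ^ (2 * s))

/-- U8: the last tail. -/
def claimU8 : Prop := ∀ (s : ℕ) (M₀ : ℝ), 0 < M₀ → M₀ < 1 → ∀ c : ℝ, 0 < c →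
    ∃ δ : ℝ, 0 < δ ∧ ∀ᶠ X : ℝ in atTop,
    ∑ n ∈ Finset.Ioc ⌊X / Real.log X⌋₊ ⌊X⌋₊,
      TS (Real.log X) s ⌊c * Real.log X⌋₊ n (FT ⌊c * Real.log X⌋₊ M₀) ≤ X ^ (1 - δ)

/-- U9: the last tail times a divisor function at a shifted argument. -/
def claimU9 : Prop := ∀ (s h : ℕ) (M₀ : ℝ), 0 < M₀ → M₀ < 1 → ∀ c : ℝ, 0 < c → ∀ ε : ℝ, 0 < ε →
    ∀ᶠ X : ℝ in atTop, ∀ z : ℤ, z.natAbs = h →
    ∑ n ∈ Finset.Ioc ⌊X / Real.log X⌋₊ ⌊X⌋₊,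
      TS (Real.log X) s ⌊c * Real.log X⌋₊ n (FT ⌊c * Real.log X⌋₊ M₀) *
        (((ζ : ArithmeticFunction ℕ) ^ (s + 1)) ((n : ℤ) - z).toNat : ℝ) ≤ ε * X

end Pool.Agent.Work.MP_122e00_nt.Two
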