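import Pool.Agent.Work.MP_122e00_nt.Two.Stmts
import Pool.Agent.Work.MP_122e00_nt.Bd.B37
import Pool.Agent.Work.MP_122e00_nt.Bdx.B07

set_option autoImplicit false

/-!
# Item A1: one cube from below
-/

namespace Pool.Agent.Work.MP_122e00_nt.Two

open Finset Filter Topology MeasureTheory

open scoped ArithmeticFunction.vonMangoldt

namespace IA1

/-- regrouping of a sum according to the value of a function -/
theorem regroup {α : Type} (S : Finset α) (g : α → ℕ) (f : α → ℝ) (F : ℕ → ℝ) (M : ℕ)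
    (hg : ∀ x ∈ S, g x ∈ Finset.Icc 1 M) :
    ∑ m ∈ Finset.Icc 1 M, (∑ x ∈ S.filter (fun x => g x = m), f x) * F m =
      ∑ x ∈ S, f x * F (g x) := by
  rw [← Finset.sum_fiberwise_of_maps_to hg]
  apply Finset.sum_congr rfl
  intro m _
  rw [Finset.sum_mul]
  apply Finset.sum_congr rfl
  intro x hx
  rw [Finset.mem_filter] at hx
  rw [hx.2]

/-- the coefficients of `m` -/
noncomputable def bt {k s : ℕ} (αm βm : Fin k → ℝ) (αv βv : Fin s → ℝ) (X : ℝ) (m : ℕ) : ℝ :=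
  ∑ p ∈ (box αm βm X ×ˢ box αv βv X).filter (fun p => (∏ j, p.1 j) * ∏ i, p.2 i = m),
    ∏ j, Λ (p.1 j)

/-- the coefficients of `e` -/
noncomputable def wt {s : ℕ} (ψ : (Fin s → ℝ) → ℝ) (X : ℝ) (e : ℕ) : ℝ :=
  ∑ b ∈ ((tup s X).filter (fun b => ψ (lg X b) ≠ 0)).filter (fun b => ∏ i, b i = e), ψ (lg X b)

theorem bt_nonneg {k s : ℕ} (αm βm : Fin k → ℝ) (αv βv : Fin s → ℝ) (X : ℝ) (m : ℕ) :
    0 ≤ bt αm βm αv βv X m :=
  Finset.sum_nonneg fun _ _ => Finset.prod_nonneg fun _ _ =>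
    ArithmeticFunction.vonMangoldt_nonneg

theorem tup_pos {s : ℕ} {X : ℝ} {b : Fin s → ℕ} (hb : b ∈ tup s X) (i : Fin s) : 0 < b i := by
  unfold tup at hb
  rw [Fintype.mem_piFinset] at hb
  exact (Finset.mem_Icc.mp (hb i)).1

theorem tup_prod_le {s : ℕ} {X θ : ℝ} (hX : 1 < X) {b : Fin s → ℕ} (hb : b ∈ tup s X)
    (hsum : ∑ i, lg X b i ≤ 1 / 2 - θ) : ((∏ i, b i : ℕ) : ℝ) ≤ X ^ (1 / 2 - θ) := by
  have hX0 : 0 < X := by linarith
  have hlog : 0 < Real.log X := Real.log_pos hX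
  have hpos : ∀ i, (0 : ℝ) < b i := fun i => by exact_mod_cast tup_pos hb i
  have hprod : (0 : ℝ) < ((∏ i, b i : ℕ) : ℝ) := by
    push_cast
    exact Finset.prod_pos fun i _ => hpos i
  rw [← Real.log_le_log_iff hprod (by positivity), Real.log_rpow hX0]
  push_cast
  rw [Real.log_prod (fun i _ => (hpos i).ne')]
  have h1 : ∑ i, Real.log (b i) = (∑ i, lg X b i) * Real.log X := by
    unfold lg
    rw [Finset.sum_mul]
    apply Finset.sum_congr rfl
    intro i _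
    field_simp
  rw [h1]
  exact mul_le_mul_of_nonneg_right hsum hlog.le

theorem wt_nonneg {s : ℕ} {ψ : (Fin s → ℝ) → ℝ} (hψ : ∀ y, 0 ≤ ψ y) (X : ℝ) (e : ℕ) :
    0 ≤ wt ψ X e := Finset.sum_nonneg fun _ _ => hψ _

theorem wt_le {s : ℕ} {ψ : (Fin s → ℝ) → ℝ} {B : ℝ} (hB : ∀ y, ψ y ≤ B)
    (hB0 : 0 ≤ B) {X κ : ℝ} (hX : 1 < X)
    {θ : ℝ} (hθ : 0 < θ) (hsupp : ∀ y, ψ y ≠ 0 → ∑ i, y i ≤ 1 / 2 - θ)
    (hdiv : ∀ n : ℕ, n ≠ 0 → (n : ℝ) ≤ X → ((n.divisors.card : ℝ)) ^ s ≤ X ^ κ) (e : ℕ) :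
    wt ψ X e ≤ B * X ^ κ := by
  have hX0 : 0 < X := by linarith
  unfold wt
  set S := ((tup s X).filter (fun b => ψ (lg X b) ≠ 0)).filter (fun b => ∏ i, b i = e) with hS
  rcases S.eq_empty_or_nonempty with h0 | ⟨b, hb⟩
  · rw [h0, Finset.sum_empty]
    positivity
  · rw [hS, Finset.mem_filter, Finset.mem_filter] at hb
    obtain ⟨⟨hb1, hb2⟩, hb3⟩ := hb
    have he0 : e ≠ 0 := by
      rw [← hb3]
      exact (Finset.prod_pos fun i _ => tup_pos hb1 i).ne'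
    have heX : (e : ℝ) ≤ X := by
      rw [← hb3]
      refine (tup_prod_le (θ := θ) hX hb1 (hsupp _ hb2)).trans ?_
      calc X ^ (1 / 2 - θ) ≤ X ^ (1:ℝ) := Real.rpow_le_rpow_of_exponent_le hX.le (by linarith)
        _ = X := Real.rpow_one X
    have h1 : ∑ b ∈ S, ψ (lg X b) ≤ S.card • B := Finset.sum_le_card_nsmul _ _ _ fun b _ => hB _
    have h2 : S.card ≤ (e.divisors.card) ^ s := by
      refine le_trans ?_ (card_finMulAntidiag_le s e he0)
      apply Finset.card_le_card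
      intro b hb
      rw [hS, Finset.mem_filter] at hb
      rw [Nat.mem_finMulAntidiag]
      exact ⟨hb.2, he0⟩
    rw [nsmul_eq_mul] at h1
    have h3 : (S.card : ℝ) ≤ (e.divisors.card : ℝ) ^ s := by exact_mod_cast h2
    calc ∑ b ∈ S, ψ (lg X b) ≤ (S.card : ℝ) * B := h1
      _ ≤ X ^ κ * B := by
          apply mul_le_mul_of_nonneg_right (h3.trans (hdiv e he0 heX)) hB0
      _ = B * X ^ κ := by ring

/-- the product of a pair of tuples is small -/
theorem pair_prod_le {k s : ℕ} {αm βm : Fin k → ℝ} {αv βv : Fin s → ℝ} {X : ℝ} (hX : 0 < X)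
    {d : Fin k → ℕ} {a : Fin s → ℕ} (hd : d ∈ box αm βm X) (ha : a ∈ box αv βv X) :
    (((∏ j, d j) * ∏ i, a i : ℕ) : ℝ) ≤ X ^ (∑ j, βm j + ∑ i, βv i) := by
  rw [Real.rpow_add hX, Nat.cast_mul]
  exact mul_le_mul (prod_le_rpow_of_mem_box hX hd) (prod_le_rpow_of_mem_box hX ha)
    (by positivity) (by positivity)

theorem bt_le {k s : ℕ} {αm βm : Fin k → ℝ} {αv βv : Fin s → ℝ} {X κ : ℝ} (hX : 1 < X)
    (hσ : ∑ j, βm j + ∑ i, βv i ≤ 1)
    (hlog : (Real.log X) ^ k ≤ X ^ κ)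
    (hdiv : ∀ n : ℕ, n ≠ 0 → (n : ℝ) ≤ X → ((n.divisors.card : ℝ)) ^ (k + s) ≤ X ^ κ) (m : ℕ) :
    bt αm βm αv βv X m ≤ X ^ κ * X ^ κ := by
  have hX0 : 0 < X := by linarith
  have hL0 : 0 < Real.log X := Real.log_pos hX
  unfold bt
  set S := (box αm βm X ×ˢ box αv βv X).filter (fun p => (∏ j, p.1 j) * ∏ i, p.2 i = m) with hS
  rcases S.eq_empty_or_nonempty with h0 | ⟨p, hp⟩
  · rw [h0, Finset.sum_empty]
    positivity
  · rw [hS, Finset.mem_filter, Finset.mem_product] at hp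
    obtain ⟨⟨hp1, hp2⟩, hp3⟩ := hp
    have hm0 : m ≠ 0 := by
      rw [← hp3]
      exact (Nat.mul_pos (Finset.prod_pos fun i _ => pos_of_mem_box hp1 i)
        (Finset.prod_pos fun i _ => pos_of_mem_box hp2 i)).ne'
    have hmX : (m : ℝ) ≤ X := by
      rw [← hp3]
      refine (pair_prod_le hX0 hp1 hp2).trans ?_
      calc X ^ (∑ j, βm j + ∑ i, βv i) ≤ X ^ (1:ℝ) :=
            Real.rpow_le_rpow_of_exponent_le hX.le hσ
        _ = X := Real.rpow_one X
    have hdvd : ∀ q ∈ S, (∀ j, q.1 j ∣ m) ∧ (∀ i, q.2 i ∣ m) := by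
      intro q hq
      rw [hS, Finset.mem_filter] at hq
      constructor
      · intro j
        rw [← hq.2]
        exact Dvd.dvd.mul_right (Finset.dvd_prod_of_mem _ (Finset.mem_univ j)) _
      · intro i
        rw [← hq.2]
        exact Dvd.dvd.mul_left (Finset.dvd_prod_of_mem _ (Finset.mem_univ i)) _
    have h1 : ∑ q ∈ S, ∏ j, Λ (q.1 j) ≤ S.card • (Real.log X) ^ k := by
      apply Finset.sum_le_card_nsmul
      intro q hq
      calc ∏ j, Λ (q.1 j) ≤ ∏ _j : Fin k, Real.log X := by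
            apply Finset.prod_le_prod (fun _ _ => ArithmeticFunction.vonMangoldt_nonneg)
            intro j _
            refine ArithmeticFunction.vonMangoldt_le_log.trans ?_
            have hj := (hdvd q hq).1 j
            have hpos : 0 < q.1 j := Nat.pos_of_dvd_of_pos hj (Nat.pos_of_ne_zero hm0)
            apply Real.log_le_log (by exact_mod_cast hpos)
            refine le_trans ?_ hmX
            exact_mod_cast Nat.le_of_dvd (Nat.pos_of_ne_zero hm0) hj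
        _ = (Real.log X) ^ k := by simp
    have h2 : S.card ≤ (m.divisors.card) ^ (k + s) := by
      have h3 : S ⊆ (Fintype.piFinset (fun _ : Fin k => m.divisors)) ×ˢ
          (Fintype.piFinset (fun _ : Fin s => m.divisors)) := by
        intro q hq
        rw [Finset.mem_product, Fintype.mem_piFinset, Fintype.mem_piFinset]
        exact ⟨fun j => Nat.mem_divisors.mpr ⟨(hdvd q hq).1 j, hm0⟩,
          fun i => Nat.mem_divisors.mpr ⟨(hdvd q hq).2 i, hm0⟩⟩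
      refine (Finset.card_le_card h3).trans (le_of_eq ?_)
      rw [Finset.card_product, Fintype.card_piFinset, Fintype.card_piFinset]
      simp [pow_add]
    rw [nsmul_eq_mul] at h1
    have h3 : (S.card : ℝ) ≤ (m.divisors.card : ℝ) ^ (k + s) := by exact_mod_cast h2
    calc ∑ q ∈ S, ∏ j, Λ (q.1 j) ≤ (S.card : ℝ) * (Real.log X) ^ k := h1
      _ ≤ X ^ κ * X ^ κ := by
          apply mul_le_mul (h3.trans (hdiv m hm0 hmX)) hlog (by positivity) (by positivity)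

/-- `Apsi` in terms of `wt` -/
theorem Apsi_eq {s : ℕ} {ψ : (Fin s → ℝ) → ℝ} {X θ : ℝ} (hX : 1 < X)
    (hsupp : ∀ y, ψ y ≠ 0 → ∑ i, y i ≤ 1 / 2 - θ) (z : ℤ) (n : ℕ) :
    Apsi ψ X z n = ∑ e ∈ Finset.Icc 1 ⌊X ^ (1 / 2 - θ)⌋₊,
      if (e : ℤ) ∣ (n : ℤ) - z then wt ψ X e else 0 := by
  have h1 : ∀ e : ℕ, (if (e : ℤ) ∣ (n : ℤ) - z then wt ψ X e else 0) =
      wt ψ X e * (if (e : ℤ) ∣ (n : ℤ) - z then 1 else 0) := by
    intro e
    split_ifs <;> simp
  simp_rw [h1]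
  unfold wt
  have hg : ∀ b ∈ (tup s X).filter (fun b => ψ (lg X b) ≠ 0),
      ∏ i, b i ∈ Finset.Icc 1 ⌊X ^ (1 / 2 - θ)⌋₊ := by
    intro b hb
    rw [Finset.mem_filter] at hb
    rw [Finset.mem_Icc]
    refine ⟨Finset.prod_pos fun i _ => tup_pos hb.1 i, ?_⟩
    apply Nat.le_floor
    exact tup_prod_le hX hb.1 (hsupp _ hb.2)
  rw [regroup _ (fun b : Fin s → ℕ => ∏ i, b i) (fun b => ψ (lg X b))
    (fun e => if (e : ℤ) ∣ (n : ℤ) - z then 1 else 0) _ hg]
  unfold Apsi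
  rw [Finset.sum_filter]
  apply Finset.sum_congr rfl
  intro b _
  by_cases h0 : ψ (lg X b) = 0
  · simp [h0]
  · simp only [ne_eq, h0, not_false_eq_true, if_true]
    split_ifs <;> simp

/-- the sum over pairs of tuples in terms of `bt` -/
theorem bsum_eq {k s : ℕ} {αm βm : Fin k → ℝ} {αv βv : Fin s → ℝ} {X τ : ℝ} (hX : 1 < X)
    (hσ : ∑ j, βm j + ∑ i, βv i ≤ τ) (n : ℕ) :
    (∑ d ∈ box αm βm X, ∑ a ∈ box αv βv X,
        if (∏ j, d j) * ∏ i, a i ∣ n then ∏ j, Λ (d j) else 0) =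
      ∑ m ∈ Finset.Icc 1 ⌊X ^ τ⌋₊, if m ∣ n then bt αm βm αv βv X m else 0 := by
  have hX0 : 0 < X := by linarith
  have h1 : ∀ m : ℕ, (if m ∣ n then bt αm βm αv βv X m else 0) =
      bt αm βm αv βv X m * (if m ∣ n then 1 else 0) := by
    intro e
    split_ifs <;> simp
  simp_rw [h1]
  unfold bt
  have hg : ∀ p ∈ box αm βm X ×ˢ box αv βv X,
      (∏ j, p.1 j) * ∏ i, p.2 i ∈ Finset.Icc 1 ⌊X ^ τ⌋₊ := by
    intro p hp
    rw [Finset.mem_product] at hp
    rw [Finset.mem_Icc]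
    refine ⟨Nat.mul_pos (Finset.prod_pos fun i _ => pos_of_mem_box hp.1 i)
        (Finset.prod_pos fun i _ => pos_of_mem_box hp.2 i), ?_⟩
    apply Nat.le_floor
    exact (pair_prod_le hX0 hp.1 hp.2).trans (Real.rpow_le_rpow_of_exponent_le hX.le hσ)
  rw [regroup _ (fun p : (Fin k → ℕ) × (Fin s → ℕ) => (∏ j, p.1 j) * ∏ i, p.2 i)
    (fun p => ∏ j, Λ (p.1 j)) (fun m => if m ∣ n then 1 else 0) _ hg, Finset.sum_product]
  apply Finset.sum_congr rfl
  intro d _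
  apply Finset.sum_congr rfl
  intro a _
  split_ifs <;> simp

/-- the main term is the triple sum -/
theorem GM_eq {k s h : ℕ} {αm βm : Fin k → ℝ} {αv βv : Fin s → ℝ} {ψ : (Fin s → ℝ) → ℝ}
    {X τ θ : ℝ} (hX : 1 < X) (hσ : ∑ j, βm j + ∑ i, βv i ≤ τ)
    (hsupp : ∀ y, ψ y ≠ 0 → ∑ i, y i ≤ 1 / 2 - θ) :
    GM h (bt αm βm αv βv X) (wt ψ X) ⌊X ^ τ⌋₊ ⌊X ^ (1 / 2 - θ)⌋₊ =
      ∑ d ∈ box αm βm X, ∑ a ∈ box αv βv X, ∑ b ∈ tup s X,
        (∏ j, Λ (d j)) * ψ (lg X b) *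
        (Fh h (Nat.gcd ((∏ j, d j) * ∏ i, a i) (∏ i, b i)) *
          (((∏ j, (1 / (d j : ℝ))) * ∏ i, (1 / (a i : ℝ))) * (∏ i, (1 / (b i : ℝ))))) := by
  have hX0 : 0 < X := by linarith
  have hg : ∀ p ∈ box αm βm X ×ˢ box αv βv X,
      (∏ j, p.1 j) * ∏ i, p.2 i ∈ Finset.Icc 1 ⌊X ^ τ⌋₊ := by
    intro p hp
    rw [Finset.mem_product] at hp
    rw [Finset.mem_Icc]
    refine ⟨Nat.mul_pos (Finset.prod_pos fun i _ => pos_of_mem_box hp.1 i)
        (Finset.prod_pos fun i _ => pos_of_mem_box hp.2 i), ?_⟩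
    apply Nat.le_floor
    exact (pair_prod_le hX0 hp.1 hp.2).trans (Real.rpow_le_rpow_of_exponent_le hX.le hσ)
  have hg2 : ∀ b ∈ (tup s X).filter (fun b => ψ (lg X b) ≠ 0),
      ∏ i, b i ∈ Finset.Icc 1 ⌊X ^ (1 / 2 - θ)⌋₊ := by
    intro b hb
    rw [Finset.mem_filter] at hb
    rw [Finset.mem_Icc]
    refine ⟨Finset.prod_pos fun i _ => tup_pos hb.1 i, ?_⟩
    apply Nat.le_floor
    exact tup_prod_le hX hb.1 (hsupp _ hb.2)
  have hinner : ∀ m : ℕ, ∑ e ∈ Finset.Icc 1 ⌊X ^ (1 / 2 - θ)⌋₊,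
      bt αm βm αv βv X m * wt ψ X e * (Fh h (Nat.gcd m e) / (m * e)) =
      bt αm βm αv βv X m * ∑ b ∈ tup s X, ψ (lg X b) *
        (Fh h (Nat.gcd m (∏ i, b i)) / (m * ((∏ i, b i : ℕ) : ℝ))) := by
    intro m
    have e1 : ∑ e ∈ Finset.Icc 1 ⌊X ^ (1 / 2 - θ)⌋₊,
        bt αm βm αv βv X m * wt ψ X e * (Fh h (Nat.gcd m e) / (m * e)) =
        bt αm βm αv βv X m * ∑ e ∈ Finset.Icc 1 ⌊X ^ (1 / 2 - θ)⌋₊,
          wt ψ X e * (Fh h (Nat.gcd m e) / (m * e)) := by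
      rw [Finset.mul_sum]
      apply Finset.sum_congr rfl
      intro e _
      ring
    rw [e1]
    congr 1
    have e2 := regroup _ (fun b : Fin s → ℕ => ∏ i, b i) (fun b => ψ (lg X b))
      (fun e => Fh h (Nat.gcd m e) / (m * e)) _ hg2
    unfold wt
    rw [e2, Finset.sum_filter]
    apply Finset.sum_congr rfl
    intro b _
    by_cases h0 : ψ (lg X b) = 0
    · simp [h0]
    · simp [h0]
  unfold GM
  simp_rw [hinner]
  have e3 := regroup _ (fun p : (Fin k → ℕ) × (Fin s → ℕ) => (∏ j, p.1 j) * ∏ i, p.2 i)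
    (fun p => ∏ j, Λ (p.1 j)) (fun m => ∑ b ∈ tup s X, ψ (lg X b) *
        (Fh h (Nat.gcd m (∏ i, b i)) / (m * ((∏ i, b i : ℕ) : ℝ)))) _ hg
  unfold bt
  rw [e3, Finset.sum_product]
  apply Finset.sum_congr rfl
  intro d hd
  apply Finset.sum_congr rfl
  intro a ha
  rw [Finset.mul_sum]
  apply Finset.sum_congr rfl
  intro b hb
  have hd0 : ∀ j, ((d j : ℕ) : ℝ) ≠ 0 := fun j => by exact_mod_cast (pos_of_mem_box hd j).ne'
  have ha0 : ∀ j, ((a j : ℕ) : ℝ) ≠ 0 := fun j => by exact_mod_cast (pos_of_mem_box ha j).ne'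
  have hb0 : ∀ j, ((b j : ℕ) : ℝ) ≠ 0 := fun j => by exact_mod_cast (tup_pos hb j).ne'
  push_cast
  simp only [one_div, Finset.prod_inv_distrib]
  field_simp

end IA1

open IA1 in
theorem prfA1 : claimA1 := by
  intro hGC hMB hT4 s k h hs hh θ hθ hθ2 ψ hψ z hz αm βm αv βv hαm hαβm hαv hαβv hσ c hc
  classical
  have hβm0 : ∀ j, 0 ≤ βm j := fun j => (hαm j).le.trans (hαβm j)
  have hβv0 : ∀ j, 0 ≤ βv j := fun j => (hαv j).le.trans (hαβv j)
  set σ := ∑ j, βm j + ∑ i, βv i with hσdef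
  have hSm : 0 ≤ ∑ j, βm j := Finset.sum_nonneg fun j _ => hβm0 j
  have hSv : 0 ≤ ∑ j, βv j := Finset.sum_nonneg fun j _ => hβv0 j
  have hβm1 : ∀ j, βm j ≤ 1 := fun j => by
    have := Finset.single_le_sum (f := βm) (fun j _ => hβm0 j) (Finset.mem_univ j)
    linarith
  have hβv1 : ∀ j, βv j ≤ 1 := fun j => by
    have := Finset.single_le_sum (f := βv) (fun j _ => hβv0 j) (Finset.mem_univ j)
    linarith
  have hαsum : ∑ j, αm j ≤ ∑ j, βm j := Finset.sum_le_sum fun j _ => hαβm j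
  have hαsum1 : ∑ j, αm j < 1 := by linarith
  -- the constants
  set th := min θ (1 - σ) with hth
  have hth0 : 0 < th := lt_min hθ (by linarith)
  have hthθ : th ≤ θ := min_le_left _ _
  have hthσ : th ≤ 1 - σ := min_le_right _ _
  have hth2 : th ≤ 1 / 2 := by linarith
  set κ := th / 40 with hκdef
  have hκ : 0 < κ := by positivity
  obtain ⟨B0, hB0⟩ := hψ.bdd
  set B := max B0 1 with hBdef
  have hB : ∀ y, ψ y ≤ B := fun y => (hB0 y).trans (le_max_left _ _)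
  have hB1 : 1 ≤ B := le_max_right _ _
  have hsupp : ∀ y, ψ y ≠ 0 → ∑ i, y i ≤ 1 / 2 - th := fun y hy => by
    have := (hψ.supp y hy).2
    linarith
  set A := ∏ j : Fin k, (1 - ∑ i ∈ Finset.univ.filter (fun i : Fin k => i < j), αm i)⁻¹ with hA
  have hA1 : ∀ j : Fin k, 0 < 1 - ∑ i ∈ Finset.univ.filter (fun i : Fin k => i < j), αm i := by
    intro j
    have : ∑ i ∈ Finset.univ.filter (fun i : Fin k => i < j), αm i ≤ ∑ j, αm j :=
      Finset.sum_le_sum_of_subset_of_nonneg (Finset.filter_subset _ _) (fun i _ _ => (hαm i).le)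
    linarith
  have hA0 : 0 < A := Finset.prod_pos fun j _ => inv_pos.mpr (hA1 j)
  have hPeq : ∀ X : ℝ, (∏ j : Fin k, (Real.log X *
      (1 - ∑ i ∈ Finset.univ.filter (fun i : Fin k => i < j), αm i))⁻¹) =
      A * ((Real.log X) ^ k)⁻¹ := by
    intro X
    simp only [mul_inv]
    rw [Finset.prod_mul_distrib, mul_comm, Finset.prod_const, Finset.card_univ, Fintype.card_fin,
      inv_pow]
  -- nonnegativity of the summands
  have hnn : ∀ X : ℝ, 1 < X → ∀ n : ℕ, n ≠ 0 → (n : ℝ) ≤ X →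
      0 ≤ Apsi ψ X z n * TS (Real.log X) s k n (fun x v =>
        if (∀ j, αm j < x j ∧ x j ≤ βm j) ∧
        (∀ i : Fin s, αv i < v (Fin.castSucc i) ∧ v (Fin.castSucc i) ≤ βv i) then 1 else 0) := by
    intro X hX n hn hnX
    apply mul_nonneg
    · unfold Apsi
      apply Finset.sum_nonneg
      intro b _
      split_ifs
      · exact hψ.nonneg _
      · exact le_rfl
    · refine le_trans ?_ (hT4 s k n X hX hn hnX αm βm αv βv hαm hαsum1)
      rw [hPeq]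
      have hL : 0 < Real.log X := Real.log_pos hX
      apply mul_nonneg (by positivity)
      apply Finset.sum_nonneg
      intro d _
      apply Finset.sum_nonneg
      intro a _
      split_ifs
      · exact Finset.prod_nonneg fun j _ => ArithmeticFunction.vonMangoldt_nonneg
      · exact le_rfl
  set V := Csing s h * (((∏ j, (βm j - αm j)) * ∏ i, (βv i - αv i)) * ∫ y in O1 s, ψ y) with hV
  have hcV : c < A * V := by
    refine hc.trans_le (le_of_eq ?_)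
    rw [hV]
    ring
  rcases lt_or_ge c 0 with hc0 | hc0
  · -- trivial
    filter_upwards [eventually_gt_atTop 1] with X hX
    have hX0 : 0 < X := by linarith
    have h1 : 0 ≤ X * (Real.log X) ^ (2 * s) := by
      rw [pow_mul]
      positivity
    have h2 : c * (X * (Real.log X) ^ (2 * s)) ≤ 0 := mul_nonpos_of_nonpos_of_nonneg hc0.le h1
    refine h2.trans (Finset.sum_nonneg fun n hn => ?_)
    rw [Finset.mem_Ioc] at hn
    exact hnn X hX n (by omega) ((Nat.le_floor_iff hX0.le).mp hn.2)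
  have hVpos : 0 < V := by
    by_contra hcon
    push Not at hcon
    have : A * V ≤ 0 := mul_nonpos_of_nonneg_of_nonpos hA0.le hcon
    linarith
  obtain ⟨c', hc1, hc2⟩ : ∃ c', c / A < c' ∧ c' < V := by
    apply _root_.exists_between
    rw [div_lt_iff₀ hA0]
    linarith
  have hc'0 : 0 < c' := lt_of_le_of_lt (by positivity) hc1
  have hcA : c < A * c' := by
    rw [div_lt_iff₀ hA0] at hc1
    linarith
  obtain ⟨ε, hε0, hε1, hε2⟩ : ∃ ε : ℝ, 0 < ε ∧ ε ≤ 1 ∧ c ≤ (1 - ε) * (A * c') := by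
    refine ⟨min 1 ((A * c' - c) / (A * c')), ?_, min_le_left _ _, ?_⟩
    · apply lt_min one_pos
      apply div_pos (by linarith) (by positivity)
    · have h1 : min 1 ((A * c' - c) / (A * c')) ≤ (A * c' - c) / (A * c') := min_le_right _ _
      have h2 : min 1 ((A * c' - c) / (A * c')) * (A * c') ≤ A * c' - c := by
        rwa [← le_div_iff₀ (by positivity)]
      nlinarith
  set lam := 1 + ε / 2 with hlam
  set δ := ε / 4 with hδ
  have hlam1 : 1 < lam := by rw [hlam]; linarith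
  have hlam2 : lam ≤ 2 := by rw [hlam]; linarith
  have hδ0 : 0 < δ := by rw [hδ]; linarith
  have hδlam : δ * lam ≤ 1 := by
    have : δ ≤ 1 / 4 := by rw [hδ]; linarith
    nlinarith
  have hil : 1 - ε / 2 ≤ 1 / lam := by
    rw [le_div_iff₀ (by linarith)]
    rw [hlam]
    nlinarith
  obtain ⟨C, hC⟩ := hGC h th lam δ 1 hh hth0 hth2 hlam1 hlam2 hδ0.le hδlam le_rfl
  have hMB' := hMB s k h hh αm βm αv βv hαm hαβm hβm1 (fun i => (hαv i).le) hαβv hβv1 ψ B
    hψ.nonneg hB hψ.cont c' hc2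
  have hlogk : ∀ᶠ X : ℝ in atTop, (Real.log X) ^ k ≤ X ^ (κ / 2) := by
    have h1 := eventually_log_le 1 0 (show (0:ℝ) < κ / 2 / (k + 1) by positivity)
    filter_upwards [h1, eventually_ge_atTop 1] with X hX hX1
    have hX0 : 0 < X := by linarith
    have hL0 : 0 ≤ Real.log X := Real.log_nonneg hX1
    rw [one_mul, add_zero] at hX
    calc (Real.log X) ^ k ≤ (X ^ (κ / 2 / (k + 1))) ^ k := by gcongr
      _ = X ^ (κ / 2 / (k + 1) * k) := by
          rw [← Real.rpow_natCast, ← Real.rpow_mul hX0.le]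
      _ ≤ X ^ (κ / 2) := by
          apply Real.rpow_le_rpow_of_exponent_le hX1
          rw [div_mul_eq_mul_div, div_le_iff₀ (by positivity)]
          have : (0:ℝ) ≤ k := Nat.cast_nonneg k
          nlinarith
  have hCX : ∀ᶠ X : ℝ in atTop, |C| ≤ (ε / 4 * c') * X ^ κ := by
    have h1 := (tendsto_rpow_atTop hκ).eventually_ge_atTop (|C| / (ε / 4 * c'))
    filter_upwards [h1] with X hX
    rw [div_le_iff₀ (by positivity)] at hX
    linarith
  have hκ2 : (0:ℝ) < κ / 2 := by positivity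
  have hκ4 : (0:ℝ) < κ / 2 / 2 := by positivity
  have hBX : ∀ᶠ X : ℝ in atTop, B ≤ X ^ (κ / 2) :=
    (tendsto_rpow_atTop hκ2).eventually_ge_atTop B
  have hLog : ∀ᶠ X : ℝ in atTop, max 1 (1 / δ) ≤ Real.log X :=
    Real.tendsto_log_atTop.eventually_ge_atTop _
  filter_upwards [hC, hMB', hlogk, hCX, hBX, hLog, divisor_bound (k + s) hκ2,
    divisor_bound s hκ2, eventually_gt_atTop 1] with X hGCX hMBX hlogkX hCXX hBXX hLogX hdivk hdivs
    hX
  have hX0 : 0 < X := by linarith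
  have hL1 : 1 ≤ Real.log X := (le_max_left _ _).trans hLogX
  have hLδ : 1 / δ ≤ Real.log X := (le_max_right _ _).trans hLogX
  have hL0 : 0 < Real.log X := by linarith
  set L := Real.log X with hLdef
  have hσ1 : σ ≤ 1 - th := by linarith
  have hκκ : X ^ (κ / 2) * X ^ (κ / 2) = X ^ κ := by
    rw [← Real.rpow_add hX0]
    congr 1
    ring
  -- the count
  have hG := (hGCX (bt αm βm αv βv X) (wt ψ X) (bt_nonneg _ _ _ _ X)
    (fun m => (bt_le hX (by linarith) hlogkX hdivk m).trans (le_of_eq hκκ))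
    (wt_nonneg hψ.nonneg X)
    (fun e => by
      refine (wt_le hB (by linarith) hX hth0 hsupp hdivs e).trans ?_
      rw [← hκκ]
      gcongr) z hz).1
  rw [GM_eq hX hσ1 hsupp] at hG
  set G := (∑ d ∈ box αm βm X, ∑ a ∈ box αv βv X, ∑ b ∈ tup s X,
        (∏ j, Λ (d j)) * ψ (lg X b) *
        (Fh h (Nat.gcd ((∏ j, d j) * ∏ i, a i) (∏ i, b i)) *
          (((∏ j, (1 / (d j : ℝ))) * ∏ i, (1 / (a i : ℝ))) * (∏ i, (1 / (b i : ℝ))))) : ℝ) with hGdef
  -- from the structure sums to `GC`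
  have hfl : ⌊X / L⌋₊ ≤ ⌊δ * X⌋₊ := by
    apply Nat.floor_mono
    rw [div_le_iff₀ hL0]
    have : 1 ≤ δ * L := by
      rw [div_le_iff₀ hδ0] at hLδ
      linarith
    nlinarith
  have hsub : Finset.Ioc ⌊δ * X⌋₊ ⌊X⌋₊ ⊆ Finset.Ioc ⌊X / L⌋₊ ⌊X⌋₊ :=
    Finset.Ioc_subset_Ioc hfl le_rfl
  have hmain : A * (L ^ k)⁻¹ * GC (bt αm βm αv βv X) (wt ψ X) ⌊δ * X⌋₊ ⌊1 * X⌋₊
      ⌊X ^ (1 - th)⌋₊ ⌊X ^ (1 / 2 - th)⌋₊ z ≤
      ∑ n ∈ Finset.Ioc ⌊X / L⌋₊ ⌊X⌋₊, Apsi ψ X z n *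
        TS L s k n (fun x v => if (∀ j, αm j < x j ∧ x j ≤ βm j) ∧
          (∀ i : Fin s, αv i < v (Fin.castSucc i) ∧ v (Fin.castSucc i) ≤ βv i) then 1 else 0) := by
    rw [one_mul]
    calc _ ≤ ∑ n ∈ Finset.Ioc ⌊δ * X⌋₊ ⌊X⌋₊, Apsi ψ X z n *
        TS L s k n (fun x v => if (∀ j, αm j < x j ∧ x j ≤ βm j) ∧
          (∀ i : Fin s, αv i < v (Fin.castSucc i) ∧ v (Fin.castSucc i) ≤ βv i) then 1 else 0) := by
          unfold GC
          rw [Finset.mul_sum]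
          apply Finset.sum_le_sum
          intro n hn
          rw [Finset.mem_Ioc] at hn
          have hn0 : n ≠ 0 := by omega
          have hnX : (n : ℝ) ≤ X := (Nat.le_floor_iff hX0.le).mp hn.2
          rw [← Apsi_eq hX hsupp z n, ← bsum_eq hX hσ1 n]
          have h4 := hT4 s k n X hX hn0 hnX αm βm αv βv hαm hαsum1
          rw [hPeq] at h4
          have hAp : 0 ≤ Apsi ψ X z n := by
            unfold Apsi
            apply Finset.sum_nonneg
            intro b _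
            split_ifs
            · exact hψ.nonneg _
            · exact le_rfl
          calc _ = Apsi ψ X z n * (A * (L ^ k)⁻¹ * (∑ d ∈ box αm βm X, ∑ a ∈ box αv βv X,
                if (∏ j, d j) * ∏ i, a i ∣ n then ∏ j, Λ (d j) else 0)) := by ring
            _ ≤ _ := mul_le_mul_of_nonneg_left h4 hAp
      _ ≤ _ := by
          apply Finset.sum_le_sum_of_subset_of_nonneg hsub
          intro n hn _
          rw [Finset.mem_Ioc] at hn
          exact hnn X hX n (by omega) ((Nat.le_floor_iff hX0.le).mp hn.2)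
  refine le_trans ?_ hmain
  have hk0 : 0 < L ^ k := by positivity
  have hkinv : 0 < A * (L ^ k)⁻¹ := by positivity
  have hrem : C * (X / X ^ κ) ≤ (ε / 4 * c') * X := by
    have hXκ : 0 < X ^ κ := by positivity
    rw [mul_div_assoc', div_le_iff₀ hXκ]
    calc C * X ≤ |C| * X := by gcongr; exact le_abs_self C
      _ ≤ ((ε / 4 * c') * X ^ κ) * X := by gcongr
      _ = _ := by ring
  have hX2 : (ε / 4 * c') * X ≤ (ε / 4 * c') * X * L ^ (k + 2 * s) := by
    have h1 : 1 ≤ L ^ (k + 2 * s) := one_le_pow₀ hL1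
    have h2 : 0 ≤ (ε / 4 * c') * X := by positivity
    nlinarith
  have hfac : 1 - 3 * ε / 4 ≤ 1 / lam - δ := by
    rw [hδ]
    linarith
  have hfac0 : 0 ≤ 1 - 3 * ε / 4 := by linarith
  have hGlow : (1 - ε) * c' * X * L ^ (k + 2 * s) ≤
      (1 / lam - δ) * X * G - C * (X / X ^ κ) := by
    have h1 : (1 - 3 * ε / 4) * X * (c' * L ^ (k + 2 * s)) ≤ (1 / lam - δ) * X * G :=
      mul_le_mul (mul_le_mul_of_nonneg_right hfac hX0.le) hMBX (by positivity)
        (mul_nonneg (hfac0.trans hfac) hX0.le)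
    calc (1 - ε) * c' * X * L ^ (k + 2 * s) = (1 - 3 * ε / 4) * X * (c' * L ^ (k + 2 * s)) -
          (ε / 4 * c') * X * L ^ (k + 2 * s) := by ring
      _ ≤ _ := by linarith
  calc c * (X * L ^ (2 * s)) ≤ ((1 - ε) * (A * c')) * (X * L ^ (2 * s)) := by gcongr
    _ = A * (L ^ k)⁻¹ * ((1 - ε) * c' * X * L ^ (k + 2 * s)) := by
        rw [pow_add]
        field_simp
    _ ≤ A * (L ^ k)⁻¹ * ((1 / lam - δ) * X * G - C * (X / X ^ κ)) := by gcongr
    _ ≤ _ := by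
        apply mul_le_mul_of_nonneg_left _ hkinv.le
        exact hG

end Pool.Agent.Work.MP_122e00_nt.Two
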