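import Pool.Agent.Work.MP_122e00_nt.Two.Stmts

set_option autoImplicit false
set_option linter.unusedSectionVars false

/-!
# Item L1: the abstract Darboux lemma
-/

namespace Pool.Agent.Work.MP_122e00_nt.Two

open Finset Filter Topology MeasureTheory

namespace IL1

variable {ι : Type} [Fintype ι]

open Classical in
/-- the grid cubes inside `Ω` -/
noncomputable def MN (Ω : Set (ι → ℝ)) (N : ℕ) : Finset (ι → ℕ) :=
  (Fintype.piFinset fun _ => Finset.Icc 1 N).filter fun m => ccube N m ⊆ Ω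

/-- the infimum of `H` near a grid cube -/
noncomputable def IN (H : (ι → ℝ) × ℝ → ℝ) (l : (ι → ℝ) → ℝ) (N : ℕ) (m : ι → ℕ) : ℝ :=
  sInf (H '' {p | p.1 ∈ gcube N m ∧ |p.2 - l p.1| ≤ 1 / N})

/-- the infimum of `ρ` on a closed grid cube -/
noncomputable def rN (ρ : (ι → ℝ) → ℝ) (N : ℕ) (m : ι → ℕ) : ℝ := sInf (ρ '' ccube N m)

/-- the lower Darboux sum as a function -/
noncomputable def gN (Ω : Set (ι → ℝ)) (ρ l : (ι → ℝ) → ℝ) (H : (ι → ℝ) × ℝ → ℝ) (N : ℕ)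
    (y : ι → ℝ) : ℝ :=
  ∑ m ∈ MN Ω N, (IN H l N m * rN ρ N m) * (gcube N m).indicator (fun _ => 1) y

theorem mem_MN (Ω : Set (ι → ℝ)) (N : ℕ) (m : ι → ℕ) :
    m ∈ MN Ω N ↔ (∀ i, 1 ≤ m i ∧ m i ≤ N) ∧ ccube N m ⊆ Ω := by
  classical
  unfold MN
  rw [Finset.mem_filter, Fintype.mem_piFinset]
  simp only [Finset.mem_Icc]

theorem gcube_sub_ccube (N : ℕ) (m : ι → ℕ) : gcube N m ⊆ ccube N m :=
  fun _ hy i => ⟨(hy i).1.le, (hy i).2⟩

theorem ccube_corner (N : ℕ) (m : ι → ℕ) : (fun i => (m i : ℝ) / N) ∈ ccube N m := by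
  intro i
  refine ⟨?_, le_rfl⟩
  exact div_le_div_of_nonneg_right (by linarith) (Nat.cast_nonneg N)

theorem gcube_corner (N : ℕ) (hN : 0 < N) (m : ι → ℕ) : (fun i => (m i : ℝ) / N) ∈ gcube N m := by
  intro i
  have hN' : (0 : ℝ) < N := by exact_mod_cast hN
  exact ⟨div_lt_div_of_pos_right (by linarith) hN', le_rfl⟩

theorem gcube_unique {N : ℕ} (hN : 0 < N) {m m' : ι → ℕ} {y : ι → ℝ} (h : y ∈ gcube N m)
    (h' : y ∈ gcube N m') : m = m' := by
  have hN' : (0 : ℝ) < N := by exact_mod_cast hN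
  have key : ∀ {a b : ι → ℕ}, y ∈ gcube N a → y ∈ gcube N b → ∀ i, a i ≤ b i := by
    intro a b ha hb i
    have h1 := (ha i).1.trans_le (hb i).2
    rw [div_lt_div_iff_of_pos_right hN'] at h1
    have h2 : (a i : ℝ) < (b i + 1 : ℕ) := by push_cast; linarith
    exact Nat.lt_succ_iff.mp (by exact_mod_cast h2)
  funext i
  exact le_antisymm (key h h' i) (key h' h i)

theorem IN_nonneg {H : (ι → ℝ) × ℝ → ℝ} (hH : ∀ p, 0 ≤ H p) (l : (ι → ℝ) → ℝ) (N : ℕ)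
    (m : ι → ℕ) : 0 ≤ IN H l N m := by
  apply Real.sInf_nonneg
  rintro _ ⟨p, -, rfl⟩
  exact hH p

theorem IN_le {H : (ι → ℝ) × ℝ → ℝ} (hH : ∀ p, 0 ≤ H p) (l : (ι → ℝ) → ℝ) (N : ℕ)
    (m : ι → ℕ) (p : (ι → ℝ) × ℝ) (h1 : p.1 ∈ gcube N m) (h2 : |p.2 - l p.1| ≤ 1 / N) :
    IN H l N m ≤ H p := by
  apply csInf_le
  · exact ⟨0, by rintro _ ⟨p, -, rfl⟩; exact hH p⟩
  · exact ⟨p, ⟨h1, h2⟩, rfl⟩

theorem le_IN {H : (ι → ℝ) × ℝ → ℝ} (l : (ι → ℝ) → ℝ) (N : ℕ) (hN : 0 < N)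
    (m : ι → ℕ) (a : ℝ) (h : ∀ p : (ι → ℝ) × ℝ, p.1 ∈ gcube N m → |p.2 - l p.1| ≤ 1 / N →
      a ≤ H p) : a ≤ IN H l N m := by
  apply le_csInf
  · refine ⟨_, ⟨(fun i => (m i : ℝ) / N, l (fun i => (m i : ℝ) / N)),
      ⟨gcube_corner N hN m, ?_⟩, rfl⟩⟩
    simp
  · rintro _ ⟨p, ⟨h1, h2⟩, rfl⟩
    exact h p h1 h2

theorem rN_nonneg {Ω : Set (ι → ℝ)} {ρ : (ι → ℝ) → ℝ} (hρ : ∀ y ∈ Ω, 0 ≤ ρ y) (N : ℕ)
    (m : ι → ℕ) (hm : ccube N m ⊆ Ω) : 0 ≤ rN ρ N m := by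
  apply Real.sInf_nonneg
  rintro _ ⟨y, hy, rfl⟩
  exact hρ y (hm hy)

theorem rN_le {Ω : Set (ι → ℝ)} {ρ : (ι → ℝ) → ℝ} (hρ : ∀ y ∈ Ω, 0 ≤ ρ y) (N : ℕ)
    (m : ι → ℕ) (hm : ccube N m ⊆ Ω) (y : ι → ℝ) (hy : y ∈ ccube N m) : rN ρ N m ≤ ρ y := by
  apply csInf_le
  · exact ⟨0, by rintro _ ⟨y, hy, rfl⟩; exact hρ y (hm hy)⟩
  · exact ⟨y, hy, rfl⟩

theorem le_rN {ρ : (ι → ℝ) → ℝ} (N : ℕ) (m : ι → ℕ) (a : ℝ) (h : ∀ y ∈ ccube N m, a ≤ ρ y) :
    a ≤ rN ρ N m := by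
  apply le_csInf
  · exact ⟨_, ⟨_, ccube_corner N m, rfl⟩⟩
  · rintro _ ⟨y, hy, rfl⟩
    exact h y hy

theorem gN_of_mem {Ω : Set (ι → ℝ)} {ρ l : (ι → ℝ) → ℝ} {H : (ι → ℝ) × ℝ → ℝ} {N : ℕ}
    (hN : 0 < N) {m : ι → ℕ} (hm : m ∈ MN Ω N) {y : ι → ℝ} (hy : y ∈ gcube N m) :
    gN Ω ρ l H N y = IN H l N m * rN ρ N m := by
  unfold gN
  rw [Finset.sum_eq_single m]
  · rw [Set.indicator_of_mem hy, mul_one]
  · intro b _ hb
    rw [Set.indicator_of_notMem, mul_zero]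
    intro h
    exact hb (gcube_unique hN h hy)
  · intro h
    exact absurd hm h

theorem gN_of_not_mem {Ω : Set (ι → ℝ)} {ρ l : (ι → ℝ) → ℝ} {H : (ι → ℝ) × ℝ → ℝ} {N : ℕ}
    {y : ι → ℝ} (hy : ∀ m ∈ MN Ω N, y ∉ gcube N m) : gN Ω ρ l H N y = 0 := by
  unfold gN
  apply Finset.sum_eq_zero
  intro m hm
  rw [Set.indicator_of_notMem (hy m hm), mul_zero]

theorem gN_nonneg {Ω : Set (ι → ℝ)} {ρ l : (ι → ℝ) → ℝ} {H : (ι → ℝ) × ℝ → ℝ}
    (hρ : ∀ y ∈ Ω, 0 ≤ ρ y) (hH : ∀ p, 0 ≤ H p) (N : ℕ) (y : ι → ℝ) :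
    0 ≤ gN Ω ρ l H N y := by
  unfold gN
  apply Finset.sum_nonneg
  intro m hm
  rw [mem_MN] at hm
  exact mul_nonneg (mul_nonneg (IN_nonneg hH l N m) (rN_nonneg hρ N m hm.2))
    (Set.indicator_nonneg (fun _ _ => zero_le_one) _)

theorem gN_le {Ω : Set (ι → ℝ)} {ρ l : (ι → ℝ) → ℝ} {H : (ι → ℝ) × ℝ → ℝ} {M : ℝ}
    (hρ : ∀ y ∈ Ω, 0 ≤ ρ y) (hH : ∀ p, 0 ≤ H p) (hM : ∀ p, H p ≤ M) {N : ℕ} (hN : 0 < N)
    {y : ι → ℝ} (hy : y ∈ Ω) : gN Ω ρ l H N y ≤ M * ρ y := by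
  by_cases h : ∃ m ∈ MN Ω N, y ∈ gcube N m
  · obtain ⟨m, hm, hym⟩ := h
    rw [gN_of_mem hN hm hym]
    rw [mem_MN] at hm
    have h1 : IN H l N m ≤ M :=
      (IN_le hH l N m (y, l y) hym (by simp)).trans (hM _)
    have h2 := rN_le hρ N m hm.2 y (gcube_sub_ccube N m hym)
    have h3 := rN_nonneg hρ N m hm.2
    exact mul_le_mul h1 h2 h3 ((IN_nonneg hH l N m).trans h1)
  · push Not at h
    rw [gN_of_not_mem h]
    exact mul_nonneg ((hH (y, l y)).trans (hM _)) (hρ y hy)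

theorem gcube_eq_pi (N : ℕ) (m : ι → ℕ) :
    gcube N m = Set.pi Set.univ fun i => Set.Ioc (((m i : ℝ) - 1) / N) ((m i : ℝ) / N) := by
  ext y
  simp [gcube, Set.mem_pi]

theorem measurableSet_gcube (N : ℕ) (m : ι → ℕ) : MeasurableSet (gcube N m) := by
  rw [gcube_eq_pi]
  exact MeasurableSet.univ_pi fun i => measurableSet_Ioc

theorem volume_gcube {N : ℕ} (hN : 0 < N) (m : ι → ℕ) :
    (volume (gcube N m)).toReal = (1 / (N : ℝ)) ^ Fintype.card ι := by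
  have hN' : (0 : ℝ) < N := by exact_mod_cast hN
  rw [gcube_eq_pi, Real.volume_pi_Ioc_toReal]
  · have : ∀ i, (m i : ℝ) / N - ((m i : ℝ) - 1) / N = 1 / N := by
      intro i
      ring
    simp only [this, prod_const, card_univ]
  · intro i
    exact div_le_div_of_nonneg_right (by linarith) hN'.le

theorem measurable_gN (Ω : Set (ι → ℝ)) (ρ l : (ι → ℝ) → ℝ) (H : (ι → ℝ) × ℝ → ℝ) (N : ℕ) :
    Measurable (gN Ω ρ l H N) := by
  unfold gN
  apply Finset.measurable_sum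
  intro m _
  exact (measurable_const.indicator (measurableSet_gcube N m)).const_mul _

theorem integral_gN {Ω : Set (ι → ℝ)} (ρ l : (ι → ℝ) → ℝ) (H : (ι → ℝ) × ℝ → ℝ) {N : ℕ}
    (hN : 0 < N) :
    ∫ y in Ω, gN Ω ρ l H N y =
      ∑ m ∈ MN Ω N, (IN H l N m * rN ρ N m) * (1 / (N : ℝ)) ^ Fintype.card ι := by
  unfold gN
  have hvol : ∀ m, volume (gcube N m : Set (ι → ℝ)) ≠ ⊤ := by
    intro m
    rw [gcube_eq_pi, Real.volume_pi_Ioc]
    exact ENNReal.prod_ne_top fun i _ => ENNReal.ofReal_ne_top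
  rw [integral_finsetSum]
  · apply Finset.sum_congr rfl
    intro m hm
    rw [mem_MN] at hm
    rw [integral_const_mul]
    congr 1
    have h1 : (fun y => (gcube N m).indicator (fun _ => (1 : ℝ)) y) =
        (gcube N m).indicator 1 := rfl
    rw [h1, integral_indicator_one (measurableSet_gcube N m), Measure.real,
      Measure.restrict_apply (measurableSet_gcube N m),
      Set.inter_eq_left.mpr ((gcube_sub_ccube N m).trans hm.2), volume_gcube hN]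
  · intro m _
    apply Integrable.const_mul
    apply (integrable_indicator_iff (measurableSet_gcube N m)).mpr
    exact integrableOn_const ((Measure.restrict_apply_le _ _).trans_lt (hvol m).lt_top).ne
      (by simp)

theorem ev_small {δ : ℝ} (hδ : 0 < δ) : ∀ᶠ N : ℕ in atTop, 1 / (N : ℝ) < δ ∧ 0 < N :=
  (tendsto_one_div_atTop_nhds_zero_nat.eventually (gt_mem_nhds hδ)).and (eventually_gt_atTop 0)

/-- the index of the cube which contains `y` -/
noncomputable def ix (y : ι → ℝ) (N : ℕ) : ι → ℕ := fun i => ⌈N * y i⌉₊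

theorem mem_ix {y : ι → ℝ} (hy : ∀ i, y i ∈ Set.Ioo (0 : ℝ) 1) {N : ℕ} (hN : 0 < N) :
    y ∈ gcube N (ix y N) := by
  have hN' : (0 : ℝ) < N := by exact_mod_cast hN
  intro i
  unfold ix
  rw [div_lt_iff₀ hN', le_div_iff₀ hN', mul_comm (y i)]
  refine ⟨?_, Nat.le_ceil _⟩
  have := Nat.ceil_lt_add_one (mul_pos hN' (hy i).1).le
  linarith

theorem ix_le {y : ι → ℝ} (hy : ∀ i, y i ∈ Set.Ioo (0 : ℝ) 1) {N : ℕ} (hN : 0 < N) (i : ι) :
    1 ≤ ix y N i ∧ ix y N i ≤ N := by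
  have hN' : (0 : ℝ) < N := by exact_mod_cast hN
  unfold ix
  constructor
  · exact Nat.one_le_iff_ne_zero.mpr (Nat.ceil_pos.mpr (mul_pos hN' (hy i).1)).ne'
  · rw [Nat.ceil_le]
    nlinarith [(hy i).2]

theorem dist_le_of_mem {N : ℕ} {m : ι → ℕ} {y y' : ι → ℝ} (h : y ∈ ccube N m)
    (h' : y' ∈ ccube N m) : dist y' y ≤ 1 / N := by
  rw [dist_pi_le_iff (by positivity)]
  intro i
  have h1 := h i
  have h2 := h' i
  have h3 : (m i : ℝ) / N - ((m i : ℝ) - 1) / N = 1 / N := by ring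
  rw [Real.dist_eq, abs_le]
  constructor <;> linarith [h1.1, h1.2, h2.1, h2.2]

theorem tendsto_rN {Ω : Set (ι → ℝ)} {ρ : (ι → ℝ) → ℝ} (hΩ : IsOpen Ω)
    (hΩ1 : ∀ y ∈ Ω, ∀ i, y i ∈ Set.Ioo (0 : ℝ) 1) (hρc : ContinuousOn ρ Ω)
    (hρ : ∀ y ∈ Ω, 0 ≤ ρ y) {y : ι → ℝ} (hy : y ∈ Ω) :
    (∀ᶠ N : ℕ in atTop, ix y N ∈ MN Ω N) ∧
      Tendsto (fun N : ℕ => rN ρ N (ix y N)) atTop (𝓝 (ρ y)) := by
  have hΩy : Ω ∈ 𝓝 y := hΩ.mem_nhds hy
  have hev : ∀ U ∈ 𝓝 y, ∀ᶠ N : ℕ in atTop, ccube N (ix y N) ⊆ U := by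
    intro U hU
    obtain ⟨δ, hδ, hδU⟩ := Metric.mem_nhds_iff.mp hU
    filter_upwards [ev_small hδ] with N hN y' hy'
    apply hδU
    rw [Metric.mem_ball]
    exact (dist_le_of_mem (gcube_sub_ccube _ _ (mem_ix (hΩ1 y hy) hN.2)) hy').trans_lt hN.1
  have hev1 : ∀ᶠ N : ℕ in atTop, ix y N ∈ MN Ω N := by
    filter_upwards [hev Ω hΩy, eventually_gt_atTop 0] with N h1 h2
    rw [mem_MN]
    exact ⟨fun i => ix_le (hΩ1 y hy) h2 i, h1⟩
  refine ⟨hev1, ?_⟩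
  rw [tendsto_order]
  constructor
  · intro a ha
    obtain ⟨a', ha', ha''⟩ := exists_between ha
    have hU : {y' | a' < ρ y'} ∈ 𝓝 y := (hρc.continuousAt hΩy).eventually (lt_mem_nhds ha'')
    filter_upwards [hev _ hU] with N h1
    exact ha'.trans_le (le_rN N _ a' fun y' hy' => (h1 hy').le)
  · intro a ha
    filter_upwards [hev1, eventually_gt_atTop 0] with N h1 h2
    rw [mem_MN] at h1
    exact (rN_le hρ N _ h1.2 y (gcube_sub_ccube _ _ (mem_ix (hΩ1 y hy) h2))).trans_lt ha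

theorem tendsto_IN {l : (ι → ℝ) → ℝ} (hl : Continuous l) {H : (ι → ℝ) × ℝ → ℝ}
    (hH : ∀ p, 0 ≤ H p) {y : ι → ℝ} (hy : ∀ i, y i ∈ Set.Ioo (0 : ℝ) 1)
    (hc : ContinuousAt H (y, l y)) :
    Tendsto (fun N : ℕ => IN H l N (ix y N)) atTop (𝓝 (H (y, l y))) := by
  rw [tendsto_order]
  constructor
  · intro a ha
    obtain ⟨a', ha', ha''⟩ := exists_between ha
    have hU : {p | a' < H p} ∈ 𝓝 (y, l y) := hc.eventually (lt_mem_nhds ha'')
    obtain ⟨δ, hδ, hδU⟩ := Metric.mem_nhds_iff.mp hU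
    obtain ⟨δ', hδ', hl'⟩ := Metric.continuousAt_iff.mp hl.continuousAt (δ / 2) (half_pos hδ)
    filter_upwards [ev_small (half_pos hδ), ev_small hδ'] with N h1 h2
    refine ha'.trans_le (le_IN l N h1.2 _ a' fun p hp1 hp2 => ?_)
    have h3 : dist p.1 y ≤ 1 / N :=
      dist_le_of_mem (gcube_sub_ccube _ _ (mem_ix hy h1.2)) (gcube_sub_ccube _ _ hp1)
    have h4 : dist (l p.1) (l y) < δ / 2 := hl' (h3.trans_lt h2.1)
    have h5 : dist p.2 (l y) < δ := by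
      calc dist p.2 (l y) ≤ dist p.2 (l p.1) + dist (l p.1) (l y) := dist_triangle _ _ _
        _ < δ / 2 + δ / 2 := by
          rw [Real.dist_eq p.2 (l p.1)]
          linarith [h1.1]
        _ = δ := by ring
    have h6 : p ∈ {p | a' < H p} := by
      apply hδU
      rw [Metric.mem_ball, Prod.dist_eq]
      exact max_lt (h3.trans_lt (by linarith [h1.1])) h5
    exact le_of_lt h6
  · intro a ha
    filter_upwards [eventually_gt_atTop 0] with N h2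
    exact (IN_le hH l N _ (y, l y) (mem_ix hy h2) (by simp)).trans_lt ha

theorem tendsto_gN {Ω : Set (ι → ℝ)} {ρ l : (ι → ℝ) → ℝ} {H : (ι → ℝ) × ℝ → ℝ}
    (hΩ : IsOpen Ω) (hΩ1 : ∀ y ∈ Ω, ∀ i, y i ∈ Set.Ioo (0 : ℝ) 1) (hρc : ContinuousOn ρ Ω)
    (hρ : ∀ y ∈ Ω, 0 ≤ ρ y) (hl : Continuous l) (hH : ∀ p, 0 ≤ H p) {y : ι → ℝ} (hy : y ∈ Ω)
    (hc : ContinuousAt H (y, l y)) :
    Tendsto (fun N : ℕ => gN Ω ρ l H N y) atTop (𝓝 (H (y, l y) * ρ y)) := by
  obtain ⟨h1, h2⟩ := tendsto_rN hΩ hΩ1 hρc hρ hy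
  have h3 := (tendsto_IN hl hH (hΩ1 y hy) hc).mul h2
  refine h3.congr' ?_
  filter_upwards [h1, eventually_gt_atTop 0] with N h4 h5
  rw [gN_of_mem h5 h4 (mem_ix (hΩ1 y hy) h5)]

theorem tendsto_integral_gN {Ω : Set (ι → ℝ)} {ρ l : (ι → ℝ) → ℝ} {H : (ι → ℝ) × ℝ → ℝ} {M : ℝ}
    (hΩ : IsOpen Ω) (hΩ1 : ∀ y ∈ Ω, ∀ i, y i ∈ Set.Ioo (0 : ℝ) 1) (hρc : ContinuousOn ρ Ω)
    (hρ : ∀ y ∈ Ω, 0 ≤ ρ y) (hρi : IntegrableOn ρ Ω) (hl : Continuous l) (hH : ∀ p, 0 ≤ H p)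
    (hM : ∀ p, H p ≤ M) (hc : ∀ᵐ y ∂(volume.restrict Ω), ContinuousAt H (y, l y)) :
    Integrable (fun y => H (y, l y) * ρ y) (volume.restrict Ω) ∧
    Tendsto (fun N : ℕ => ∫ y in Ω, gN Ω ρ l H N y) atTop
      (𝓝 (∫ y in Ω, H (y, l y) * ρ y)) := by
  have hmem : ∀ᵐ y ∂(volume.restrict Ω), y ∈ Ω := ae_restrict_mem hΩ.measurableSet
  have hlim : ∀ᵐ y ∂(volume.restrict Ω),
      Tendsto (fun N : ℕ => gN Ω ρ l H N y) atTop (𝓝 (H (y, l y) * ρ y)) := by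
    filter_upwards [hmem, hc] with y hy hcy
    exact tendsto_gN hΩ hΩ1 hρc hρ hl hH hy hcy
  have hmeas : AEStronglyMeasurable (fun y => H (y, l y) * ρ y) (volume.restrict Ω) :=
    aestronglyMeasurable_of_tendsto_ae atTop
      (fun N => (measurable_gN Ω ρ l H N).aestronglyMeasurable) hlim
  refine ⟨?_, ?_⟩
  · refine (hρi.const_mul M).mono' hmeas ?_
    filter_upwards [hmem] with y hy
    rw [Real.norm_of_nonneg (mul_nonneg (hH _) (hρ y hy))]
    exact mul_le_mul_of_nonneg_right (hM _) (hρ y hy)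
  · have hlim' : ∀ᵐ y ∂(volume.restrict Ω), Tendsto (fun N : ℕ => gN Ω ρ l H (N + 1) y) atTop
        (𝓝 (H (y, l y) * ρ y)) := by
      filter_upwards [hlim] with y hy
      exact hy.comp (tendsto_add_atTop_nat 1)
    have h1 := tendsto_integral_of_dominated_convergence (fun y => M * ρ y)
      (fun N => (measurable_gN Ω ρ l H (N + 1)).aestronglyMeasurable)
      (hρi.const_mul M) (fun N => by
        filter_upwards [hmem] with y hy
        rw [Real.norm_of_nonneg (gN_nonneg hρ hH _ _)]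
        exact gN_le hρ hH hM (Nat.succ_pos N) hy) hlim'
    exact (tendsto_add_atTop_iff_nat 1).mp h1

section Functional

variable {Ω : Set (ι → ℝ)} {ρ l : (ι → ℝ) → ℝ} {P : ℝ → ((ι → ℝ) × ℝ → ℝ) → ℝ} {ε : ℝ → ℝ}

theorem P_zero (hmul : ∀ X (c : ℝ) F, P X (fun p => c * F p) = c * P X F) (X : ℝ) :
    P X (fun _ => 0) = 0 := by
  have := hmul X 0 (fun _ => 0)
  simpa using this

theorem P_sum (hadd : ∀ X F G, P X (fun p => F p + G p) = P X F + P X G)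
    (hmul : ∀ X (c : ℝ) F, P X (fun p => c * F p) = c * P X F) (X : ℝ)
    {κ : Type*} (s : Finset κ) (a : κ → ℝ) (f : κ → (ι → ℝ) × ℝ → ℝ) :
    P X (fun p => ∑ m ∈ s, a m * f m p) = ∑ m ∈ s, a m * P X (f m) := by
  classical
  induction s using Finset.induction_on with
  | empty => simpa using P_zero hmul X
  | insert b s hb ih =>
    rw [Finset.sum_insert hb, ← ih, ← hmul, ← hadd]
    congr 1
    funext p
    rw [Finset.sum_insert hb]

theorem lower (hΩ : IsOpen Ω) (hΩ1 : ∀ y ∈ Ω, ∀ i, y i ∈ Set.Ioo (0 : ℝ) 1)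
    (hρc : ContinuousOn ρ Ω) (hρ : ∀ y ∈ Ω, 0 ≤ ρ y) (hρi : IntegrableOn ρ Ω)
    (hl : Continuous l) (hε : Tendsto ε atTop (𝓝 0))
    (hadd : ∀ X F G, P X (fun p => F p + G p) = P X F + P X G)
    (hmul : ∀ X (c : ℝ) F, P X (fun p => c * F p) = c * P X F)
    (hpos : ∀ᶠ X in atTop, ∀ F : (ι → ℝ) × ℝ → ℝ, (∀ y t, |t - l y| ≤ ε X → 0 ≤ F (y, t)) →
      0 ≤ P X F)
    (hcube : ∀ (N : ℕ) (m : ι → ℕ), 0 < N → ccube N m ⊆ Ω → ∀ r, 0 ≤ r →
      (∀ y ∈ ccube N m, r ≤ ρ y) → ∀ c < r * (1 / (N : ℝ)) ^ Fintype.card ι,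
        ∀ᶠ X in atTop, c ≤ P X (fun p => (gcube N m).indicator (fun _ => 1) p.1))
    (H : (ι → ℝ) × ℝ → ℝ) (M : ℝ) (hH : ∀ p, 0 ≤ H p) (hM : ∀ p, H p ≤ M)
    (hc : ∀ᵐ y ∂(volume.restrict Ω), ContinuousAt H (y, l y)) (c : ℝ)
    (hcl : c < ∫ y in Ω, H (y, l y) * ρ y) : ∀ᶠ X in atTop, c ≤ P X H := by
  have h1 := (tendsto_integral_gN hΩ hΩ1 hρc hρ hρi hl hH hM hc).2
  obtain ⟨N, hN1, hN2⟩ := ((h1.eventually (lt_mem_nhds hcl)).and (eventually_gt_atTop 0)).exists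
  rw [integral_gN ρ l H hN2] at hN1
  set S : ℝ := ∑ m ∈ MN Ω N, (IN H l N m * rN ρ N m) * (1 / (N : ℝ)) ^ Fintype.card ι with hS
  set J : ℝ := ∑ m ∈ MN Ω N, IN H l N m with hJ
  have hJ0 : 0 ≤ J := Finset.sum_nonneg fun m _ => IN_nonneg hH l N m
  set δ : ℝ := (S - c) / (1 + J) with hδ
  have hδ0 : 0 < δ := div_pos (by linarith) (by linarith)
  have hev : ∀ m ∈ MN Ω N, ∀ᶠ X in atTop,
      rN ρ N m * (1 / (N : ℝ)) ^ Fintype.card ι - δ ≤
        P X (fun p => (gcube N m).indicator (fun _ => 1) p.1) := by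
    intro m hm
    rw [mem_MN] at hm
    exact hcube N m hN2 hm.2 _ (rN_nonneg hρ N m hm.2)
      (fun y hy => rN_le hρ N m hm.2 y hy) _ (by linarith)
  have hN0 : (0 : ℝ) < 1 / N := by positivity
  have hεN : ∀ᶠ X in atTop, ε X < 1 / N := hε.eventually (gt_mem_nhds hN0)
  filter_upwards [hpos, hεN, (Filter.eventually_all_finset (MN Ω N)).mpr hev] with X hX1 hX2 hX3
  have h2 : 0 ≤ P X (fun p => H p + (-1) * ∑ m ∈ MN Ω N, IN H l N m *
      (gcube N m).indicator (fun _ => (1 : ℝ)) p.1) := by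
    apply hX1
    intro y t hyt
    by_cases h : ∃ m ∈ MN Ω N, y ∈ gcube N m
    · obtain ⟨m, hm, hym⟩ := h
      have h3 : ∑ m ∈ MN Ω N, IN H l N m * (gcube N m).indicator (fun _ => (1 : ℝ)) y =
          IN H l N m := by
        rw [Finset.sum_eq_single m]
        · rw [Set.indicator_of_mem hym, mul_one]
        · intro b _ hb
          rw [Set.indicator_of_notMem, mul_zero]
          intro h
          exact hb (gcube_unique hN2 h hym)
        · intro h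
          exact absurd hm h
      have h4 := IN_le hH l N m (y, t) hym (hyt.trans hX2.le)
      simp only [h3]
      linarith
    · push Not at h
      have h3 : ∑ m ∈ MN Ω N, IN H l N m * (gcube N m).indicator (fun _ => (1 : ℝ)) y = 0 := by
        apply Finset.sum_eq_zero
        intro m hm
        rw [Set.indicator_of_notMem (h m hm), mul_zero]
      have h4 := hH (y, t)
      simp only [h3]
      linarith
  rw [hadd, hmul, P_sum hadd hmul X (MN Ω N) (fun m => IN H l N m)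
    (fun m p => (gcube N m).indicator (fun _ => (1 : ℝ)) p.1)] at h2
  have h3 : ∑ m ∈ MN Ω N, IN H l N m * (rN ρ N m * (1 / (N : ℝ)) ^ Fintype.card ι - δ) ≤
      ∑ m ∈ MN Ω N, IN H l N m * P X (fun p => (gcube N m).indicator (fun _ => 1) p.1) :=
    Finset.sum_le_sum fun m hm => mul_le_mul_of_nonneg_left (hX3 m hm) (IN_nonneg hH l N m)
  have h4 : ∑ m ∈ MN Ω N, IN H l N m * (rN ρ N m * (1 / (N : ℝ)) ^ Fintype.card ι - δ) =
      S - J * δ := by
    rw [hS, hJ, Finset.sum_mul, ← Finset.sum_sub_distrib]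
    apply Finset.sum_congr rfl
    intro m _
    ring
  have h5 : J * δ ≤ S - c := by
    rw [hδ, mul_div_assoc', div_le_iff₀ (by linarith)]
    nlinarith
  linarith

end Functional

end IL1

open IL1 in
theorem prfL1 : claimL1 := by
  intro ι _ Ω ρ l P ε hΩ hΩ1 hρc hρ hρi hl hε hadd hmul hpos htot hcube F B hFB hFc
  have hB0 : 0 ≤ B := (abs_nonneg _).trans (hFB (0, 0))
  set T : ℝ := ∫ y in Ω, ρ y with hT
  have hlow := fun H M hH hM hc c hcl => lower (P := P) hΩ hΩ1 hρc hρ hρi hl hε hadd hmul hpos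
    hcube H M hH hM hc c hcl
  -- the total mass
  have hone : Tendsto (fun X => P X (fun _ => 1)) atTop (𝓝 T) := by
    rw [tendsto_order]
    constructor
    · intro a ha
      obtain ⟨a', ha', ha''⟩ := exists_between ha
      filter_upwards [hlow (fun _ => 1) 1 (fun _ => zero_le_one) (fun _ => le_rfl)
        (Eventually.of_forall fun _ => continuousAt_const) a' (by simpa using ha'')] with X hX
      exact ha'.trans_le hX
    · intro a ha
      obtain ⟨a', ha', ha''⟩ := exists_between ha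
      filter_upwards [htot a' ha'] with X hX
      exact hX.trans_lt ha''
  have hBone : ∀ X, P X (fun _ => B) = B * P X (fun _ => 1) := by
    intro X
    rw [← hmul]
    congr 1
    funext p
    rw [mul_one]
  have hi1 := (tendsto_integral_gN (H := fun p => F p + B) (M := 2 * B) hΩ hΩ1 hρc hρ hρi hl
    (fun p => by linarith [(abs_le.mp (hFB p)).1]) (fun p => by linarith [(abs_le.mp (hFB p)).2])
    (hFc.mono fun y hy => hy.add continuousAt_const)).1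
  have hρB : Integrable (fun y => B * ρ y) (volume.restrict Ω) := hρi.const_mul B
  have hiF : Integrable (fun y => F (y, l y) * ρ y) (volume.restrict Ω) := by
    have := hi1.sub hρB
    refine this.congr (Eventually.of_forall fun y => ?_)
    simp only [Pi.sub_apply]
    ring
  have hint1 : ∫ y in Ω, (F (y, l y) + B) * ρ y = (∫ y in Ω, F (y, l y) * ρ y) + B * T := by
    rw [hT, ← integral_const_mul, ← integral_add hiF hρB]
    apply integral_congr_ae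
    exact Eventually.of_forall fun y => by ring
  have hint2 : ∫ y in Ω, (-1 * F (y, l y) + B) * ρ y =
      -(∫ y in Ω, F (y, l y) * ρ y) + B * T := by
    have hiFn : Integrable (fun y => -(F (y, l y) * ρ y)) (volume.restrict Ω) := hiF.neg
    rw [hT, ← integral_const_mul, ← integral_neg, ← integral_add hiFn hρB]
    apply integral_congr_ae
    exact Eventually.of_forall fun y => by simp only; ring
  set R : ℝ := ∫ y in Ω, F (y, l y) * ρ y with hR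
  have hPB : Tendsto (fun X => B * P X (fun _ => 1)) atTop (𝓝 (B * T)) := hone.const_mul B
  rw [tendsto_order]
  constructor
  · intro a ha
    have h1 := hlow (fun p => F p + B) (2 * B) (fun p => by linarith [(abs_le.mp (hFB p)).1])
      (fun p => by linarith [(abs_le.mp (hFB p)).2])
      (hFc.mono fun y hy => hy.add continuousAt_const) (R + B * T - (R - a) / 3)
      (by rw [hint1]; linarith)
    filter_upwards [h1, hPB.eventually (gt_mem_nhds (show B * T < B * T + (R - a) / 3 by linarith))]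
      with X hX1 hX2
    rw [hadd X F (fun _ => B), hBone] at hX1
    linarith
  · intro a ha
    have h1 := hlow (fun p => -1 * F p + B) (2 * B) (fun p => by linarith [(abs_le.mp (hFB p)).2])
      (fun p => by linarith [(abs_le.mp (hFB p)).1])
      (hFc.mono fun y hy => (continuousAt_const.mul hy).add continuousAt_const)
      (-R + B * T - (a - R) / 3) (by rw [hint2]; linarith)
    filter_upwards [h1, hPB.eventually (gt_mem_nhds (show B * T < B * T + (a - R) / 3 by linarith))]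
      with X hX1 hX2
    rw [hadd X (fun p => -1 * F p) (fun _ => B), hBone, hmul] at hX1
    linarith

end Pool.Agent.Work.MP_122e00_nt.Two
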