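import Mathlib
import Pool.Agent.Work.MP_122e00_nt.Two.Stmts
import Pool.Agent.Work.MP_122e00_nt.Weight

set_option autoImplicit false

/-!
# L3: tuples with a weight
-/

namespace Pool.Agent.Work.MP_122e00_nt.Two

open Finset Filter Topology MeasureTheory

namespace IL3

/-- The weighted sum. -/
noncomputable def P (s k : ℕ) (X : ℝ) (G : (Fin s → ℝ) × ℝ → ℝ) : ℝ :=
  (∑ a ∈ tup s X, if k ∣ ∏ i, a i then G (lg X a, 0) * ∏ i, (1 / (a i : ℝ)) else 0) /
    (Real.log X) ^ s

theorem P_add (s k : ℕ) (X : ℝ) (F G : (Fin s → ℝ) × ℝ → ℝ) :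
    P s k X (fun p => F p + G p) = P s k X F + P s k X G := by
  unfold P
  rw [← add_div, ← Finset.sum_add_distrib]
  congr 1
  apply Finset.sum_congr rfl
  intro a _
  split_ifs
  · ring
  · ring

theorem P_smul (s k : ℕ) (X c : ℝ) (F : (Fin s → ℝ) × ℝ → ℝ) :
    P s k X (fun p => c * F p) = c * P s k X F := by
  unfold P
  rw [mul_div_assoc', Finset.mul_sum]
  congr 1
  apply Finset.sum_congr rfl
  intro a _
  split_ifs
  · ring
  · ring

theorem rho_nonneg (s k : ℕ) : 0 ≤ rho s k := by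
  unfold rho
  positivity

theorem vol_O1 (s : ℕ) : volume (O1 s) = 1 := by
  unfold O1
  rw [Real.volume_pi_Ioo]
  simp

theorem mem_box_iff {s : ℕ} (N : ℕ) (hN : 0 < N) (m : Fin s → ℕ)
    (h0 : ∀ i, 0 < ((m i : ℝ) - 1) / N) (h1 : ∀ i, (m i : ℝ) / N < 1) {X : ℝ} (hX : 1 < X) :
    box (fun i => ((m i : ℝ) - 1) / N) (fun i => (m i : ℝ) / N) X =
      (tup s X).filter (fun a => ∀ i, ((m i : ℝ) - 1) / N < lg X a i ∧ lg X a i ≤ (m i : ℝ) / N) := by
  have hX0 : 0 < X := by linarith
  have hlog : 0 < Real.log X := Real.log_pos hX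
  have key : ∀ (a : ℕ) (i : Fin s), 0 < a →
      ((a ∈ Finset.Ioc ⌊X ^ (((m i : ℝ) - 1) / N)⌋₊ ⌊X ^ ((m i : ℝ) / N)⌋₊) ↔
        (((m i : ℝ) - 1) / N < Real.log a / Real.log X ∧
          Real.log a / Real.log X ≤ (m i : ℝ) / N)) := by
    intro a i ha
    have ha' : (0 : ℝ) < a := by exact_mod_cast ha
    rw [Finset.mem_Ioc, Nat.floor_lt (by positivity), Nat.le_floor_iff (by positivity),
      lt_div_iff₀ hlog, div_le_iff₀ hlog, ← Real.log_rpow hX0, ← Real.log_rpow hX0,
      Real.log_lt_log_iff (by positivity) ha', Real.log_le_log_iff ha' (by positivity)]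
  ext a
  unfold box tup
  rw [Fintype.mem_piFinset, Finset.mem_filter, Fintype.mem_piFinset]
  constructor
  · intro h
    have hpos : ∀ i, 0 < a i := fun i => by
      have := (Finset.mem_Ioc.mp (h i)).1
      omega
    refine ⟨fun i => ?_, fun i => (key (a i) i (hpos i)).mp (h i)⟩
    rw [Finset.mem_Icc]
    refine ⟨hpos i, ?_⟩
    have h2 := (Finset.mem_Ioc.mp (h i)).2
    refine h2.trans (Nat.floor_mono ?_)
    calc X ^ ((m i : ℝ) / N) ≤ X ^ (1 : ℝ) :=
          Real.rpow_le_rpow_of_exponent_le hX.le (h1 i).le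
      _ = X := Real.rpow_one X
  · rintro ⟨h2, h3⟩ i
    have hpos : 0 < a i := (Finset.mem_Icc.mp (h2 i)).1
    exact (key (a i) i hpos).mpr (h3 i)

theorem P_cube {s : ℕ} (k N : ℕ) (hN : 0 < N) (m : Fin s → ℕ)
    (h0 : ∀ i, 0 < ((m i : ℝ) - 1) / N) (h1 : ∀ i, (m i : ℝ) / N < 1) {X : ℝ} (hX : 1 < X) :
    P s k X (fun p => (gcube N m).indicator (fun _ => 1) p.1) =
      Asum k (fun i => ((m i : ℝ) - 1) / N) (fun i => (m i : ℝ) / N) X / (Real.log X) ^ s := by
  classical
  unfold P Asum
  rw [mem_box_iff N hN m h0 h1 hX, Finset.sum_filter]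
  congr 1
  apply Finset.sum_congr rfl
  intro a _
  by_cases hg : ∀ i, ((m i : ℝ) - 1) / N < lg X a i ∧ lg X a i ≤ (m i : ℝ) / N
  · rw [if_pos hg]
    have hmem : lg X a ∈ gcube N m := hg
    simp only [Set.indicator_of_mem hmem, one_mul]
  · rw [if_neg hg]
    have hmem : lg X a ∉ gcube N m := hg
    simp only [Set.indicator_of_notMem hmem, zero_mul, ite_self]

end IL3

theorem prfL3 : claimL3 := by
  intro hL1 hL2 s k hk φ B hB hφ
  have : NeZero k := ⟨hk⟩
  have hrho := IL3.rho_nonneg s k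
  have hvol : volume (O1 s) = 1 := IL3.vol_O1 s
  have hint1 : ∫ _ in O1 s, rho s k = rho s k := by
    rw [setIntegral_const, Measure.real, hvol]
    simp
  have key := hL1 (Fin s) (O1 s) (fun _ => rho s k) (fun _ => 0) (IL3.P s k) (fun _ => 0)
    (isOpen_set_pi Set.finite_univ (fun _ _ => isOpen_Ioo))
    (fun y hy i => hy i (Set.mem_univ i)) continuousOn_const (fun _ _ => hrho)
    (integrableOn_const (by rw [hvol]; exact ENNReal.one_ne_top)) continuous_const
    tendsto_const_nhds (fun X F G => IL3.P_add s k X F G)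
    (fun X c F => IL3.P_smul s k X c F)
    (by
      filter_upwards [eventually_gt_atTop 1] with X hX F hF
      unfold IL3.P
      have hlog : 0 < Real.log X := Real.log_pos hX
      refine div_nonneg (Finset.sum_nonneg fun a _ => ?_) (by positivity)
      split_ifs
      · refine mul_nonneg (hF _ _ (by simp)) ?_
        exact Finset.prod_nonneg fun i _ => by positivity
      · exact le_rfl)
    (by
      intro c hc
      rw [hint1] at hc
      have h1 := hL2 s k hk
      have h2 := (h1.eventually (Iio_mem_nhds hc))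
      filter_upwards [h2] with X hX
      unfold IL3.P
      simp only [one_mul]
      exact le_of_lt hX)
    (by
      intro N m hN hcube r hr0 hr c hc
      have hNR : (0 : ℝ) < N := by exact_mod_cast hN
      have hle : ∀ i, ((m i : ℝ) - 1) / N ≤ (m i : ℝ) / N := fun i => by
        apply div_le_div_of_nonneg_right _ hNR.le
        linarith
      have hlo : (fun i => ((m i : ℝ) - 1) / N) ∈ ccube N m := fun i => ⟨le_rfl, hle i⟩
      have hhi : (fun i => (m i : ℝ) / N) ∈ ccube N m := fun i => ⟨hle i, le_rfl⟩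
      have h0 : ∀ i, 0 < ((m i : ℝ) - 1) / N := fun i => (hcube hlo i (Set.mem_univ i)).1
      have h1 : ∀ i, (m i : ℝ) / N < 1 := fun i => (hcube hhi i (Set.mem_univ i)).2
      have hr1 : r ≤ rho s k := hr _ hlo
      have ht := tendsto_Asum k (fun i => ((m i : ℝ) - 1) / N) (fun i => (m i : ℝ) / N)
        (fun i => (h0 i).le) hle
      have hprod : ∏ i : Fin s, ((m i : ℝ) / N - ((m i : ℝ) - 1) / N) = (1 / (N : ℝ)) ^ s := by
        have h2 : ∀ i : Fin s, ((m i : ℝ) / N - ((m i : ℝ) - 1) / N) = 1 / (N : ℝ) := fun i => by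
          rw [← sub_div]
          congr 1
          ring
        rw [Finset.prod_congr rfl (fun i _ => h2 i), Finset.prod_const, Finset.card_univ,
          Fintype.card_fin]
      rw [hprod] at ht
      have hc' : c < rho s k * (1 / (N : ℝ)) ^ s := by
        rw [Fintype.card_fin] at hc
        refine lt_of_lt_of_le hc ?_
        exact mul_le_mul_of_nonneg_right hr1 (by positivity)
      have h3 := ht.eventually (Ioi_mem_nhds hc')
      filter_upwards [h3, eventually_gt_atTop 1] with X hX hX1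
      rw [IL3.P_cube k N hN m h0 h1 hX1]
      exact le_of_lt hX)
    (fun p => φ p.1) B (fun p => hB p.1)
    (ae_restrict_of_ae (hφ.mono fun y hy => by
      have h1 : ContinuousAt (fun p : (Fin s → ℝ) × ℝ => p.1) (y, (0 : ℝ)) := continuousAt_fst
      exact ContinuousAt.comp (f := fun p : (Fin s → ℝ) × ℝ => p.1) (g := φ) hy h1))
  have h2 : ∫ y in O1 s, φ y * rho s k = rho s k * ∫ y in O1 s, φ y := by
    rw [integral_mul_const, mul_comm]
  rw [← h2]
  exact key

end Pool.Agent.Work.MP_122e00_nt.Two
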