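import Pool.Agent.Work.MP_122e00_nt.Two.Stmts
import Pool.Agent.Work.MP_122e00_nt.Bd.B37
import Pool.Agent.Work.MP_122e00_nt.Bdx.B07

set_option autoImplicit false

/-!
# Item L7: boxes with marks from below
-/

namespace Pool.Agent.Work.MP_122e00_nt.Two

open Finset Filter Topology MeasureTheory

open scoped ArithmeticFunction.vonMangoldt

namespace IL7

theorem tup_pos {s : ℕ} {X : ℝ} {b : Fin s → ℕ} (hb : b ∈ tup s X) (i : Fin s) : 0 < b i := by
  unfold tup at hb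
  rw [Fintype.mem_piFinset] at hb
  exact (Finset.mem_Icc.mp (hb i)).1

theorem tup_eq_box {s : ℕ} {X : ℝ} (hX : 1 < X) :
    tup s X = box (fun _ => (-1 : ℝ)) (fun _ => 1) X := by
  unfold tup box
  congr 1
  funext i
  have h1 : ⌊X ^ (-1 : ℝ)⌋₊ = 0 := by
    rw [Nat.floor_eq_zero, Real.rpow_neg_one]
    exact inv_lt_one_of_one_lt₀ hX
  rw [h1, Real.rpow_one]
  rfl

/-- sum over tuples with a divisibility condition -/
theorem sum_tup_le {s : ℕ} {X : ℝ} (hX : 1 < X) (p : ℕ) (hp : p.Prime) :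
    ∑ b ∈ tup s X, (if p ∣ ∏ i, b i then ∏ i, (1 / (b i : ℝ)) else 0) ≤
      2 ^ s / p * (1 + Real.log X) ^ s := by
  have h1 := Asum_le (s := s) p hp.ne_zero (fun _ => (-1 : ℝ)) (fun _ => 1)
    (fun _ => zero_le_one) (fun _ => le_rfl) hX.le
  unfold Asum at h1
  rw [← tup_eq_box hX] at h1
  refine h1.trans ?_
  have h2 : (Nat.finMulAntidiag s p).card ≤ 2 ^ s := by
    have := card_finMulAntidiag_le s p hp.ne_zero
    rwa [Nat.Prime.divisors hp, Finset.card_pair hp.one_lt.ne] at this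
  have h3 : ((Nat.finMulAntidiag s p).card : ℝ) ≤ 2 ^ s := by exact_mod_cast h2
  have hL : 0 ≤ Real.log X := Real.log_nonneg hX.le
  gcongr

theorem sum_box_le {s : ℕ} {X : ℝ} (hX : 1 < X) (α β : Fin s → ℝ) (hβ0 : ∀ i, 0 ≤ β i)
    (hβ1 : ∀ i, β i ≤ 1) :
    ∑ a ∈ box α β X, ∏ i, (1 / (a i : ℝ)) ≤ (1 + Real.log X) ^ s := by
  have h1 := Asum_le (s := s) 1 one_ne_zero α β hβ0 hβ1 hX.le
  unfold Asum at h1
  simp only [one_dvd, if_true] at h1
  refine h1.trans (le_of_eq ?_)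
  rw [Nat.finMulAntidiag_one]
  simp

theorem Fh_nonneg (h g : ℕ) : 0 ≤ Fh h g := by
  rw [Fh_apply]
  split_ifs <;> positivity

theorem Fh_le_h {h : ℕ} (hh : h ≠ 0) (g : ℕ) : Fh h g ≤ h := by
  rw [Fh_apply]
  split_ifs with h1
  · exact_mod_cast Nat.le_of_dvd (Nat.pos_of_ne_zero hh) h1
  · positivity

/-- the main sum without marks -/
noncomputable def S0 {s : ℕ} (h : ℕ) (αv βv : Fin s → ℝ) (ψ : (Fin s → ℝ) → ℝ) (X : ℝ) : ℝ :=
  ∑ a ∈ box αv βv X, ∑ b ∈ tup s X, ψ (lg X b) *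
    (Fh h (Nat.gcd (∏ i, a i) (∏ i, b i)) * ((∏ i, (1 / (a i : ℝ))) * (∏ i, (1 / (b i : ℝ)))))

/-- the inner sum for given primes `d j` -/
theorem inner_ge {k s h : ℕ} (hh : h ≠ 0) {αv βv : Fin s → ℝ} (hβv0 : ∀ i, 0 ≤ βv i)
    (hβv1 : ∀ i, βv i ≤ 1) {ψ : (Fin s → ℝ) → ℝ} {B : ℝ} (hB0 : 0 ≤ B) (hψ0 : ∀ y, 0 ≤ ψ y)
    (hψB : ∀ y, ψ y ≤ B) {X ρ : ℝ} (hX : 1 < X) (d : Fin k → ℕ) (hd : ∀ j, (d j).Prime)
    (hρ : ∀ j, 1 / (d j : ℝ) ≤ ρ) :
    S0 h αv βv ψ X - k * (B * h * (1 + Real.log X) ^ s * (2 ^ s * ρ * (1 + Real.log X) ^ s)) ≤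
    ∑ a ∈ box αv βv X, ∑ b ∈ tup s X, ψ (lg X b) *
      (Fh h (Nat.gcd ((∏ j, d j) * ∏ i, a i) (∏ i, b i)) *
        ((∏ i, (1 / (a i : ℝ))) * (∏ i, (1 / (b i : ℝ))))) := by
  have hL : 0 ≤ Real.log X := Real.log_nonneg hX.le
  have hterm : ∀ a ∈ box αv βv X, ∀ b ∈ tup s X, ψ (lg X b) *
      (Fh h (Nat.gcd (∏ i, a i) (∏ i, b i)) *
        ((∏ i, (1 / (a i : ℝ))) * (∏ i, (1 / (b i : ℝ))))) -
      ∑ j, B * h * ((∏ i, (1 / (a i : ℝ))) *
        (if d j ∣ ∏ i, b i then ∏ i, (1 / (b i : ℝ)) else 0)) ≤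
      ψ (lg X b) * (Fh h (Nat.gcd ((∏ j, d j) * ∏ i, a i) (∏ i, b i)) *
        ((∏ i, (1 / (a i : ℝ))) * (∏ i, (1 / (b i : ℝ))))) := by
    intro a ha b hb
    have hWa : 0 ≤ ∏ i, (1 / (a i : ℝ)) := Finset.prod_nonneg fun i _ => by positivity
    have hWb : 0 ≤ ∏ i, (1 / (b i : ℝ)) := Finset.prod_nonneg fun i _ => by positivity
    have hnn : ∀ j, 0 ≤ B * h * ((∏ i, (1 / (a i : ℝ))) *
        (if d j ∣ ∏ i, b i then ∏ i, (1 / (b i : ℝ)) else 0)) := by
      intro j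
      split_ifs
      · positivity
      · simp
    by_cases hdiv : ∃ j, d j ∣ ∏ i, b i
    · obtain ⟨j, hj⟩ := hdiv
      have h1 : B * h * ((∏ i, (1 / (a i : ℝ))) * ∏ i, (1 / (b i : ℝ))) ≤
          ∑ j, B * h * ((∏ i, (1 / (a i : ℝ))) *
            (if d j ∣ ∏ i, b i then ∏ i, (1 / (b i : ℝ)) else 0)) := by
        have := Finset.single_le_sum (f := fun j => B * h * ((∏ i, (1 / (a i : ℝ))) *
            (if d j ∣ ∏ i, b i then ∏ i, (1 / (b i : ℝ)) else 0)))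
            (fun j _ => hnn j) (Finset.mem_univ j)
        simp only [if_pos hj] at this
        exact this
      have h2 : ψ (lg X b) * (Fh h (Nat.gcd (∏ i, a i) (∏ i, b i)) *
          ((∏ i, (1 / (a i : ℝ))) * (∏ i, (1 / (b i : ℝ))))) ≤
          B * h * ((∏ i, (1 / (a i : ℝ))) * ∏ i, (1 / (b i : ℝ))) := by
        rw [← mul_assoc]
        apply mul_le_mul_of_nonneg_right _ (mul_nonneg hWa hWb)
        exact mul_le_mul (hψB _) (Fh_le_h hh _) (Fh_nonneg _ _) hB0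
      have h3 : 0 ≤ ψ (lg X b) * (Fh h (Nat.gcd ((∏ j, d j) * ∏ i, a i) (∏ i, b i)) *
          ((∏ i, (1 / (a i : ℝ))) * (∏ i, (1 / (b i : ℝ))))) :=
        mul_nonneg (hψ0 _) (mul_nonneg (Fh_nonneg _ _) (mul_nonneg hWa hWb))
      linarith
    · push Not at hdiv
      have hcop : Nat.Coprime (∏ j, d j) (∏ i, b i) := by
        apply Nat.Coprime.prod_left
        intro j _
        exact (Nat.Prime.coprime_iff_not_dvd (hd j)).mpr (hdiv j)
      have hg : Nat.gcd ((∏ j, d j) * ∏ i, a i) (∏ i, b i) = Nat.gcd (∏ i, a i) (∏ i, b i) :=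
        Nat.Coprime.gcd_mul_left_cancel _ hcop
      rw [hg]
      have h0 : 0 ≤ ∑ j, B * h * ((∏ i, (1 / (a i : ℝ))) *
            (if d j ∣ ∏ i, b i then ∏ i, (1 / (b i : ℝ)) else 0)) :=
        Finset.sum_nonneg fun j _ => hnn j
      linarith
  have hsum := Finset.sum_le_sum fun a ha => Finset.sum_le_sum fun b hb => hterm a ha b hb
  refine le_trans ?_ hsum
  simp_rw [Finset.sum_sub_distrib]
  unfold S0
  apply sub_le_sub_left
  have hexch : ∑ a ∈ box αv βv X, ∑ b ∈ tup s X, ∑ j, B * h * ((∏ i, (1 / (a i : ℝ))) *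
        (if d j ∣ ∏ i, b i then ∏ i, (1 / (b i : ℝ)) else 0)) =
      ∑ j, B * h * ((∑ a ∈ box αv βv X, ∏ i, (1 / (a i : ℝ))) *
        ∑ b ∈ tup s X, (if d j ∣ ∏ i, b i then ∏ i, (1 / (b i : ℝ)) else 0)) := by
    have e1 : ∀ a ∈ box αv βv X, ∑ b ∈ tup s X, ∑ j, B * h * ((∏ i, (1 / (a i : ℝ))) *
        (if d j ∣ ∏ i, b i then ∏ i, (1 / (b i : ℝ)) else 0)) =
        ∑ j, ∑ b ∈ tup s X, B * h * ((∏ i, (1 / (a i : ℝ))) *
        (if d j ∣ ∏ i, b i then ∏ i, (1 / (b i : ℝ)) else 0)) :=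
      fun a _ => Finset.sum_comm
    rw [Finset.sum_congr rfl e1, Finset.sum_comm]
    apply Finset.sum_congr rfl
    intro j _
    rw [Finset.sum_mul_sum, Finset.mul_sum]
    apply Finset.sum_congr rfl
    intro a _
    rw [Finset.mul_sum]
  rw [hexch]
  have hj : ∀ j ∈ (Finset.univ : Finset (Fin k)),
      B * h * ((∑ a ∈ box αv βv X, ∏ i, (1 / (a i : ℝ))) *
        ∑ b ∈ tup s X, (if d j ∣ ∏ i, b i then ∏ i, (1 / (b i : ℝ)) else 0)) ≤
      B * h * (1 + Real.log X) ^ s * (2 ^ s * ρ * (1 + Real.log X) ^ s) := by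
    intro j _
    have h1 := sum_box_le hX αv βv hβv0 hβv1
    have h2 := sum_tup_le (s := s) hX (d j) (hd j)
    have h3 : 2 ^ s / (d j : ℝ) * (1 + Real.log X) ^ s ≤
        2 ^ s * ρ * (1 + Real.log X) ^ s := by
      have : 2 ^ s / (d j : ℝ) = 2 ^ s * (1 / (d j : ℝ)) := by ring
      rw [this]
      have := hρ j
      gcongr
    rw [mul_assoc (B * h)]
    apply mul_le_mul_of_nonneg_left _ (by positivity)
    apply mul_le_mul h1 (h2.trans h3) _ (by positivity)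
    apply Finset.sum_nonneg
    intro b _
    split_ifs
    · positivity
    · exact le_rfl
  refine (Finset.sum_le_sum hj).trans (le_of_eq ?_)
  rw [Finset.sum_const, Finset.card_univ, Fintype.card_fin, nsmul_eq_mul]

/-- sum of `log p / p` over the primes in `(X^α, X^β]` -/
noncomputable def Mp (α β X : ℝ) : ℝ :=
  ∑ p ∈ (Finset.Ioc ⌊X ^ α⌋₊ ⌊X ^ β⌋₊).filter Nat.Prime, Real.log p / (p : ℝ)

theorem Mp_nonneg (α β X : ℝ) : 0 ≤ Mp α β X := by
  unfold Mp
  apply Finset.sum_nonneg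
  intro p _
  have := Real.log_natCast_nonneg p
  positivity

theorem tendsto_Mp (h5 : claimL5) {α β : ℝ} (hα : 0 ≤ α) (hαβ : α ≤ β) :
    Tendsto (fun X : ℝ => Mp α β X / Real.log X) atTop (𝓝 (β - α)) := by
  obtain ⟨C, hC⟩ := h5.2
  have key : ∀ X : ℝ, 1 < X → |Mp α β X / Real.log X - (β - α)| ≤ 2 * C / Real.log X := by
    intro X hX
    have hX0 : 0 < X := by linarith
    have hL : 0 < Real.log X := Real.log_pos hX
    have h1 := hC (X ^ α) (Real.one_le_rpow hX.le hα)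
    have h2 := hC (X ^ β) (Real.one_le_rpow hX.le (hα.trans hαβ))
    rw [Real.log_rpow hX0] at h1 h2
    have hsplit : ∑ p ∈ (Finset.Icc 1 ⌊X ^ β⌋₊).filter Nat.Prime, Real.log p / (p : ℝ) =
        ∑ p ∈ (Finset.Icc 1 ⌊X ^ α⌋₊).filter Nat.Prime, Real.log p / (p : ℝ) + Mp α β X := by
      unfold Mp
      rw [← Finset.sum_union]
      · apply Finset.sum_congr _ (fun _ _ => rfl)
        have hfl := floor_mono hX.le hαβ
        ext p
        simp only [Finset.mem_filter, Finset.mem_union, Finset.mem_Icc, Finset.mem_Ioc]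
        constructor
        · rintro ⟨⟨ha, hb⟩, hc⟩
          by_cases hd : p ≤ ⌊X ^ α⌋₊
          · exact Or.inl ⟨⟨ha, hd⟩, hc⟩
          · exact Or.inr ⟨⟨by omega, hb⟩, hc⟩
        · rintro (⟨⟨ha, hb⟩, hc⟩ | ⟨⟨ha, hb⟩, hc⟩)
          · exact ⟨⟨ha, by omega⟩, hc⟩
          · exact ⟨⟨by omega, hb⟩, hc⟩
      · rw [Finset.disjoint_left]
        intro p hp hp'
        rw [Finset.mem_filter, Finset.mem_Icc] at hp
        rw [Finset.mem_filter, Finset.mem_Ioc] at hp'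
        omega
    rw [hsplit] at h2
    have h3 : Mp α β X / Real.log X - (β - α) =
        (Mp α β X - (β - α) * Real.log X) / Real.log X := by
      field_simp
    rw [h3, abs_div, abs_of_pos hL]
    apply div_le_div_of_nonneg_right _ hL.le
    rw [abs_le] at h1 h2 ⊢
    constructor <;> linarith [h1.1, h1.2, h2.1, h2.2]
  rw [tendsto_iff_norm_sub_tendsto_zero]
  have hlim : Tendsto (fun X : ℝ => 2 * C / Real.log X) atTop (𝓝 0) :=
    Tendsto.const_div_atTop Real.tendsto_log_atTop _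
  refine squeeze_zero' (Eventually.of_forall fun _ => norm_nonneg _) ?_ hlim
  filter_upwards [eventually_gt_atTop 1] with X hX
  exact key X hX

/-- the box of exponents -/
def Bx {s : ℕ} (αv βv : Fin s → ℝ) : Set (Fin s → ℝ) :=
  Set.pi Set.univ fun i => Set.Ioc (αv i) (βv i)

open Classical in
/-- indicator of the box of exponents -/
noncomputable def phi {s : ℕ} (αv βv : Fin s → ℝ) (y : Fin s → ℝ) : ℝ :=
  (Bx αv βv).indicator (fun _ => 1) y

theorem phi_cont {s : ℕ} (αv βv : Fin s → ℝ) : ∀ᵐ y, ContinuousAt (phi αv βv) y := by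
  have hconv : Convex ℝ (Bx αv βv) := convex_pi fun i _ => convex_Ioc _ _
  have h0 : volume (frontier (Bx αv βv)) = 0 := hconv.addHaar_frontier volume
  have h1 : ∀ᵐ y, y ∉ frontier (Bx αv βv) := by
    rw [ae_iff]
    simpa using h0
  filter_upwards [h1] with y hy
  have h2 : y ∈ interior (Bx αv βv) ∨ y ∈ interior (Bx αv βv)ᶜ := by
    by_contra hcon
    push Not at hcon
    apply hy
    rw [frontier, Set.mem_diff]
    refine ⟨?_, hcon.1⟩
    rw [interior_compl, Set.mem_compl_iff, not_not] at hcon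
    exact hcon.2
  rcases h2 with h2 | h2
  · have h3 : phi αv βv =ᶠ[𝓝 y] fun _ => 1 := by
      filter_upwards [isOpen_interior.mem_nhds h2] with x hx
      unfold phi
      rw [Set.indicator_of_mem (interior_subset hx)]
    exact continuousAt_const.congr h3.symm
  · have h3 : phi αv βv =ᶠ[𝓝 y] fun _ => 0 := by
      filter_upwards [isOpen_interior.mem_nhds h2] with x hx
      unfold phi
      rw [Set.indicator_of_notMem (interior_subset hx)]
    exact continuousAt_const.congr h3.symm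

theorem vol_aux {a b : ℝ} (ha : 0 ≤ a) (hb : b ≤ 1) :
    volume (Set.Ioo (0:ℝ) 1 ∩ Set.Ioc a b) = ENNReal.ofReal (b - a) := by
  apply le_antisymm
  · rw [← Real.volume_Ioc]
    exact measure_mono Set.inter_subset_right
  · rw [← Real.volume_Ioo]
    apply measure_mono
    intro x hx
    exact ⟨⟨lt_of_le_of_lt ha hx.1, lt_of_lt_of_le hx.2 hb⟩, hx.1, hx.2.le⟩

theorem integral_phi {s : ℕ} {αv βv : Fin s → ℝ} (h0 : ∀ i, 0 ≤ αv i) (h1 : ∀ i, αv i ≤ βv i)
    (h2 : ∀ i, βv i ≤ 1) : ∫ y in O1 s, phi αv βv y = ∏ i, (βv i - αv i) := by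
  have hmeas : MeasurableSet (Bx αv βv) := MeasurableSet.univ_pi fun i => measurableSet_Ioc
  unfold phi
  rw [integral_indicator hmeas, integral_const, smul_eq_mul, mul_one]
  rw [measureReal_restrict_apply MeasurableSet.univ, Set.univ_inter]
  rw [measureReal_def, Measure.restrict_apply hmeas, Set.inter_comm]
  unfold O1 Bx
  rw [← Set.pi_inter_distrib, volume_pi_pi]
  simp_rw [vol_aux (h0 _) (h2 _)]
  rw [← ENNReal.ofReal_prod_of_nonneg (fun i _ => by linarith [h1 i]), ENNReal.toReal_ofReal]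
  exact Finset.prod_nonneg fun i _ => by linarith [h1 i]

theorem box_eq_filter {s : ℕ} {αv βv : Fin s → ℝ}
    (h2 : ∀ i, βv i ≤ 1) {X : ℝ} (hX : 1 < X) [DecidablePred fun a : Fin s → ℕ => lg X a ∈ Bx αv βv] :
    box αv βv X = (tup s X).filter (fun a => lg X a ∈ Bx αv βv) := by
  have hX0 : 0 < X := by linarith
  have hL : 0 < Real.log X := Real.log_pos hX
  have key : ∀ (γ : ℝ) (n : ℕ), 0 < n → (n ≤ ⌊X ^ γ⌋₊ ↔ Real.log n / Real.log X ≤ γ) := by
    intro γ n hn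
    have hn' : (0 : ℝ) < n := by exact_mod_cast hn
    rw [Nat.le_floor_iff (by positivity), div_le_iff₀ hL, ← Real.log_rpow hX0,
      Real.log_le_log_iff hn' (by positivity)]
  ext a
  rw [mem_box, Finset.mem_filter]
  unfold Bx tup
  rw [Fintype.mem_piFinset]
  constructor
  · intro ha
    have hpos : ∀ i, 0 < a i := fun i => by have := (ha i).1; omega
    refine ⟨fun i => ?_, ?_⟩
    · rw [Finset.mem_Icc]
      refine ⟨hpos i, (ha i).2.trans ?_⟩
      have := floor_mono hX.le (h2 i)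
      rwa [Real.rpow_one] at this
    · intro i _
      have h3 := (key (αv i) (a i) (hpos i)).not.mp (by have := (ha i).1; omega)
      have h4 := (key (βv i) (a i) (hpos i)).mp (ha i).2
      exact ⟨not_le.mp h3, h4⟩
  · rintro ⟨ha, hb⟩ i
    have hpos : 0 < a i := (Finset.mem_Icc.mp (ha i)).1
    have hbi := hb i (Set.mem_univ i)
    have h3 := (key (αv i) (a i) hpos).not.mpr (not_le.mpr hbi.1)
    have h4 := (key (βv i) (a i) hpos).mpr hbi.2
    exact ⟨not_le.mp h3, h4⟩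

theorem S0_eq {s : ℕ} (h : ℕ) {αv βv : Fin s → ℝ} (h2 : ∀ i, βv i ≤ 1)
    (ψ : (Fin s → ℝ) → ℝ) {X : ℝ} (hX : 1 < X) :
    S0 h αv βv ψ X = PW h (phi αv βv) ψ X := by
  classical
  unfold S0 PW
  rw [box_eq_filter h2 hX, Finset.sum_filter]
  apply Finset.sum_congr rfl
  intro a _
  unfold phi
  by_cases ha : lg X a ∈ Bx αv βv
  · rw [if_pos ha]
    apply Finset.sum_congr rfl
    intro b _
    rw [Set.indicator_of_mem ha, one_mul]
  · rw [if_neg ha]
    symm
    apply Finset.sum_eq_zero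
    intro b _
    rw [Set.indicator_of_notMem ha]
    ring

/-- the total sum from below -/
theorem total_ge {k s h : ℕ} (hh : h ≠ 0) {αm βm : Fin k → ℝ} {αv βv : Fin s → ℝ}
    (hβv0 : ∀ i, 0 ≤ βv i)
    (hβv1 : ∀ i, βv i ≤ 1) {ψ : (Fin s → ℝ) → ℝ} {B : ℝ} (hB0 : 0 ≤ B) (hψ0 : ∀ y, 0 ≤ ψ y)
    (hψB : ∀ y, ψ y ≤ B) {X γ : ℝ} (hX : 1 < X) (hγ : ∀ j, γ ≤ αm j) :
    (∏ j, Mp (αm j) (βm j) X) * (S0 h αv βv ψ X -
      k * (B * h * (1 + Real.log X) ^ s * (2 ^ s * X ^ (-γ) * (1 + Real.log X) ^ s))) ≤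
      ∑ d ∈ box αm βm X, ∑ a ∈ box αv βv X, ∑ b ∈ tup s X,
        (∏ j, Λ (d j)) * ψ (lg X b) *
        (Fh h (Nat.gcd ((∏ j, d j) * ∏ i, a i) (∏ i, b i)) *
          (((∏ j, (1 / (d j : ℝ))) * ∏ i, (1 / (a i : ℝ))) * (∏ i, (1 / (b i : ℝ))))) := by
  classical
  have hX0 : 0 < X := by linarith
  set E := k * (B * h * (1 + Real.log X) ^ s * (2 ^ s * X ^ (-γ) * (1 + Real.log X) ^ s)) with hE
  set D := Fintype.piFinset fun j : Fin k =>
    (Finset.Ioc ⌊X ^ (αm j)⌋₊ ⌊X ^ (βm j)⌋₊).filter Nat.Prime with hD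
  have hDsub : D ⊆ box αm βm X := by
    intro d hd
    rw [hD, Fintype.mem_piFinset] at hd
    unfold box
    rw [Fintype.mem_piFinset]
    exact fun j => (Finset.mem_filter.mp (hd j)).1
  have hfac : ∀ d : Fin k → ℕ, ∑ a ∈ box αv βv X, ∑ b ∈ tup s X,
        (∏ j, Λ (d j)) * ψ (lg X b) *
        (Fh h (Nat.gcd ((∏ j, d j) * ∏ i, a i) (∏ i, b i)) *
          (((∏ j, (1 / (d j : ℝ))) * ∏ i, (1 / (a i : ℝ))) * (∏ i, (1 / (b i : ℝ))))) =
      (∏ j, (Λ (d j) * (1 / (d j : ℝ)))) * ∑ a ∈ box αv βv X, ∑ b ∈ tup s X, ψ (lg X b) *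
      (Fh h (Nat.gcd ((∏ j, d j) * ∏ i, a i) (∏ i, b i)) *
        ((∏ i, (1 / (a i : ℝ))) * (∏ i, (1 / (b i : ℝ))))) := by
    intro d
    rw [Finset.mul_sum]
    apply Finset.sum_congr rfl
    intro a _
    rw [Finset.mul_sum]
    apply Finset.sum_congr rfl
    intro b _
    rw [Finset.prod_mul_distrib]
    ring
  have hprod : (∏ j, Mp (αm j) (βm j) X) = ∑ d ∈ D, ∏ j, (Λ (d j) * (1 / (d j : ℝ))) := by
    unfold Mp
    rw [Finset.prod_univ_sum]
    apply Finset.sum_congr rfl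
    intro d hd
    apply Finset.prod_congr rfl
    intro j _
    rw [Fintype.mem_piFinset] at hd
    have := (Finset.mem_filter.mp (hd j)).2
    rw [ArithmeticFunction.vonMangoldt_apply_prime this]
    ring
  have hnnd : ∀ d : Fin k → ℕ, 0 ≤ ∏ j, (Λ (d j) * (1 / (d j : ℝ))) := fun d =>
    Finset.prod_nonneg fun j _ => mul_nonneg ArithmeticFunction.vonMangoldt_nonneg (by positivity)
  calc _ = ∑ d ∈ D, (∏ j, (Λ (d j) * (1 / (d j : ℝ)))) * (S0 h αv βv ψ X - E) := by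
        rw [hprod, Finset.sum_mul]
    _ ≤ ∑ d ∈ D, ∑ a ∈ box αv βv X, ∑ b ∈ tup s X,
        (∏ j, Λ (d j)) * ψ (lg X b) *
        (Fh h (Nat.gcd ((∏ j, d j) * ∏ i, a i) (∏ i, b i)) *
          (((∏ j, (1 / (d j : ℝ))) * ∏ i, (1 / (a i : ℝ))) * (∏ i, (1 / (b i : ℝ))))) := by
        apply Finset.sum_le_sum
        intro d hd
        rw [hfac]
        apply mul_le_mul_of_nonneg_left _ (hnnd d)
        rw [hD, Fintype.mem_piFinset] at hd
        have hprime : ∀ j, (d j).Prime := fun j => (Finset.mem_filter.mp (hd j)).2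
        have hρ : ∀ j, 1 / (d j : ℝ) ≤ X ^ (-γ) := by
          intro j
          have h1 := (Finset.mem_Ioc.mp (Finset.mem_filter.mp (hd j)).1).1
          have h2 : X ^ (αm j) < d j := Nat.lt_of_floor_lt h1
          have h3 : X ^ γ ≤ d j :=
            (Real.rpow_le_rpow_of_exponent_le hX.le (hγ j)).trans h2.le
          rw [Real.rpow_neg hX0.le, one_div]
          exact inv_anti₀ (by positivity) h3
        exact inner_ge hh hβv0 hβv1 hB0 hψ0 hψB hX d hprime hρ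
    _ ≤ _ := by
        apply Finset.sum_le_sum_of_subset_of_nonneg hDsub
        intro d _ _
        rw [hfac]
        apply mul_nonneg (hnnd d)
        apply Finset.sum_nonneg
        intro a _
        apply Finset.sum_nonneg
        intro b _
        apply mul_nonneg (hψ0 _) (mul_nonneg (Fh_nonneg _ _) (mul_nonneg _ _)) <;>
        exact Finset.prod_nonneg fun i _ => by positivity

end IL7

open IL7 in
theorem prfL7 : claimL7 := by
  intro hPW h5 _ s k h hh αm βm αv βv hαm hαβm hβm1 hαv hαβv hβv1 ψ B hψ0 hψB hψc c hc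
  classical
  have hB0 : 0 ≤ B := (hψ0 0).trans (hψB 0)
  -- a positive lower bound for the exponents of the marks
  obtain ⟨γ, hγ0, hγ⟩ : ∃ γ : ℝ, 0 < γ ∧ ∀ j, γ ≤ αm j := by
    rcases isEmpty_or_nonempty (Fin k) with hk | hk
    · exact ⟨1, one_pos, fun j => (hk.false j).elim⟩
    · obtain ⟨j0, hj0⟩ := Finite.exists_min αm
      exact ⟨αm j0, hαm j0, hj0⟩
  -- limits
  have hlim1 : Tendsto (fun X : ℝ => ∏ j, (Mp (αm j) (βm j) X / Real.log X)) atTop
      (𝓝 (∏ j, (βm j - αm j))) :=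
    tendsto_finsetProd _ fun j _ => tendsto_Mp h5 (hαm j).le (hαβm j)
  have hmax : ∀ y, |phi αv βv y| ≤ max B 1 := by
    intro y
    unfold phi
    by_cases hy : y ∈ Bx αv βv
    · rw [Set.indicator_of_mem hy, abs_one]
      exact le_max_right _ _
    · rw [Set.indicator_of_notMem hy, abs_zero]
      exact zero_le_one.trans (le_max_right _ _)
  have hlim2 := hPW s h hh (phi αv βv) ψ (max B 1) hmax (phi_cont αv βv)
    (fun y => by
      rw [abs_of_nonneg (hψ0 y)]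
      exact (hψB y).trans (le_max_left _ _)) hψc
  rw [integral_phi hαv hαβv hβv1] at hlim2
  have hlim3 : Tendsto (fun X : ℝ => k * (B * h * ((1 + Real.log X) / Real.log X) ^ s *
      (2 ^ s * X ^ (-γ) * ((1 + Real.log X) / Real.log X) ^ s))) atTop (𝓝 0) := by
    have h1 : Tendsto (fun X : ℝ => (1 + Real.log X) / Real.log X) atTop (𝓝 1) := by
      have h2 : Tendsto (fun X : ℝ => 1 / Real.log X + 1) atTop (𝓝 (0 + 1)) :=
        (Tendsto.const_div_atTop Real.tendsto_log_atTop _).add_const 1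
      rw [zero_add] at h2
      refine h2.congr' ?_
      filter_upwards [eventually_gt_atTop 1] with X hX
      have := Real.log_pos hX
      field_simp
    have h3 := tendsto_rpow_neg_atTop hγ0
    have h4 : Tendsto (fun X : ℝ => k * (B * h * ((1 + Real.log X) / Real.log X) ^ s *
      (2 ^ s * X ^ (-γ) * ((1 + Real.log X) / Real.log X) ^ s))) atTop
        (𝓝 (k * (B * h * 1 ^ s * (2 ^ s * 0 * 1 ^ s)))) :=
      (((h1.pow s).const_mul (B * h)).mul ((h3.const_mul (2 ^ s)).mul (h1.pow s))).const_mul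
        (k : ℝ)
    simpa using h4
  have hlim := hlim1.mul (hlim2.sub hlim3)
  have hval : (∏ j, (βm j - αm j)) * (Csing s h * ((∏ i, (βv i - αv i)) * ∫ y in O1 s, ψ y) - 0) =
      Csing s h * (((∏ j, (βm j - αm j)) * ∏ i, (βv i - αv i)) * ∫ y in O1 s, ψ y) := by ring
  rw [hval] at hlim
  filter_upwards [hlim.eventually (lt_mem_nhds hc), eventually_gt_atTop 1] with X hX1 hX
  have hL : 0 < Real.log X := Real.log_pos hX
  refine le_trans ?_ (total_ge (αm := αm) (βm := βm) (αv := αv) (βv := βv) hh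
    (fun i => (hαv i).trans (hαβv i)) hβv1 hB0 hψ0 hψB hX hγ)
  rw [S0_eq h hβv1 ψ hX]
  have heq : (∏ j, Mp (αm j) (βm j) X) * (PW h (phi αv βv) ψ X -
      k * (B * h * (1 + Real.log X) ^ s * (2 ^ s * X ^ (-γ) * (1 + Real.log X) ^ s))) =
      ((∏ j, (Mp (αm j) (βm j) X / Real.log X)) *
      (PW h (phi αv βv) ψ X / (Real.log X) ^ (2 * s) -
      k * (B * h * ((1 + Real.log X) / Real.log X) ^ s *
      (2 ^ s * X ^ (-γ) * ((1 + Real.log X) / Real.log X) ^ s)))) *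
      (Real.log X) ^ (k + 2 * s) := by
    rw [Finset.prod_div_distrib, Finset.prod_const, Finset.card_univ, Fintype.card_fin, pow_add,
      two_mul, pow_add, div_pow]
    field_simp
  rw [heq]
  exact mul_le_mul_of_nonneg_right hX1.le (by positivity)

end Pool.Agent.Work.MP_122e00_nt.Two
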