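import Pool.Agent.Work.MP_122e00_nt.Two.Stmts
import Pool.Agent.Work.MP_122e00_nt.Bdx.B07

set_option autoImplicit false

/-!
# Item T6: the total mass from above (helper18)
-/

namespace Pool.Agent.Work.MP_122e00_nt.Two

open Finset Filter Topology MeasureTheory

open scoped ArithmeticFunction.vonMangoldt ArithmeticFunction.zeta

namespace IT6

variable {s : ℕ}

/-- The weight of a product. -/
noncomputable def wt (φ : (Fin s → ℝ) → ℝ) (X : ℝ) (m : ℕ) : ℝ :=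
  ∑ a ∈ tup s X, if ∏ i, a i = m then φ (lg X a) else 0

theorem mem_tup {X : ℝ} {a : Fin s → ℕ} : a ∈ tup s X ↔ ∀ i, 1 ≤ a i ∧ a i ≤ ⌊X⌋₊ := by
  simp [tup, Fintype.mem_piFinset]

theorem prod_pos_of_mem {X : ℝ} {a : Fin s → ℕ} (ha : a ∈ tup s X) : 0 < ∏ i, a i :=
  Finset.prod_pos fun i _ => (mem_tup.1 ha i).1

theorem wt_nonneg {φ : (Fin s → ℝ) → ℝ} (hφ : ∀ y, 0 ≤ φ y) (X : ℝ) (m : ℕ) : 0 ≤ wt φ X m := by
  refine Finset.sum_nonneg fun a _ => ?_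
  split_ifs
  · exact hφ _
  · exact le_rfl

theorem regroup (φ : (Fin s → ℝ) → ℝ) (X : ℝ) (M : ℕ)
    (hsupp : ∀ a ∈ tup s X, φ (lg X a) ≠ 0 → ∏ i, a i ≤ M) (f : ℕ → ℝ) :
    ∑ m ∈ Finset.Icc 1 M, wt φ X m * f m = ∑ a ∈ tup s X, φ (lg X a) * f (∏ i, a i) := by
  unfold wt
  simp_rw [Finset.sum_mul]
  rw [Finset.sum_comm]
  refine Finset.sum_congr rfl fun a ha => ?_
  by_cases h0 : φ (lg X a) = 0
  · simp [h0]
  · have h1 := hsupp a ha h0
    have h2 : 1 ≤ ∏ i, a i := prod_pos_of_mem ha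
    rw [Finset.sum_eq_single (∏ i, a i)]
    · rw [if_pos rfl]
    · intro m _ hm
      rw [if_neg (Ne.symm hm), zero_mul]
    · intro h3
      exact absurd (Finset.mem_Icc.2 ⟨h2, h1⟩) h3

theorem wt_supp {φ : (Fin s → ℝ) → ℝ} {X : ℝ} {m : ℕ} (h : wt φ X m ≠ 0) :
    ∃ a ∈ tup s X, ∏ i, a i = m ∧ φ (lg X a) ≠ 0 := by
  obtain ⟨a, ha, h1⟩ := Finset.exists_ne_zero_of_sum_ne_zero h
  split_ifs at h1 with h2
  · exact ⟨a, ha, h2, h1⟩
  · exact absurd rfl h1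

theorem wt_le {φ : (Fin s → ℝ) → ℝ} {B : ℝ} (hB0 : 0 ≤ B) (hB : ∀ y, φ y ≤ B) (X : ℝ) {m : ℕ}
    (hm : m ≠ 0) : wt φ X m ≤ B * (m.divisors.card : ℝ) ^ s := by
  unfold wt
  rw [← Finset.sum_filter]
  calc ∑ a ∈ (tup s X).filter (fun a => ∏ i, a i = m), φ (lg X a)
      ≤ ∑ _a ∈ (tup s X).filter (fun a => ∏ i, a i = m), B := Finset.sum_le_sum fun a _ => hB _
    _ = (((tup s X).filter (fun a => ∏ i, a i = m)).card : ℝ) * B := by
        rw [Finset.sum_const, nsmul_eq_mul]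
    _ ≤ ((Fintype.piFinset (fun _ : Fin s => m.divisors)).card : ℝ) * B := by
        apply mul_le_mul_of_nonneg_right _ hB0
        exact_mod_cast Finset.card_le_card (fun a ha => by
          rw [Finset.mem_filter] at ha
          rw [Fintype.mem_piFinset]
          intro i
          rw [Nat.mem_divisors]
          exact ⟨ha.2 ▸ Finset.dvd_prod_of_mem a (Finset.mem_univ i), hm⟩)
    _ = B * (m.divisors.card : ℝ) ^ s := by
        rw [Fintype.card_piFinset_const]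
        push_cast
        ring

theorem sum_lg {X : ℝ} {a : Fin s → ℕ} (ha : a ∈ tup s X) :
    ∑ i, lg X a i = Real.log ((∏ i, a i : ℕ) : ℝ) / Real.log X := by
  unfold lg
  rw [← Finset.sum_div, Nat.cast_prod, Real.log_prod]
  intro i _
  have := (mem_tup.1 ha i).1
  exact_mod_cast (by omega : a i ≠ 0)

theorem prod_le {X : ℝ} (hX : 1 < X) {a : Fin s → ℕ} (ha : a ∈ tup s X) {u : ℝ}
    (h : ∑ i, lg X a i ≤ u) : ∏ i, a i ≤ ⌊X ^ u⌋₊ := by
  apply Nat.le_floor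
  have h0 : (0 : ℝ) < ((∏ i, a i : ℕ) : ℝ) := by exact_mod_cast prod_pos_of_mem ha
  have hL : 0 < Real.log X := Real.log_pos hX
  rw [sum_lg ha, div_le_iff₀ hL] at h
  rw [← Real.exp_log h0, Real.rpow_def_of_pos (by linarith), Real.exp_le_exp]
  linarith

theorem lg_mem_Rs {X : ℝ} (hX : 1 < X) {a : Fin s → ℕ} (ha : a ∈ tup s X)
    (h : ∀ j, ((a j * ∏ i, a i : ℕ) : ℝ) ≤ X) : lg X a ∈ Rs s := by
  intro j
  have hL : 0 < Real.log X := Real.log_pos hX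
  have h0 : (0 : ℝ) < ((∏ i, a i : ℕ) : ℝ) := by exact_mod_cast prod_pos_of_mem ha
  have h1 : (0 : ℝ) < (a j : ℝ) := by exact_mod_cast (mem_tup.1 ha j).1
  rw [sum_lg ha]
  unfold lg
  rw [← add_div, div_le_one hL, ← Real.log_mul h0.ne' h1.ne']
  apply Real.log_le_log (by positivity)
  have := h j
  push_cast at this ⊢
  rw [mul_comm]
  exact this

theorem sum_le_of_mem_Rs {y : Fin s → ℝ} (hy : y ∈ Rs s) :
    ∑ i, y i ≤ 1 - 1 / ((s : ℝ) + 1) := by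
  have h1 : ∑ j : Fin s, (∑ i, y i + y j) ≤ ∑ _j : Fin s, (1 : ℝ) :=
    Finset.sum_le_sum fun j _ => hy j
  rw [Finset.sum_add_distrib, Finset.sum_const, Finset.sum_const, Finset.card_univ,
    Fintype.card_fin, nsmul_eq_mul, nsmul_eq_mul, mul_one] at h1
  have hs : (0 : ℝ) < (s : ℝ) + 1 := by positivity
  rw [le_sub_iff_add_le, ← sub_nonneg]
  have h2 : 1 - (∑ i, y i + 1 / ((s : ℝ) + 1)) = ((s : ℝ) - (s * ∑ i, y i + ∑ i, y i)) / (s + 1) := by
    field_simp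
    ring
  rw [h2]
  exact div_nonneg (by linarith) hs.le

/-- The indicator of the region. -/
noncomputable def ph (s : ℕ) : (Fin s → ℝ) → ℝ := (Rs s).indicator fun _ => 1

theorem ph_nonneg (y : Fin s → ℝ) : 0 ≤ ph s y :=
  Set.indicator_nonneg (fun _ _ => zero_le_one) y

theorem ph_le (y : Fin s → ℝ) : ph s y ≤ 1 :=
  Set.indicator_le_self' (fun _ _ => zero_le_one) y

theorem ph_ne {y : Fin s → ℝ} (h : ph s y ≠ 0) : y ∈ Rs s := by
  by_contra h1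
  exact h (Set.indicator_of_notMem h1 _)

theorem ph_cont (hL6 : claimL6) : ∀ᵐ y, ContinuousAt (ph s) y := by
  have h1 : ∀ j : Fin s, ∀ᵐ y : Fin s → ℝ, ∑ i, y i + y j ≠ 1 := by
    intro j
    have h2 := hL6 (Fin s) (fun i => 1 + if i = j then 1 else 0) 1 (fun h => by
      have h3 := congrFun h j
      simp at h3)
    rw [ae_iff]
    convert h2 using 2
    ext y
    have h3 : ∑ i, (1 + if i = j then (1 : ℝ) else 0) * y i = ∑ i, y i + y j := by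
      simp [add_mul, Finset.sum_add_distrib]
    show ¬ (∑ i, y i + y j ≠ 1) ↔ ∑ i, (1 + if i = j then (1 : ℝ) else 0) * y i = 1
    rw [h3, not_not]
  have h2 : ∀ᵐ y : Fin s → ℝ, ∀ j : Fin s, ∑ i, y i + y j ≠ 1 := ae_all_iff.2 h1
  filter_upwards [h2] with y hy
  have hc : ∀ j : Fin s, Continuous fun y : Fin s → ℝ => ∑ i, y i + y j := fun j => by fun_prop
  by_cases h3 : ∀ j : Fin s, ∑ i, y i + y j < 1
  · have h4 : ∀ᶠ y' in 𝓝 y, ∀ j : Fin s, ∑ i, y' i + y' j < 1 :=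
      eventually_all.2 fun j => (hc j).continuousAt.eventually_lt continuousAt_const (h3 j)
    have h5 : ph s =ᶠ[𝓝 y] fun _ => 1 := by
      filter_upwards [h4] with y' hy'
      have h6 : y' ∈ Rs s := fun j => (hy' j).le
      exact Set.indicator_of_mem h6 _
    exact continuousAt_const.congr h5.symm
  · push Not at h3
    obtain ⟨j, hj⟩ := h3
    have h4 : 1 < ∑ i, y i + y j := lt_of_le_of_ne hj (hy j).symm
    have h5 : ph s =ᶠ[𝓝 y] fun _ => 0 := by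
      filter_upwards [continuousAt_const.eventually_lt (hc j).continuousAt h4] with y' hy'
      have h6 : y' ∉ Rs s := fun h6 => absurd (h6 j) (not_le.2 hy')
      exact Set.indicator_of_notMem h6 _
    exact continuousAt_const.congr h5.symm

theorem int_ph : ∫ y in O1 s, ph s y = volume.real (Rs s ∩ O1 s) := by
  have hm : MeasurableSet (Rs s) := by
    have h1 : Rs s = ⋂ j : Fin s, {y : Fin s → ℝ | ∑ i, y i + y j ≤ 1} := by
      ext y
      simp [Rs]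
    rw [h1]
    refine MeasurableSet.iInter fun j => measurableSet_le ?_ measurable_const
    fun_prop
  unfold ph
  rw [integral_indicator_const (1 : ℝ) hm, measureReal_restrict_apply hm, smul_eq_mul, mul_one]

theorem GM_eq (h : ℕ) (φ ψ : (Fin s → ℝ) → ℝ) (X : ℝ) (M Q : ℕ)
    (h1 : ∀ a ∈ tup s X, φ (lg X a) ≠ 0 → ∏ i, a i ≤ M)
    (h2 : ∀ a ∈ tup s X, ψ (lg X a) ≠ 0 → ∏ i, a i ≤ Q) :
    GM h (wt φ X) (wt ψ X) M Q = PW h φ ψ X := by
  unfold GM PW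
  have e1 : ∀ m ∈ Finset.Icc 1 M, ∑ e ∈ Finset.Icc 1 Q, wt φ X m * wt ψ X e *
      (Fh h (Nat.gcd m e) / (m * e)) = wt φ X m * ∑ b ∈ tup s X, ψ (lg X b) *
        (Fh h (Nat.gcd m (∏ i, b i)) / (m * ((∏ i, b i : ℕ) : ℝ))) := by
    intro m _
    rw [← regroup ψ X Q h2 (fun e => Fh h (Nat.gcd m e) / (m * (e : ℝ))), Finset.mul_sum]
    refine Finset.sum_congr rfl fun e _ => ?_
    ring
  rw [Finset.sum_congr rfl e1, regroup φ X M h1 (fun m => ∑ b ∈ tup s X, ψ (lg X b) *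
        (Fh h (Nat.gcd m (∏ i, b i)) / (m * ((∏ i, b i : ℕ) : ℝ))))]
  refine Finset.sum_congr rfl fun a _ => ?_
  rw [Finset.mul_sum]
  refine Finset.sum_congr rfl fun b _ => ?_
  have e2 : ∀ c : Fin s → ℕ, ∏ i, (1 / (c i : ℝ)) = 1 / ((∏ i, c i : ℕ) : ℝ) := by
    intro c
    rw [Nat.cast_prod, Finset.prod_div_distrib, Finset.prod_const_one]
  rw [e2, e2]
  by_cases ha : ((∏ i, a i : ℕ) : ℝ) = 0
  · rw [ha]; simp
  by_cases hb : ((∏ i, b i : ℕ) : ℝ) = 0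
  · rw [hb]; simp
  field_simp

theorem Apsi_eq (ψ : (Fin s → ℝ) → ℝ) (X : ℝ) (z : ℤ) (n Q : ℕ)
    (h2 : ∀ a ∈ tup s X, ψ (lg X a) ≠ 0 → ∏ i, a i ≤ Q) :
    Apsi ψ X z n = ∑ e ∈ Finset.Icc 1 Q, if (e : ℤ) ∣ (n : ℤ) - z then wt ψ X e else 0 := by
  have h1 := regroup ψ X Q h2 (fun e => if (e : ℤ) ∣ (n : ℤ) - z then 1 else 0)
  have h3 : ∑ e ∈ Finset.Icc 1 Q, (if (e : ℤ) ∣ (n : ℤ) - z then wt ψ X e else 0) =
      ∑ m ∈ Finset.Icc 1 Q, wt ψ X m * (if (m : ℤ) ∣ (n : ℤ) - z then 1 else 0) :=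
    Finset.sum_congr rfl fun e _ => by split_ifs <;> simp
  rw [h3, h1]
  unfold Apsi
  exact Finset.sum_congr rfl fun e _ => by split_ifs <;> simp

theorem zeta_le (hT5 : claimT5) {X : ℝ} (hX : 1 < X) (n M : ℕ) (hn : n ≠ 0) (hnX : (n : ℝ) ≤ X)
    (h1 : ∀ a ∈ tup s X, ph s (lg X a) ≠ 0 → ∏ i, a i ≤ M) :
    (((ζ : ArithmeticFunction ℕ) ^ (s + 1)) n : ℝ) ≤
      (s + 1) * ∑ m ∈ Finset.Icc 1 M, if m ∣ n then wt (ph s) X m else 0 := by
  have h2 := regroup (ph s) X M h1 (fun m => if m ∣ n then 1 else 0)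
  have h3 : ∑ m ∈ Finset.Icc 1 M, (if m ∣ n then wt (ph s) X m else 0) =
      ∑ m ∈ Finset.Icc 1 M, wt (ph s) X m * (if m ∣ n then 1 else 0) :=
    Finset.sum_congr rfl fun e _ => by split_ifs <;> simp
  rw [h3, h2]
  have h4 : (((ζ : ArithmeticFunction ℕ) ^ (s + 1)) n : ℝ) ≤ (s + 1) *
      (((Fintype.piFinset (fun _ : Fin s => n.divisors)).filter
        (fun a => (∏ i, a i) ∣ n ∧ ∀ j, a j * (∏ i, a i) ≤ n)).card : ℝ) := by
    exact_mod_cast hT5 s n hn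
  refine h4.trans (mul_le_mul_of_nonneg_left ?_ (by positivity))
  rw [Finset.card_eq_sum_ones, Nat.cast_sum]
  have hsub : (Fintype.piFinset (fun _ : Fin s => n.divisors)).filter
        (fun a => (∏ i, a i) ∣ n ∧ ∀ j, a j * (∏ i, a i) ≤ n) ⊆ tup s X := by
    intro a ha
    rw [Finset.mem_filter, Fintype.mem_piFinset] at ha
    rw [mem_tup]
    intro i
    have h5 := ha.1 i
    rw [Nat.mem_divisors] at h5
    refine ⟨Nat.pos_of_dvd_of_pos h5.1 (Nat.pos_of_ne_zero hn), Nat.le_floor ?_⟩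
    exact le_trans (by exact_mod_cast Nat.le_of_dvd (Nat.pos_of_ne_zero hn) h5.1) hnX
  refine (Finset.sum_le_sum fun a ha => ?_).trans (Finset.sum_le_sum_of_subset_of_nonneg hsub
    fun a _ _ => ?_)
  · have h5 := hsub ha
    rw [Finset.mem_filter] at ha
    have h6 : lg X a ∈ Rs s := lg_mem_Rs hX h5 fun j =>
      le_trans (by exact_mod_cast ha.2.2 j) hnX
    rw [if_pos ha.2.1, mul_one]
    unfold ph
    rw [Set.indicator_of_mem h6]
    simp
  · refine mul_nonneg (ph_nonneg _) ?_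
    split_ifs
    · exact zero_le_one
    · exact le_rfl

end IT6

theorem prfT6 : claimT6 := by
  intro hGC hPW hL6 hT5 s h hs hh θ hθ hθ2 ψ hψ z hz η hη hη1 c hc
  obtain ⟨B₀, hB₀⟩ := hψ.bdd
  obtain ⟨B, hB, hB1⟩ : ∃ B : ℝ, (∀ y, ψ y ≤ B) ∧ 1 ≤ B :=
    ⟨max B₀ 1, fun y => (hB₀ y).trans (le_max_left _ _), le_max_right _ _⟩
  set V := η * (Csing s h * (((s + 1) * volume.real (Rs s ∩ O1 s)) * ∫ y in O1 s, ψ y)) with hV
  -- the choice of `lam`
  obtain ⟨lam, ⟨hlam1, hlam2⟩, hlamc⟩ : ∃ lam : ℝ, (1 < lam ∧ lam ≤ 2) ∧ lam * V < c := by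
    have h1 : Tendsto (fun l : ℝ => l * V) (𝓝[>] 1) (𝓝 (1 * V)) :=
      ((continuous_id.mul continuous_const).tendsto 1).mono_left nhdsWithin_le_nhds
    rw [one_mul] at h1
    have h2 : ∀ᶠ l in 𝓝[>] (1 : ℝ), l * V < c := h1.eventually_lt_const hc
    have h3 : ∀ᶠ l in 𝓝[>] (1 : ℝ), 1 < l ∧ l ≤ 2 := by
      filter_upwards [Ioo_mem_nhdsGT (show (1 : ℝ) < 2 by norm_num)] with l hl
      exact ⟨hl.1, hl.2.le⟩
    exact (h3.and h2).exists
  obtain ⟨c', hc'1, hc'2⟩ := exists_between hlamc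
  -- the level
  set th := min θ (1 / ((s : ℝ) + 1)) with hth
  have hs0 : (0 : ℝ) < (s : ℝ) + 1 := by positivity
  have hth0 : 0 < th := lt_min hθ (by positivity)
  have hth1 : th ≤ θ := min_le_left _ _
  have hth2 : th ≤ 1 / ((s : ℝ) + 1) := min_le_right _ _
  have hth3 : th ≤ 1 / 2 := hth1.trans hθ2.le
  obtain ⟨C, hC⟩ := hGC h th lam 0 η hh hth0 hth3 hlam1 hlam2 le_rfl (by rw [zero_mul]; exact hη.le) hη1
  have hPW' := hPW s h hh (IT6.ph s) ψ B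
    (fun y => by rw [abs_of_nonneg (IT6.ph_nonneg y)]; exact (IT6.ph_le y).trans hB1)
    (IT6.ph_cont hL6) (fun y => by rw [abs_of_nonneg (hψ.nonneg y)]; exact hB y) hψ.cont
  rw [IT6.int_ph] at hPW'
  have hlim : Tendsto (fun X : ℝ => ((s : ℝ) + 1) * (lam * η) *
      (PW h (IT6.ph s) ψ X / (Real.log X) ^ (2 * s))) atTop (𝓝 (lam * V)) := by
    have h1 := hPW'.const_mul (((s : ℝ) + 1) * (lam * η))
    have h2 : ((s : ℝ) + 1) * (lam * η) * (Csing s h * (volume.real (Rs s ∩ O1 s) *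
        ∫ y in O1 s, ψ y)) = lam * V := by
      rw [hV]; ring
    rw [h2] at h1
    exact h1
  have hev1 := hlim.eventually_lt_const hc'1
  have hev2 : ∀ᶠ X : ℝ in atTop, ((s : ℝ) + 1) * |C| / (c - c') ≤ X ^ (th / 40) :=
    (tendsto_rpow_atTop (by linarith : 0 < th / 40)).eventually_ge_atTop _
  have hev3 : ∀ᶠ X : ℝ in atTop, B ≤ X ^ (th / 80) :=
    (tendsto_rpow_atTop (by linarith : 0 < th / 80)).eventually_ge_atTop _
  filter_upwards [hC, hev1, hev2, hev3, divisor_bound s (show 0 < th / 80 by linarith),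
    eventually_ge_atTop (Real.exp 1)] with X hX1 hX2 hX3 hX4 hX5 hX6
  have hXe : (1 : ℝ) < X := by
    have := Real.add_one_lt_exp (one_ne_zero : (1 : ℝ) ≠ 0)
    linarith
  have hX0 : 0 < X := by linarith
  have hlog : 1 ≤ Real.log X := by
    rw [Real.le_log_iff_exp_le hX0]
    exact hX6
  have hsφ : ∀ a ∈ tup s X, IT6.ph s (lg X a) ≠ 0 → ∏ i, a i ≤ ⌊X ^ (1 - th)⌋₊ := by
    intro a ha h1
    have h2 := IT6.sum_le_of_mem_Rs (IT6.ph_ne h1)
    exact IT6.prod_le hXe ha (h2.trans (by linarith))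
  have hsψ : ∀ a ∈ tup s X, ψ (lg X a) ≠ 0 → ∏ i, a i ≤ ⌊X ^ (1 / 2 - th)⌋₊ := by
    intro a ha h1
    exact IT6.prod_le hXe ha ((hψ.supp _ h1).2.trans (by linarith))
  have hbd : ∀ φ : (Fin s → ℝ) → ℝ, (∀ y, φ y ≤ B) → (∀ a ∈ tup s X, φ (lg X a) ≠ 0 →
      ((∏ i, a i : ℕ) : ℝ) ≤ X) → ∀ m, IT6.wt φ X m ≤ X ^ (th / 40) := by
    intro φ hφ hφs m
    by_cases h0 : IT6.wt φ X m = 0
    · rw [h0]
      positivity
    · obtain ⟨a, ha, h1, h2⟩ := IT6.wt_supp h0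
      have h3 : m ≠ 0 := by
        rw [← h1]
        exact (IT6.prod_pos_of_mem ha).ne'
      refine (IT6.wt_le (by linarith) hφ X h3).trans ?_
      have h4 : (m : ℝ) ≤ X := by
        rw [← h1]
        exact hφs a ha h2
      have h5 : X ^ (th / 40) = X ^ (th / 80) * X ^ (th / 80) := by
        rw [← Real.rpow_add hX0]
        congr 1
        ring
      rw [h5]
      exact mul_le_mul hX4 (hX5 m h3 h4) (by positivity) (by positivity)
  have hfl : ∀ u : ℝ, 0 ≤ u → ∀ v : ℝ, v ≤ 1 → u ≤ (⌊X ^ v⌋₊ : ℝ) → u ≤ X := by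
    intro u _ v hv hu
    refine hu.trans ((Nat.floor_le (by positivity)).trans ?_)
    calc X ^ v ≤ X ^ (1 : ℝ) := Real.rpow_le_rpow_of_exponent_le hXe.le hv
      _ = X := Real.rpow_one X
  have hb1 := hbd (IT6.ph s) (fun y => (IT6.ph_le y).trans hB1) (fun a ha h1 =>
    hfl _ (by positivity) (1 - th) (by linarith) (by exact_mod_cast hsφ a ha h1))
  have hb2 := hbd ψ hB (fun a ha h1 =>
    hfl _ (by positivity) (1 / 2 - th) (by linarith) (by exact_mod_cast hsψ a ha h1))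
  have hup := (hX1 (IT6.wt (IT6.ph s) X) (IT6.wt ψ X) (IT6.wt_nonneg IT6.ph_nonneg X) hb1
    (IT6.wt_nonneg hψ.nonneg X) hb2 z hz).2
  rw [IT6.GM_eq h _ _ X _ _ hsφ hsψ, zero_mul, Nat.floor_zero, sub_zero] at hup
  have hle : ∑ n ∈ Finset.Icc 1 ⌊η * X⌋₊,
      Apsi ψ X z n * (((ζ : ArithmeticFunction ℕ) ^ (s + 1)) n : ℝ) ≤
      (s + 1) * GC (IT6.wt (IT6.ph s) X) (IT6.wt ψ X) 0 ⌊η * X⌋₊ ⌊X ^ (1 - th)⌋₊
        ⌊X ^ (1 / 2 - th)⌋₊ z := by
    unfold GC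
    rw [Finset.mul_sum]
    have hI : Finset.Icc 1 ⌊η * X⌋₊ = Finset.Ioc 0 ⌊η * X⌋₊ := rfl
    rw [hI]
    refine Finset.sum_le_sum fun n hn => ?_
    rw [Finset.mem_Ioc] at hn
    have hn0 : n ≠ 0 := by omega
    have hnX : (n : ℝ) ≤ X := by
      have h1 : (n : ℝ) ≤ (⌊η * X⌋₊ : ℝ) := by exact_mod_cast hn.2
      refine h1.trans ((Nat.floor_le (by positivity)).trans ?_)
      nlinarith
    have h1 := IT6.zeta_le hT5 hXe n _ hn0 hnX hsφ
    rw [IT6.Apsi_eq ψ X z n _ hsψ]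
    have h2 : 0 ≤ ∑ e ∈ Finset.Icc 1 ⌊X ^ (1 / 2 - th)⌋₊,
        if (e : ℤ) ∣ (n : ℤ) - z then IT6.wt ψ X e else 0 := by
      refine Finset.sum_nonneg fun e _ => ?_
      split_ifs
      · exact IT6.wt_nonneg hψ.nonneg X e
      · exact le_rfl
    calc _ ≤ (∑ e ∈ Finset.Icc 1 ⌊X ^ (1 / 2 - th)⌋₊,
        if (e : ℤ) ∣ (n : ℤ) - z then IT6.wt ψ X e else 0) * ((s + 1) *
          ∑ m ∈ Finset.Icc 1 ⌊X ^ (1 - th)⌋₊, if m ∣ n then IT6.wt (IT6.ph s) X m else 0) :=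
          mul_le_mul_of_nonneg_left h1 h2
      _ = _ := by ring
  refine hle.trans ((mul_le_mul_of_nonneg_left hup hs0.le).trans ?_)
  have hLp : 0 < (Real.log X) ^ (2 * s) := by positivity
  have h1 : ((s : ℝ) + 1) * (lam * η) * PW h (IT6.ph s) ψ X ≤ c' * (Real.log X) ^ (2 * s) := by
    have h2 := hX2.le
    rw [← mul_div_assoc, div_le_iff₀ hLp] at h2
    exact h2
  have h2 : ((s : ℝ) + 1) * (C * (X / X ^ (th / 40))) ≤ (c - c') * X := by
    have hp : 0 < X ^ (th / 40) := by positivity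
    have h3 : ((s : ℝ) + 1) * |C| ≤ (c - c') * X ^ (th / 40) := by
      rw [div_le_iff₀ (by linarith)] at hX3
      linarith
    have h4 : ((s : ℝ) + 1) * (C * (X / X ^ (th / 40))) =
        (((s : ℝ) + 1) * C) * X / X ^ (th / 40) := by ring
    rw [h4, div_le_iff₀ hp]
    have h5 : ((s : ℝ) + 1) * C ≤ ((s : ℝ) + 1) * |C| :=
      mul_le_mul_of_nonneg_left (le_abs_self C) hs0.le
    calc ((s : ℝ) + 1) * C * X ≤ ((c - c') * X ^ (th / 40)) * X :=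
          mul_le_mul_of_nonneg_right (h5.trans h3) hX0.le
      _ = _ := by ring
  have h6 : (1 : ℝ) ≤ (Real.log X) ^ (2 * s) := one_le_pow₀ hlog
  have h7 : (c - c') * X ≤ (c - c') * X * (Real.log X) ^ (2 * s) :=
    le_mul_of_one_le_right (mul_nonneg (by linarith) hX0.le) h6
  calc ((s : ℝ) + 1) * (lam * η * X * PW h (IT6.ph s) ψ X + C * (X / X ^ (th / 40)))
      = X * (((s : ℝ) + 1) * (lam * η) * PW h (IT6.ph s) ψ X) +
          ((s : ℝ) + 1) * (C * (X / X ^ (th / 40))) := by ring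
    _ ≤ X * (c' * (Real.log X) ^ (2 * s)) + (c - c') * X * (Real.log X) ^ (2 * s) :=
        add_le_add (mul_le_mul_of_nonneg_left h1 hX0.le) (h2.trans h7)
    _ = c * (X * (Real.log X) ^ (2 * s)) := by ring

end Pool.Agent.Work.MP_122e00_nt.Two
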