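import Pool.Agent.Work.MP_122e00_nt.Two.Stmts

set_option autoImplicit false

/-!
# Shifted divisor sums with marks: item T7
-/

namespace Pool.Agent.Work.MP_122e00_nt.Two

open Finset Filter Topology MeasureTheory

namespace IT7

/-- the open simplex of size `R` -/
def Dl (s : ℕ) (R : ℝ) : Set (Fin s → ℝ) := {y | (∀ i, 0 < y i) ∧ ∑ i, y i < R}

theorem measurable_Dl (s : ℕ) (R : ℝ) : MeasurableSet (Dl s R) := by
  have h1 : MeasurableSet {y : Fin s → ℝ | ∀ i, 0 < y i} := by
    have : {y : Fin s → ℝ | ∀ i, 0 < y i} = ⋂ i, {y : Fin s → ℝ | 0 < y i} := by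
      ext y
      simp
    rw [this]
    exact MeasurableSet.iInter fun i => measurableSet_lt measurable_const (measurable_pi_apply i)
  have h2 : MeasurableSet {y : Fin s → ℝ | ∑ i, y i < R} :=
    measurableSet_lt (Finset.measurable_sum _ fun i _ => measurable_pi_apply i) measurable_const
  exact h1.inter h2

theorem integral_calc (s : ℕ) (R : ℝ) : ∫ t in (0 : ℝ)..R, (R - t) ^ s / (s.factorial : ℝ) =
    R ^ (s + 1) / ((s + 1).factorial : ℝ) := by
  rw [intervalIntegral.integral_div,
    intervalIntegral.integral_comp_sub_left (fun x => x ^ s) R, integral_pow]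
  rw [sub_self, sub_zero, Nat.factorial_succ]
  push_cast
  field_simp
  simp

theorem vol_Dl (s : ℕ) : ∀ R : ℝ, 0 ≤ R →
    volume (Dl s R) ≤ ENNReal.ofReal (R ^ s / (s.factorial : ℝ)) := by
  induction s with
  | zero =>
    intro R _
    refine (measure_mono (Set.subset_univ _)).trans ?_
    simp [MeasureTheory.volume_pi]
  | succ s ih =>
    intro R hR
    set S : Set (ℝ × (Fin s → ℝ)) := {p | 0 < p.1 ∧ (∀ i, 0 < p.2 i) ∧ p.1 + ∑ i, p.2 i < R} with hS
    have hSm : MeasurableSet S := by
      have h1 : MeasurableSet {p : ℝ × (Fin s → ℝ) | 0 < p.1} :=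
        measurableSet_lt measurable_const measurable_fst
      have h2 : MeasurableSet {p : ℝ × (Fin s → ℝ) | ∀ i, 0 < p.2 i} := by
        have : {p : ℝ × (Fin s → ℝ) | ∀ i, 0 < p.2 i} =
            ⋂ i, {p : ℝ × (Fin s → ℝ) | 0 < p.2 i} := by
          ext y
          simp
        rw [this]
        exact MeasurableSet.iInter fun i =>
          measurableSet_lt measurable_const ((measurable_pi_apply i).comp measurable_snd)
      have h3 : MeasurableSet {p : ℝ × (Fin s → ℝ) | p.1 + ∑ i, p.2 i < R} :=
        measurableSet_lt (measurable_fst.add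
          (Finset.measurable_sum _ fun i _ => (measurable_pi_apply i).comp measurable_snd))
          measurable_const
      exact h1.inter (h2.inter h3)
    have hpre : Dl (s + 1) R =
        (MeasurableEquiv.piFinSuccAbove (fun _ : Fin (s + 1) => ℝ) 0) ⁻¹' S := by
      ext y
      simp only [Dl, hS, Set.mem_ofPred_eq, Set.mem_preimage, MeasurableEquiv.piFinSuccAbove_apply]
      rw [Fin.sum_univ_succ, Fin.forall_fin_succ]
      simp only [Fin.insertNthEquiv_symm_apply, Fin.removeNth, Fin.zero_succAbove]
      tauto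
    rw [hpre, (volume_preserving_piFinSuccAbove (fun _ : Fin (s + 1) => ℝ) 0).measure_preimage
      hSm.nullMeasurableSet, Measure.volume_eq_prod, Measure.prod_apply hSm]
    have hle : ∀ t : ℝ, volume (Prod.mk t ⁻¹' S) ≤ (Set.Ioc 0 R).indicator
        (fun t => ENNReal.ofReal ((R - t) ^ s / (s.factorial : ℝ))) t := by
      intro t
      by_cases ht : t ∈ Set.Ioc 0 R
      · rw [Set.indicator_of_mem ht]
        refine (measure_mono ?_).trans (ih (R - t) (by linarith [ht.2]))
        rintro y ⟨_, h2, h3⟩
        exact ⟨h2, by simp only at h3; linarith⟩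
      · rw [Set.indicator_of_notMem ht]
        have : Prod.mk t ⁻¹' S = ∅ := by
          ext y
          simp only [hS, Set.mem_preimage, Set.mem_ofPred_eq, Set.mem_empty_iff_false, iff_false]
          rintro ⟨h1, h2, h3⟩
          apply ht
          have : 0 ≤ ∑ i, y i := Finset.sum_nonneg fun i _ => (h2 i).le
          exact ⟨h1, by linarith⟩
        rw [this, measure_empty]
    refine (lintegral_mono hle).trans ?_
    rw [lintegral_indicator measurableSet_Ioc, ← integral_calc s R,
      intervalIntegral.integral_of_le hR, ofReal_integral_eq_lintegral_ofReal]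
    · have hc : Continuous fun t : ℝ => (R - t) ^ s / (s.factorial : ℝ) := by fun_prop
      exact (hc.intervalIntegrable 0 R).1
    · filter_upwards [ae_restrict_mem measurableSet_Ioc] with t ht
      have : 0 ≤ R - t := by linarith [ht.2]
      positivity

theorem null_plane (s : ℕ) (j : Fin s) : volume {y : Fin s → ℝ | ∑ i, y i + y j = 1} = 0 := by
  let A : AffineSubspace ℝ (Fin s → ℝ) :=
    { carrier := {y | ∑ i, y i + y j = 1}
      smul_vsub_vadd_mem' := by
        intro c p1 p2 p3 h1 h2 h3
        simp only [Set.mem_ofPred_eq, vsub_eq_sub, vadd_eq_add, Pi.add_apply, Pi.smul_apply,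
          Pi.sub_apply, smul_eq_mul, Finset.sum_add_distrib, ← Finset.mul_sum,
          Finset.sum_sub_distrib] at h1 h2 h3 ⊢
        linear_combination c * h1 - c * h2 + h3 }
  have hA : A ≠ ⊤ := by
    intro h
    have h0 : (0 : Fin s → ℝ) ∈ A := by
      rw [h]
      exact AffineSubspace.mem_top _ _ _
    have h1 : ∑ i : Fin s, (0 : Fin s → ℝ) i + (0 : Fin s → ℝ) j = 1 := h0
    simp at h1
  exact Measure.addHaar_affineSubspace volume A hA

/-- the linear part of the involution -/
noncomputable def lin (s : ℕ) (j : Fin s) : (Fin s → ℝ) →ₗ[ℝ] (Fin s → ℝ) where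
  toFun y := Function.update y j (-∑ i, y i)
  map_add' x y := by
    ext i
    rcases eq_or_ne i j with rfl | h
    · simp [Finset.sum_add_distrib]
      ring
    · simp [Function.update_of_ne h]
  map_smul' c y := by
    ext i
    rcases eq_or_ne i j with rfl | h
    · simp [Finset.mul_sum]
    · simp [Function.update_of_ne h]

theorem sum_update (s : ℕ) (j : Fin s) (y : Fin s → ℝ) (a : ℝ) :
    ∑ i, Function.update y j a i = ∑ i, y i - y j + a := by
  rw [Finset.sum_update_of_mem (Finset.mem_univ j), Finset.sdiff_singleton_eq_erase,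
    ← Finset.add_sum_erase _ _ (Finset.mem_univ j)]
  ring

theorem lin_lin (s : ℕ) (j : Fin s) : lin s j ∘ₗ lin s j = LinearMap.id := by
  refine LinearMap.ext fun y => ?_
  change Function.update (Function.update y j (-∑ i, y i)) j
    (-∑ i, Function.update y j (-∑ i, y i) i) = y
  rw [sum_update, Function.update_idem]
  have : -(∑ i, y i - y j + -∑ i, y i) = y j := by ring
  rw [this, Function.update_eq_self]

theorem abs_det (s : ℕ) (j : Fin s) :
    LinearMap.det (lin s j) ≠ 0 ∧ |(LinearMap.det (lin s j))⁻¹| = 1 := by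
  have h : LinearMap.det (lin s j) * LinearMap.det (lin s j) = 1 := by
    rw [← LinearMap.det_comp, lin_lin, LinearMap.det_id]
  have h0 : LinearMap.det (lin s j) ≠ 0 := by
    intro h0
    rw [h0, zero_mul] at h
    exact zero_ne_one h
  refine ⟨h0, ?_⟩
  rw [abs_inv, inv_eq_one]
  have h2 : |LinearMap.det (lin s j)| * |LinearMap.det (lin s j)| = 1 := by
    rw [← abs_mul, h, abs_one]
  nlinarith [abs_nonneg (LinearMap.det (lin s j))]

/-- the involution -/
noncomputable def inv (s : ℕ) (j : Fin s) (y : Fin s → ℝ) : Fin s → ℝ :=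
  Function.update y j (1 - ∑ i, y i)

theorem inv_eq (s : ℕ) (j : Fin s) (y : Fin s → ℝ) : inv s j y = lin s j y + Pi.single j 1 := by
  ext i
  rcases eq_or_ne i j with rfl | h
  · simp [inv, lin]
    ring
  · simp [inv, lin, Function.update_of_ne h, Pi.single_eq_of_ne h]

theorem vol_inv (s : ℕ) (j : Fin s) (S : Set (Fin s → ℝ)) :
    volume (inv s j ⁻¹' S) = volume S := by
  have h1 : inv s j ⁻¹' S = lin s j ⁻¹' ((fun y => y + Pi.single j 1) ⁻¹' S) := by
    ext y
    simp only [Set.mem_preimage, inv_eq]
  rw [h1, Measure.addHaar_preimage_linearMap volume (abs_det s j).1, (abs_det s j).2,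
    ENNReal.ofReal_one, one_mul, measure_preimage_add_right]

/-- the pieces -/
def Pc (s : ℕ) : Option (Fin s) → Set (Fin s → ℝ)
  | none => {y | y ∈ Dl s 1 ∧ ∀ i, y i < 1 - ∑ i, y i}
  | some j => {y | y ∈ Dl s 1 ∧ (∀ i, i ≠ j → y i < y j) ∧ 1 - ∑ i, y i < y j}

theorem measurable_Pc (s : ℕ) (o : Option (Fin s)) : MeasurableSet (Pc s o) := by
  have hsum : Measurable fun y : Fin s → ℝ => 1 - ∑ i, y i :=
    measurable_const.sub (Finset.measurable_sum _ fun i _ => measurable_pi_apply i)
  rcases o with _ | j
  · refine (measurable_Dl s 1).inter ?_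
    have : {y : Fin s → ℝ | ∀ i, y i < 1 - ∑ i, y i} =
        ⋂ i, {y : Fin s → ℝ | y i < 1 - ∑ i, y i} := by
      ext y
      simp
    change MeasurableSet {y : Fin s → ℝ | ∀ i, y i < 1 - ∑ i, y i}
    rw [this]
    exact MeasurableSet.iInter fun i => measurableSet_lt (measurable_pi_apply i) hsum
  · refine (measurable_Dl s 1).inter (MeasurableSet.inter ?_ ?_)
    · have : {y : Fin s → ℝ | ∀ i, i ≠ j → y i < y j} =
          ⋂ i, ⋂ (_ : i ≠ j), {y : Fin s → ℝ | y i < y j} := by
        ext y
        simp
      change MeasurableSet {y : Fin s → ℝ | ∀ i, i ≠ j → y i < y j}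
      rw [this]
      exact MeasurableSet.iInter fun i => MeasurableSet.iInter fun _ =>
        measurableSet_lt (measurable_pi_apply i) (measurable_pi_apply j)
    · exact measurableSet_lt hsum (measurable_pi_apply j)

theorem vol_Pc (s : ℕ) (o : Option (Fin s)) : volume (Pc s none) ≤ volume (Pc s o) := by
  rcases o with _ | j
  · exact le_rfl
  · rw [← vol_inv s j (Pc s (some j))]
    apply measure_mono
    rintro y ⟨⟨h1, h2⟩, h3⟩
    have hj : inv s j y j = 1 - ∑ i, y i := by simp [inv]
    have hi : ∀ i, i ≠ j → inv s j y i = y i := fun i h => by simp [inv, Function.update_of_ne h]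
    have hs : ∑ i, inv s j y i = 1 - y j := by
      unfold inv
      rw [sum_update]
      ring
    refine ⟨⟨fun i => ?_, ?_⟩, fun i h => ?_, ?_⟩
    · rcases eq_or_ne i j with rfl | h
      · rw [hj]
        linarith
      · rw [hi i h]
        exact h1 i
    · rw [hs]
      linarith [h1 j]
    · rw [hi i h, hj]
      exact h3 i
    · rw [hs, hj]
      linarith [h3 j]

theorem disj_Pc (s : ℕ) : Pairwise (Function.onFun Disjoint (Pc s)) := by
  intro o o' hne
  change Disjoint (Pc s o) (Pc s o')
  rw [Set.disjoint_left]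
  intro y hy hy'
  rcases o with _ | j <;> rcases o' with _ | j'
  · exact hne rfl
  · exact absurd (hy.2 j') (not_lt.2 hy'.2.2.le)
  · exact absurd (hy'.2 j) (not_lt.2 hy.2.2.le)
  · have hjj : j ≠ j' := fun h => hne (by rw [h])
    exact absurd (hy.2.1 j' hjj.symm) (not_lt.2 (hy'.2.1 j hjj).le)

end IT7

open IT7 in
theorem prfT7 : claimT7 := by
  intro s _
  have h1 : volume (Rs s ∩ O1 s) ≤ volume (Pc s none) := by
    have hsub : Rs s ∩ O1 s ⊆ Pc s none ∪ ⋃ j, {y : Fin s → ℝ | ∑ i, y i + y j = 1} := by
      rintro y ⟨hR, hO⟩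
      by_cases h : ∃ j, ∑ i, y i + y j = 1
      · right
        simpa using h
      · left
        push Not at h
        have hlt : ∀ j, ∑ i, y i + y j < 1 := fun j => lt_of_le_of_ne (hR j) (h j)
        have hpos : ∀ i, 0 < y i := fun i => (hO i (Set.mem_univ i)).1
        refine ⟨⟨hpos, ?_⟩, fun i => by linarith [hlt i]⟩
        obtain ⟨j⟩ : Nonempty (Fin s) := ⟨⟨0, by omega⟩⟩
        linarith [hlt j, hpos j]
    refine (measure_mono hsub).trans ((measure_union_le _ _).trans ?_)
    have h0 : volume (⋃ j, {y : Fin s → ℝ | ∑ i, y i + y j = 1}) = 0 :=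
      measure_iUnion_null fun j => null_plane s j
    rw [h0, add_zero]
  have h2 : ((s + 1 : ℕ) : ENNReal) * volume (Pc s none) ≤ volume (Dl s 1) := by
    calc ((s + 1 : ℕ) : ENNReal) * volume (Pc s none)
        = ∑ _o : Option (Fin s), volume (Pc s none) := by
          rw [Finset.sum_const, Finset.card_univ, Fintype.card_option, Fintype.card_fin,
            nsmul_eq_mul]
      _ ≤ ∑ o : Option (Fin s), volume (Pc s o) := Finset.sum_le_sum fun o _ => vol_Pc s o
      _ = volume (⋃ o, Pc s o) := by
          rw [measure_iUnion (disj_Pc s) (measurable_Pc s), tsum_fintype]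
      _ ≤ volume (Dl s 1) := by
          apply measure_mono
          refine Set.iUnion_subset fun o => ?_
          rcases o with _ | j
          · exact fun y hy => hy.1
          · exact fun y hy => hy.1
  have h3 := vol_Dl s 1 zero_le_one
  rw [one_pow] at h3
  have h4 : ((s + 1 : ℕ) : ENNReal) * volume (Rs s ∩ O1 s) ≤
      ENNReal.ofReal (1 / (s.factorial : ℝ)) :=
    (mul_le_mul_right h1 _).trans (h2.trans h3)
  have h5 := ENNReal.toReal_mono ENNReal.ofReal_ne_top h4
  rw [ENNReal.toReal_mul, ENNReal.toReal_natCast, ENNReal.toReal_ofReal (by positivity)] at h5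
  push_cast at h5
  exact h5

end Pool.Agent.Work.MP_122e00_nt.Two
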