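import Pool.Agent.Work.MP_122e00_nt.Two.StmtsTail
import Pool.Agent.Work.MP_122e00_nt.Bd.B40
import Pool.Agent.Work.MP_122e00_nt.Count

set_option autoImplicit false

/-!
# U1: marks of small total size as a divisor sum
-/

namespace Pool.Agent.Work.MP_122e00_nt.Two

open Finset Filter Topology MeasureTheory

open scoped ArithmeticFunction.vonMangoldt ArithmeticFunction.zeta

namespace IU1

theorem FT_cons {s k : ℕ} (T y : ℝ) :
    (fun (x : Fin k → ℝ) (v : Fin (s + 1) → ℝ) =>
      (FT (k + 1) T : (Fin (k + 1) → ℝ) → (Fin (s + 1) → ℝ) → ℝ) (Fin.cons y x) v) =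
      FT k (T - y) := by
  funext x v
  simp only [FT]
  rw [Fin.sum_univ_succ]
  simp only [Fin.cons_zero, Fin.cons_succ]
  have h : (y + ∑ j, x j < T) ↔ (∑ j, x j < T - y) := by
    constructor <;> intro h <;> linarith
  simp only [h]

theorem TS_succ (L : ℝ) (s k n : ℕ) (T : ℝ) :
    TS L s (k + 1) n (FT (k + 1) T) = ∑ d ∈ n.divisors, (Λ d / Real.log n) *
      TS L s k (n / d) (FT k (T - Real.log d / L)) := by
  simp only [TS]
  refine Finset.sum_congr rfl fun d _ => ?_
  rw [FT_cons]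

theorem div_ne {n d : ℕ} (hd : d ∈ n.divisors) : n / d ≠ 0 := by
  have h1 := Nat.dvd_of_mem_divisors hd
  have h0 : n ≠ 0 := (Nat.mem_divisors.mp hd).2
  have h3 := Nat.div_pos (Nat.le_of_dvd (Nat.pos_of_ne_zero h0) h1)
    (Nat.pos_of_mem_divisors hd)
  omega

theorem TS_nonneg (L : ℝ) (hL : 0 < L) (s k n : ℕ) (hn : n ≠ 0) (T : ℝ) :
    0 ≤ TS L s k n (FT k T) := by
  refine prfT2 L s k n hL hn _ ?_
  intro x v _ _ _
  simp only [FT]
  split_ifs <;> norm_num

theorem TS_zero (L : ℝ) (hL : 0 < L) (s k : ℕ) : ∀ (n : ℕ) (T : ℝ), T ≤ 0 →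
    TS L s k n (FT k T) = 0 := by
  induction k with
  | zero =>
    intro n T hT
    simp only [TS]
    refine Finset.sum_eq_zero fun v _ => ?_
    simp only [FT]
    rw [if_neg]
    simpa using hT
  | succ k ih =>
    intro n T hT
    rw [TS_succ]
    refine Finset.sum_eq_zero fun d _ => ?_
    rw [ih, mul_zero]
    have : 0 ≤ Real.log d / L := div_nonneg (Real.log_natCast_nonneg _) hL.le
    linarith

/-- The divisor sum. -/
noncomputable def DS (s k n : ℕ) (Y : ℝ) : ℝ :=
  ∑ m ∈ n.divisors, if Real.log m < Y then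
      ((Λ ^ k : ArithmeticFunction ℝ) m) * (((ζ : ArithmeticFunction ℕ) ^ (s + 1)) (n / m) : ℝ)
      else 0

theorem swap {n : ℕ} (g : ℕ → ℕ → ℝ) :
    ∑ d ∈ n.divisors, ∑ m ∈ (n / d).divisors, g d m =
      ∑ m' ∈ n.divisors, ∑ d ∈ m'.divisors, g d (m' / d) := by
  rw [Finset.sum_sigma', Finset.sum_sigma']
  refine Finset.sum_bij' (fun p _ => ⟨p.1 * p.2, p.1⟩) (fun p _ => ⟨p.2, p.1 / p.2⟩) ?_ ?_ ?_ ?_ ?_
  · rintro ⟨d, m⟩ h
    simp only [Finset.mem_sigma, Nat.mem_divisors] at h ⊢
    obtain ⟨⟨⟨e, rfl⟩, h2⟩, h3, h4⟩ := h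
    have hd : 0 < d := Nat.pos_of_ne_zero (by rintro rfl; simp at h2)
    rw [Nat.mul_div_cancel_left _ hd] at h3 h4
    obtain ⟨f, rfl⟩ := h3
    refine ⟨⟨⟨f, by ring⟩, h2⟩, dvd_mul_right _ _, ?_⟩
    intro h0
    apply h2
    rw [← mul_assoc, h0, zero_mul]
  · rintro ⟨m', d⟩ h
    simp only [Finset.mem_sigma, Nat.mem_divisors] at h ⊢
    obtain ⟨⟨⟨e, rfl⟩, h2⟩, ⟨f, rfl⟩, h4⟩ := h
    have hd : 0 < d := Nat.pos_of_ne_zero (by rintro rfl; simp at h2)
    have e1 : d * f * e / d = f * e := by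
      rw [mul_assoc, Nat.mul_div_cancel_left _ hd]
    refine ⟨⟨⟨f * e, by ring⟩, h2⟩, ?_, ?_⟩
    · rw [Nat.mul_div_cancel_left _ hd, e1]
      exact dvd_mul_right _ _
    · rw [e1]
      intro h0
      apply h2
      rw [mul_assoc, h0, mul_zero]
  · rintro ⟨d, m⟩ h
    simp only [Finset.mem_sigma, Nat.mem_divisors] at h ⊢
    have hd : 0 < d := Nat.pos_of_ne_zero (by rintro rfl; simp at h)
    rw [Nat.mul_div_cancel_left _ hd]
  · rintro ⟨m', d⟩ h
    simp only [Finset.mem_sigma, Nat.mem_divisors] at h ⊢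
    rw [Nat.mul_div_cancel' h.2.1]
  · rintro ⟨d, m⟩ h
    simp only [Finset.mem_sigma, Nat.mem_divisors] at h ⊢
    have hd : 0 < d := Nat.pos_of_ne_zero (by rintro rfl; simp at h)
    rw [Nat.mul_div_cancel_left _ hd]

theorem DS_succ (s k n : ℕ) (Y : ℝ) :
    ∑ d ∈ n.divisors, Λ d * DS s k (n / d) (Y - Real.log d) = DS s (k + 1) n Y := by
  have h1 : ∀ d ∈ n.divisors, Λ d * DS s k (n / d) (Y - Real.log d) =
      ∑ m ∈ (n / d).divisors, if Real.log (d * m : ℕ) < Y then
        Λ d * ((Λ ^ k : ArithmeticFunction ℝ) m) *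
          (((ζ : ArithmeticFunction ℕ) ^ (s + 1)) (n / (d * m)) : ℝ) else 0 := by
    intro d hd
    simp only [DS]
    rw [Finset.mul_sum]
    refine Finset.sum_congr rfl fun m hm => ?_
    have hd0 : (d : ℝ) ≠ 0 := by
      have := Nat.pos_of_mem_divisors hd
      positivity
    have hm0 : (m : ℝ) ≠ 0 := by
      have := Nat.pos_of_mem_divisors hm
      positivity
    have h2 : Real.log (d * m : ℕ) = Real.log d + Real.log m := by
      push_cast
      exact Real.log_mul hd0 hm0
    have h3 : (Real.log m < Y - Real.log d) ↔ (Real.log (d * m : ℕ) < Y) := by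
      rw [h2]
      constructor <;> intro h <;> linarith
    simp only [h3]
    split_ifs with h
    · rw [Nat.div_div_eq_div_mul]
      ring
    · ring
  rw [Finset.sum_congr rfl h1]
  rw [swap (fun d m => if Real.log (d * m : ℕ) < Y then
        Λ d * ((Λ ^ k : ArithmeticFunction ℝ) m) *
          (((ζ : ArithmeticFunction ℕ) ^ (s + 1)) (n / (d * m)) : ℝ) else 0)]
  simp only [DS]
  refine Finset.sum_congr rfl fun m hm => ?_
  have h4 : ((Λ ^ (k + 1) : ArithmeticFunction ℝ) m) =
      ∑ d ∈ m.divisors, Λ d * ((Λ ^ k : ArithmeticFunction ℝ) (m / d)) := by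
    rw [pow_succ', ArithmeticFunction.mul_apply]
    exact Nat.sum_divisorsAntidiagonal (fun a b => Λ a * ((Λ ^ k : ArithmeticFunction ℝ) b))
  have h5 : ∀ d ∈ m.divisors, d * (m / d) = m := fun d hd =>
    Nat.mul_div_cancel' (Nat.dvd_of_mem_divisors hd)
  split_ifs with h
  · rw [h4, Finset.sum_mul]
    refine Finset.sum_congr rfl fun d hd => ?_
    rw [h5 d hd, if_pos h]
  · refine Finset.sum_eq_zero fun d hd => ?_
    rw [h5 d hd, if_neg h]

theorem main (L a : ℝ) (hL : 0 < L) (ha : 0 < a) (s k : ℕ) : ∀ (n : ℕ) (T : ℝ), n ≠ 0 →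
    a ≤ Real.log n - T * L → TS L s k n (FT k T) ≤ (a⁻¹) ^ k * DS s k n (T * L) := by
  induction k with
  | zero =>
    intro n T hn _
    simp only [TS]
    rw [pow_zero, one_mul]
    by_cases hT : 0 < T
    · have h1 : ∀ v ∈ Nat.finMulAntidiag (s + 1) n,
          (FT 0 T : (Fin 0 → ℝ) → (Fin (s + 1) → ℝ) → ℝ) Fin.elim0
            (fun i => Real.log (v i) / L) = 1 := by
        intro v _
        simp only [FT]
        rw [if_pos]
        simpa using hT
      rw [Finset.sum_congr rfl h1]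
      simp only [DS]
      have h2 : (1 : ℕ) ∈ n.divisors := by simp [hn]
      rw [Finset.sum_eq_single_of_mem 1 h2]
      · rw [if_pos (by simpa using mul_pos hT hL), pow_zero, ArithmeticFunction.one_one, one_mul,
          Nat.div_one, zeta_pow_apply]
        simp
      · intro m _ hm
        rw [pow_zero, ArithmeticFunction.one_apply_ne hm, zero_mul, ite_self]
    · have h1 : ∀ v ∈ Nat.finMulAntidiag (s + 1) n,
          (FT 0 T : (Fin 0 → ℝ) → (Fin (s + 1) → ℝ) → ℝ) Fin.elim0
            (fun i => Real.log (v i) / L) = 0 := by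
        intro v _
        simp only [FT]
        rw [if_neg]
        simpa using hT
      rw [Finset.sum_congr rfl h1, Finset.sum_const_zero]
      simp only [DS]
      refine Finset.sum_nonneg fun m _ => ?_
      split_ifs
      · rw [pow_zero]
        rcases eq_or_ne m 1 with rfl | hm
        · rw [ArithmeticFunction.one_one]
          positivity
        · rw [ArithmeticFunction.one_apply_ne hm, zero_mul]
      · exact le_rfl
  | succ k ih =>
    intro n T hn haT
    have hpow : (0 : ℝ) ≤ (a⁻¹) ^ (k + 1) := by positivity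
    have hcomm : (a⁻¹) ^ (k + 1) * DS s (k + 1) n (T * L) =
        ∑ d ∈ n.divisors, (Λ d * a⁻¹) * ((a⁻¹) ^ k * DS s k (n / d) (T * L - Real.log d)) := by
      rw [← DS_succ, Finset.mul_sum]
      refine Finset.sum_congr rfl fun d _ => ?_
      rw [pow_succ]
      ring
    have hkey : ∀ d ∈ n.divisors, TS L s k (n / d) (FT k (T - Real.log d / L)) ≤
        (a⁻¹) ^ k * DS s k (n / d) (T * L - Real.log d) := by
      intro d hd
      have e1 : (T - Real.log d / L) * L = T * L - Real.log d := by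
        field_simp
      have h1 := ih (n / d) (T - Real.log d / L) (div_ne hd) ?_
      · rwa [e1] at h1
      · rw [e1]
        have h2 : d * (n / d) = n := Nat.mul_div_cancel' (Nat.dvd_of_mem_divisors hd)
        have h3 : Real.log n = Real.log d + Real.log (n / d : ℕ) := by
          rw [← Real.log_mul, ← Nat.cast_mul, h2]
          · exact_mod_cast (Nat.pos_of_mem_divisors hd).ne'
          · exact_mod_cast div_ne hd
        linarith
    rw [hcomm]
    by_cases hT : 0 < T
    · rw [TS_succ]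
      refine Finset.sum_le_sum fun d hd => ?_
      have hlog : a ≤ Real.log n := by
        have := mul_pos hT hL
        linarith
      have hΛ : (0 : ℝ) ≤ Λ d := ArithmeticFunction.vonMangoldt_nonneg
      refine mul_le_mul ?_ (hkey d hd) (TS_nonneg L hL s k _ (div_ne hd) _) (by positivity)
      rw [div_eq_mul_inv]
      exact mul_le_mul_of_nonneg_left (inv_anti₀ ha hlog) hΛ
    · rw [TS_zero L hL s (k + 1) n T (not_lt.mp hT)]
      refine Finset.sum_nonneg fun d hd => ?_
      have hΛ : (0 : ℝ) ≤ Λ d := ArithmeticFunction.vonMangoldt_nonneg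
      exact mul_nonneg (by positivity)
        (le_trans (TS_nonneg L hL s k _ (div_ne hd) _) (hkey d hd))

end IU1

theorem prfU1 : claimU1 := by
  intro s k n L a T hL ha hn haT
  exact IU1.main L a hL ha s k n T hn haT

end Pool.Agent.Work.MP_122e00_nt.Two
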