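import Pool.Agent.Work.MP_122e00_nt.Two.StmtsTail
import Pool.Agent.Work.MP_122e00_nt.Bdx.B07

set_option autoImplicit false

/-!
# Item U7: the tail in `k`
-/

namespace Pool.Agent.Work.MP_122e00_nt.Two

open Finset Filter Topology MeasureTheory

open scoped ArithmeticFunction.vonMangoldt ArithmeticFunction.zeta

namespace IU7

variable {s : ℕ}

theorem one_le_of_mem_tup {X : ℝ} {b : Fin s → ℕ} (hb : b ∈ tup s X) (i : Fin s) : 1 ≤ b i := by
  rw [tup, Fintype.mem_piFinset] at hb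
  exact (Finset.mem_Icc.1 (hb i)).1

theorem one_le_prod {X : ℝ} {b : Fin s → ℕ} (hb : b ∈ tup s X) : 1 ≤ ∏ i, b i :=
  Finset.one_le_prod' fun i _ => one_le_of_mem_tup hb i

/-- The coefficients. -/
noncomputable def be (s : ℕ) (X : ℝ) (S : Finset ℕ) (B : ℕ → ℝ) (M : ℕ) : ℝ :=
  (s + 1) * ∑ p ∈ S ×ˢ tup s X, if p.1 * ∏ i, p.2 i = M then B p.1 else 0

theorem be_nonneg {X : ℝ} {S : Finset ℕ} {B : ℕ → ℝ} (hB : ∀ m, 0 ≤ B m) (M : ℕ) :
    0 ≤ be s X S B M := by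
  unfold be
  refine mul_nonneg (by positivity) (Finset.sum_nonneg fun p _ => ?_)
  split_ifs
  · exact hB _
  · exact le_rfl

theorem be_le {X : ℝ} {S : Finset ℕ} {B : ℕ → ℝ} {Bm : ℝ} (hB0 : 0 ≤ Bm)
    (hB : ∀ m ∈ S, B m ≤ Bm) {M : ℕ} (hM : M ≠ 0) :
    be s X S B M ≤ (s + 1) * (Bm * (M.divisors.card : ℝ) ^ (s + 1)) := by
  unfold be
  refine mul_le_mul_of_nonneg_left ?_ (by positivity)
  calc ∑ p ∈ S ×ˢ tup s X, (if p.1 * ∏ i, p.2 i = M then B p.1 else 0)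
      ≤ ∑ p ∈ S ×ˢ tup s X, (if p.1 * ∏ i, p.2 i = M then Bm else 0) := by
        refine Finset.sum_le_sum fun p hp => ?_
        split_ifs
        · exact hB _ (Finset.mem_product.1 hp).1
        · exact le_rfl
    _ = (((S ×ˢ tup s X).filter fun p => p.1 * ∏ i, p.2 i = M).card : ℝ) * Bm := by
        rw [← Finset.sum_filter, Finset.sum_const, nsmul_eq_mul]
    _ ≤ ((M.divisors.card : ℝ) ^ (s + 1)) * Bm := by
        refine mul_le_mul_of_nonneg_right ?_ hB0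
        have hsub : (S ×ˢ tup s X).filter (fun p => p.1 * ∏ i, p.2 i = M) ⊆
            M.divisors ×ˢ Fintype.piFinset (fun _ : Fin s => M.divisors) := by
          intro p hp
          rw [Finset.mem_filter] at hp
          have h1 := hp.2
          rw [Finset.mem_product, Fintype.mem_piFinset, Nat.mem_divisors]
          refine ⟨⟨h1 ▸ Nat.dvd_mul_right _ _, hM⟩, fun i => ?_⟩
          rw [Nat.mem_divisors]
          exact ⟨h1 ▸ (Finset.dvd_prod_of_mem p.2 (Finset.mem_univ i)).mul_left _, hM⟩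
        have hc := Finset.card_le_card hsub
        rw [Finset.card_product, Fintype.card_piFinset_const] at hc
        have hc' : (((S ×ˢ tup s X).filter fun p => p.1 * ∏ i, p.2 i = M).card : ℝ) ≤
            (M.divisors.card : ℝ) * (M.divisors.card : ℝ) ^ s := by exact_mod_cast hc
        rw [pow_succ']
        exact hc'
    _ = Bm * (M.divisors.card : ℝ) ^ (s + 1) := mul_comm _ _

theorem sum_tup_le {X : ℝ} (hX : 1 ≤ X) :
    ∑ b ∈ tup s X, (1 / ((∏ i, b i : ℕ) : ℝ)) ≤ (1 + Real.log X) ^ s := by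
  have e : ∀ b ∈ tup s X, (1 / ((∏ i, b i : ℕ) : ℝ)) = ∏ i, (1 / (b i : ℝ)) := by
    intro b _
    push_cast
    rw [Finset.prod_div_distrib, Finset.prod_const_one]
  rw [Finset.sum_congr rfl e]
  have e2 : ∑ b ∈ tup s X, ∏ i, (1 / (b i : ℝ)) =
      ∏ _i : Fin s, ∑ b ∈ Finset.Icc 1 ⌊X⌋₊, (1 / (b : ℝ)) := by
    rw [Finset.prod_univ_sum]
    rfl
  rw [e2, Finset.prod_const, Finset.card_univ, Fintype.card_fin]
  have h4 : ∑ b ∈ Finset.Icc 1 ⌊X⌋₊, (1 / (b : ℝ)) ≤ 1 + Real.log X := by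
    have h5 := harmonic_floor_le_one_add_log X hX
    rw [harmonic_eq_sum_Icc] at h5
    push_cast at h5
    simpa [one_div] using h5
  have h6 : 0 ≤ ∑ b ∈ Finset.Icc 1 ⌊X⌋₊, (1 / (b : ℝ)) :=
    Finset.sum_nonneg fun _ _ => by positivity
  exact pow_le_pow_left₀ h6 h4 s

theorem sum_be_le {X : ℝ} (hX : 1 ≤ X) {S : Finset ℕ} {B : ℕ → ℝ} (hB : ∀ m, 0 ≤ B m) (N : ℕ) :
    ∑ M ∈ Finset.Icc 1 N, be s X S B M / M ≤
      (s + 1) * ((∑ m ∈ S, B m / m) * (1 + Real.log X) ^ s) := by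
  have h1 : ∀ M ∈ Finset.Icc 1 N, be s X S B M / M = (s + 1) * ∑ p ∈ S ×ˢ tup s X,
      (if p.1 * ∏ i, p.2 i = M then B p.1 / ((p.1 * ∏ i, p.2 i : ℕ) : ℝ) else 0) := by
    intro M _
    unfold be
    rw [mul_div_assoc, Finset.sum_div]
    congr 1
    refine Finset.sum_congr rfl fun p _ => ?_
    by_cases hp : p.1 * ∏ i, p.2 i = M
    · rw [if_pos hp, if_pos hp, hp]
    · rw [if_neg hp, if_neg hp, zero_div]
  rw [Finset.sum_congr rfl h1, ← Finset.mul_sum, Finset.sum_comm]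
  refine mul_le_mul_of_nonneg_left ?_ (by positivity)
  calc ∑ p ∈ S ×ˢ tup s X, ∑ M ∈ Finset.Icc 1 N,
        (if p.1 * ∏ i, p.2 i = M then B p.1 / ((p.1 * ∏ i, p.2 i : ℕ) : ℝ) else 0)
      ≤ ∑ p ∈ S ×ˢ tup s X, B p.1 / p.1 * (1 / ((∏ i, p.2 i : ℕ) : ℝ)) := by
        refine Finset.sum_le_sum fun p _ => ?_
        rw [Finset.sum_ite_eq]
        have e : B p.1 / ((p.1 * ∏ i, p.2 i : ℕ) : ℝ) =
            B p.1 / p.1 * (1 / ((∏ i, p.2 i : ℕ) : ℝ)) := by
          rw [Nat.cast_mul, div_mul_div_comm, mul_one]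
        have h2 : 0 ≤ B p.1 / p.1 * (1 / ((∏ i, p.2 i : ℕ) : ℝ)) :=
          mul_nonneg (div_nonneg (hB _) (Nat.cast_nonneg _)) (by positivity)
        split_ifs
        · exact e.le
        · exact h2
    _ = (∑ m ∈ S, B m / m) * ∑ b ∈ tup s X, (1 / ((∏ i, b i : ℕ) : ℝ)) := by
        rw [Finset.sum_product, Finset.sum_mul_sum]
    _ ≤ _ := by
        refine mul_le_mul_of_nonneg_left (sum_tup_le hX) ?_
        exact Finset.sum_nonneg fun m _ => div_nonneg (hB m) (Nat.cast_nonneg m)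

/-- The position of the tuples. -/
theorem mem_pos {X : ℝ} (hX : 1 < X) {M₀ th : ℝ} (hth : th * (s + 1) ≤ 1 - M₀) {n m : ℕ}
    (hn : n ≠ 0) (hnX : (n : ℝ) ≤ X) (hm : m ∣ n) (hlog : Real.log m < M₀ * Real.log X)
    {b : Fin s → ℕ} (hb : b ∈ (Fintype.piFinset (fun _ : Fin s => (n / m).divisors)).filter
        (fun a => (∏ i, a i) ∣ n / m ∧ ∀ j, a j * (∏ i, a i) ≤ n / m)) :
    b ∈ tup s X ∧ m * ∏ i, b i ∣ n ∧ m * ∏ i, b i ∈ Finset.Icc 1 ⌊X ^ (1 - th)⌋₊ := by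
  rw [Finset.mem_filter, Fintype.mem_piFinset] at hb
  obtain ⟨h1, h2, h3⟩ := hb
  have hm0 : 0 < m := Nat.pos_of_dvd_of_pos hm (Nat.pos_of_ne_zero hn)
  have hnm : 0 < n / m := Nat.div_pos (Nat.le_of_dvd (Nat.pos_of_ne_zero hn) hm) hm0
  have hb1 : ∀ i, 1 ≤ b i := fun i => by
    have := h1 i
    rw [Nat.mem_divisors] at this
    exact Nat.pos_of_dvd_of_pos this.1 hnm
  have hP : 1 ≤ ∏ i, b i := Finset.one_le_prod' fun i _ => hb1 i
  have hdvd : m * ∏ i, b i ∣ n := Nat.mul_dvd_of_dvd_div hm h2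
  refine ⟨?_, hdvd, ?_⟩
  · rw [tup, Fintype.mem_piFinset]
    intro i
    rw [Finset.mem_Icc]
    refine ⟨hb1 i, Nat.le_floor ?_⟩
    have := h1 i
    rw [Nat.mem_divisors] at this
    have h4 : b i ≤ n := (Nat.le_of_dvd hnm this.1).trans (Nat.div_le_self _ _)
    exact le_trans (by exact_mod_cast h4) hnX
  · rw [Finset.mem_Icc]
    refine ⟨Nat.mul_pos hm0 hP, Nat.le_floor ?_⟩
    -- logarithms
    have h4 : (∏ i, b i) ^ (s + 1) ≤ (n / m) ^ s := by
      have h5 : ∏ j : Fin s, (b j * ∏ i, b i) ≤ ∏ _j : Fin s, (n / m) :=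
        Finset.prod_le_prod' fun j _ => h3 j
      rw [Finset.prod_mul_distrib, Finset.prod_const, Finset.prod_const, Finset.card_univ,
        Fintype.card_fin] at h5
      rw [pow_succ']
      exact h5
    have hPr : (0 : ℝ) < ((∏ i, b i : ℕ) : ℝ) := by exact_mod_cast hP
    have hmr : (0 : ℝ) < (m : ℝ) := by exact_mod_cast hm0
    have hnr : (0 : ℝ) < (n : ℝ) := by exact_mod_cast Nat.pos_of_ne_zero hn
    have h6 : (((∏ i, b i : ℕ) : ℝ)) ^ (s + 1) ≤ ((n : ℝ) / m) ^ s := by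
      have h7 : (((∏ i, b i : ℕ) : ℝ)) ^ (s + 1) ≤ (((n / m : ℕ) : ℝ)) ^ s := by exact_mod_cast h4
      rw [Nat.cast_div hm hmr.ne'] at h7
      exact h7
    have h8 := Real.log_le_log (by positivity) h6
    rw [Real.log_pow, Real.log_pow, Real.log_div hnr.ne' hmr.ne'] at h8
    push_cast at h8
    have hL : 0 < Real.log X := Real.log_pos hX
    have h9 : Real.log n ≤ Real.log X := Real.log_le_log hnr hnX
    have hs : (0 : ℝ) < (s : ℝ) + 1 := by positivity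
    have h10 : Real.log ((m : ℝ) * ((∏ i, b i : ℕ) : ℝ)) ≤ (1 - th) * Real.log X := by
      rw [Real.log_mul hmr.ne' hPr.ne']
      have h11 : ((s : ℝ) + 1) * (Real.log m + Real.log ((∏ i, b i : ℕ) : ℝ)) ≤
          ((s : ℝ) + 1) * ((1 - th) * Real.log X) := by
        have h12 : (s : ℝ) * Real.log n ≤ s * Real.log X :=
          mul_le_mul_of_nonneg_left h9 (Nat.cast_nonneg s)
        have h13 : th * (s + 1) * Real.log X ≤ (1 - M₀) * Real.log X :=
          mul_le_mul_of_nonneg_right hth hL.le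
        push_cast at h8 ⊢
        nlinarith
      exact le_of_mul_le_mul_left h11 hs
    have h14 : (0 : ℝ) < (m : ℝ) * ((∏ i, b i : ℕ) : ℝ) := by positivity
    rw [Nat.cast_mul, ← Real.exp_log h14, Real.rpow_def_of_pos (by linarith), Real.exp_le_exp]
    linarith

/-- The divisor sums as sums over the small multiples. -/
theorem pointwise (hT5 : claimT5) {X : ℝ} (hX : 1 < X) {M₀ th : ℝ}
    (hth : th * (s + 1) ≤ 1 - M₀) {n : ℕ} (hn : n ≠ 0) (hnX : (n : ℝ) ≤ X) {B : ℕ → ℝ}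
    (hB : ∀ m, 0 ≤ B m) :
    ∑ m ∈ n.divisors, (if Real.log m < M₀ * Real.log X then
      B m * (((ζ : ArithmeticFunction ℕ) ^ (s + 1)) (n / m) : ℝ) else 0) ≤
    ∑ M ∈ Finset.Icc 1 ⌊X ^ (1 - th)⌋₊, if M ∣ n then be s X
      ((Finset.Icc 1 ⌊X⌋₊).filter (fun m : ℕ => Real.log m < M₀ * Real.log X)) B M else 0 := by
  classical
  set S := (Finset.Icc 1 ⌊X⌋₊).filter (fun m : ℕ => Real.log m < M₀ * Real.log X) with hS
  set N := ⌊X ^ (1 - th)⌋₊ with hN
  have hR : ∑ M ∈ Finset.Icc 1 N, (if M ∣ n then be s X S B M else 0) =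
      (s + 1) * ∑ p ∈ S ×ˢ tup s X,
        (if p.1 * ∏ i, p.2 i ∈ Finset.Icc 1 N ∧ p.1 * ∏ i, p.2 i ∣ n then B p.1 else 0) := by
    have h1 : ∀ M ∈ Finset.Icc 1 N, (if M ∣ n then be s X S B M else 0) =
        (s + 1) * ∑ p ∈ S ×ˢ tup s X, (if p.1 * ∏ i, p.2 i = M then
          (if p.1 * ∏ i, p.2 i ∣ n then B p.1 else 0) else 0) := by
      intro M _
      unfold be
      split_ifs with hd
      · congr 1
        refine Finset.sum_congr rfl fun p _ => ?_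
        by_cases hp : p.1 * ∏ i, p.2 i = M
        · rw [if_pos hp, if_pos hp, hp, if_pos hd]
        · rw [if_neg hp, if_neg hp]
      · symm
        rw [Finset.sum_eq_zero, mul_zero]
        intro p _
        by_cases hp : p.1 * ∏ i, p.2 i = M
        · rw [if_pos hp, hp, if_neg hd]
        · rw [if_neg hp]
    rw [Finset.sum_congr rfl h1, ← Finset.mul_sum, Finset.sum_comm]
    congr 1
    refine Finset.sum_congr rfl fun p _ => ?_
    rw [Finset.sum_ite_eq]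
    by_cases h2 : p.1 * ∏ i, p.2 i ∈ Finset.Icc 1 N
    · rw [if_pos h2]
      by_cases h3 : p.1 * ∏ i, p.2 i ∣ n
      · rw [if_pos h3, if_pos ⟨h2, h3⟩]
      · rw [if_neg h3, if_neg (fun h => h3 h.2)]
    · rw [if_neg h2, if_neg (fun h => h2 h.1)]
  rw [hR, ← Finset.sum_filter, Finset.sum_product, Finset.mul_sum]
  have hsub : n.divisors.filter (fun m : ℕ => Real.log m < M₀ * Real.log X) ⊆ S := by
    intro m hm
    rw [Finset.mem_filter, Nat.mem_divisors] at hm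
    rw [hS, Finset.mem_filter, Finset.mem_Icc]
    refine ⟨⟨Nat.pos_of_dvd_of_pos hm.1.1 (Nat.pos_of_ne_zero hn), Nat.le_floor ?_⟩, hm.2⟩
    have h4 : m ≤ n := Nat.le_of_dvd (Nat.pos_of_ne_zero hn) hm.1.1
    exact le_trans (by exact_mod_cast h4) hnX
  refine (Finset.sum_le_sum fun m hm => ?_).trans
    (Finset.sum_le_sum_of_subset_of_nonneg hsub fun m _ _ => ?_)
  · rw [Finset.mem_filter, Nat.mem_divisors] at hm
    obtain ⟨⟨hmn, -⟩, hlog⟩ := hm
    have hm0 : 0 < m := Nat.pos_of_dvd_of_pos hmn (Nat.pos_of_ne_zero hn)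
    have hnm : n / m ≠ 0 :=
      (Nat.div_pos (Nat.le_of_dvd (Nat.pos_of_ne_zero hn) hmn) hm0).ne'
    have h4 : (((ζ : ArithmeticFunction ℕ) ^ (s + 1)) (n / m) : ℝ) ≤ (s + 1) *
        (((Fintype.piFinset (fun _ : Fin s => (n / m).divisors)).filter
          (fun a => (∏ i, a i) ∣ n / m ∧ ∀ j, a j * (∏ i, a i) ≤ n / m)).card : ℝ) := by
      exact_mod_cast hT5 s (n / m) hnm
    set T' := (Fintype.piFinset (fun _ : Fin s => (n / m).divisors)).filter
          (fun a => (∏ i, a i) ∣ n / m ∧ ∀ j, a j * (∏ i, a i) ≤ n / m) with hT'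
    have h5 : B m * (T'.card : ℝ) ≤ ∑ b ∈ tup s X,
        (if m * ∏ i, b i ∈ Finset.Icc 1 N ∧ m * ∏ i, b i ∣ n then B m else 0) := by
      have h6 : B m * (T'.card : ℝ) = ∑ _b ∈ T', B m := by
        rw [Finset.sum_const, nsmul_eq_mul, mul_comm]
      rw [h6]
      have hTs : T' ⊆ tup s X := fun b hb => (mem_pos hX hth hn hnX hmn hlog hb).1
      refine (Finset.sum_le_sum fun b hb => ?_).trans
        (Finset.sum_le_sum_of_subset_of_nonneg hTs fun b _ _ => ?_)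
      · have h7 := mem_pos hX hth hn hnX hmn hlog hb
        rw [if_pos ⟨h7.2.2, h7.2.1⟩]
      · split_ifs
        · exact hB m
        · exact le_rfl
    calc B m * (((ζ : ArithmeticFunction ℕ) ^ (s + 1)) (n / m) : ℝ)
        ≤ B m * ((s + 1) * (T'.card : ℝ)) := mul_le_mul_of_nonneg_left h4 (hB m)
      _ = (s + 1) * (B m * (T'.card : ℝ)) := by ring
      _ ≤ _ := mul_le_mul_of_nonneg_left h5 (by positivity)
  · refine mul_nonneg (by positivity) (Finset.sum_nonneg fun b _ => ?_)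
    split_ifs
    · exact hB m
    · exact le_rfl

/-- The weights. -/
noncomputable def BB (C a : ℝ) (K K1 : ℕ) (m : ℕ) : ℝ :=
  if m = 0 then 0 else ∑ k ∈ Finset.Ioc K K1, (C * a⁻¹) ^ k * (Λ ^ k : ArithmeticFunction ℝ) m

theorem BB_nonneg (hU3 : claimU3) {C a : ℝ} (hC : 0 ≤ C) (ha : 0 < a) (K K1 m : ℕ) :
    0 ≤ BB C a K K1 m := by
  unfold BB
  split_ifs with hm
  · exact le_rfl
  · exact Finset.sum_nonneg fun k _ => mul_nonneg (by positivity) (hU3 k m hm).1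

theorem BB_le (hU3 : claimU3) {C a U C2 : ℝ} (hC : 0 ≤ C) (ha : 0 < a) (K K1 m : ℕ)
    (hU : Real.log m ≤ U) (h2 : C * a⁻¹ * U ≤ C2) (hC2 : 1 ≤ C2) :
    BB C a K K1 m ≤ (2 * C2) ^ K1 := by
  unfold BB
  split_ifs with hm
  · positivity
  · have hlog : 0 ≤ Real.log m := Real.log_natCast_nonneg m
    have h3 : ∀ k ∈ Finset.Ioc K K1, (C * a⁻¹) ^ k * (Λ ^ k : ArithmeticFunction ℝ) m ≤
        C2 ^ K1 := by
      intro k hk
      rw [Finset.mem_Ioc] at hk
      calc (C * a⁻¹) ^ k * (Λ ^ k : ArithmeticFunction ℝ) m ≤ (C * a⁻¹) ^ k * (Real.log m) ^ k :=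
            mul_le_mul_of_nonneg_left (hU3 k m hm).2 (by positivity)
        _ = (C * a⁻¹ * Real.log m) ^ k := by rw [mul_pow (C * a⁻¹)]
        _ ≤ C2 ^ k := by
            apply pow_le_pow_left₀ (by positivity)
            exact le_trans (mul_le_mul_of_nonneg_left hU (by positivity)) h2
        _ ≤ C2 ^ K1 := pow_le_pow_right₀ hC2 hk.2
    calc ∑ k ∈ Finset.Ioc K K1, (C * a⁻¹) ^ k * (Λ ^ k : ArithmeticFunction ℝ) m
        ≤ ∑ _k ∈ Finset.Ioc K K1, C2 ^ K1 := Finset.sum_le_sum h3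
      _ = ((K1 - K : ℕ) : ℝ) * C2 ^ K1 := by
          rw [Finset.sum_const, Nat.card_Ioc, nsmul_eq_mul]
      _ ≤ 2 ^ K1 * C2 ^ K1 := by
          apply mul_le_mul_of_nonneg_right _ (by positivity)
          have h4 : K1 - K ≤ 2 ^ K1 := (Nat.sub_le _ _).trans (Nat.lt_two_pow_self).le
          exact_mod_cast h4
      _ = _ := by rw [mul_pow]

theorem geo {K K1 : ℕ} (h : K ≤ K1) :
    ∑ k ∈ Finset.Ioc K K1, ((1 : ℝ) / 2) ^ k = (1 / 2) ^ K - (1 / 2) ^ K1 := by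
  induction K1, h using Nat.le_induction with
  | base => simp
  | succ m hm ih =>
    rw [← Finset.insert_Ioc_right_eq_Ioc_add_one hm, Finset.sum_insert (by simp), ih, pow_succ]
    ring

theorem geo_le (K K1 : ℕ) : ∑ k ∈ Finset.Ioc K K1, ((1 : ℝ) / 2) ^ k ≤ (1 / 2) ^ K := by
  rcases le_total K K1 with h | h
  · rw [geo h]
    have : (0 : ℝ) ≤ (1 / 2) ^ K1 := by positivity
    linarith
  · rw [Finset.Ioc_eq_empty (by omega), Finset.sum_empty]
    positivity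

theorem sum_BB_le (hU3 : claimU3) {C a lam X : ℝ} (hC : 0 ≤ C) (ha : 0 < a) (K K1 : ℕ)
    (hr : C * a⁻¹ * (3 * Real.log X / lam) = 1 / 2)
    (hU5 : ∀ k : ℕ, ∑ m ∈ Finset.Icc 1 ⌊X⌋₊, (Λ ^ k : ArithmeticFunction ℝ) m / (m : ℝ) ≤
      Real.exp lam * (3 * Real.log X / lam) ^ k) (S : Finset ℕ) (hS : S ⊆ Finset.Icc 1 ⌊X⌋₊) :
    ∑ m ∈ S, BB C a K K1 m / m ≤ Real.exp lam * (1 / 2) ^ K := by
  have h1 : ∑ m ∈ S, BB C a K K1 m / m ≤ ∑ m ∈ Finset.Icc 1 ⌊X⌋₊, BB C a K K1 m / m :=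
    Finset.sum_le_sum_of_subset_of_nonneg hS fun m _ _ =>
      div_nonneg (BB_nonneg hU3 hC ha K K1 m) (Nat.cast_nonneg m)
  refine h1.trans ?_
  have h2 : ∀ m ∈ Finset.Icc 1 ⌊X⌋₊, BB C a K K1 m / m = ∑ k ∈ Finset.Ioc K K1,
      (C * a⁻¹) ^ k * ((Λ ^ k : ArithmeticFunction ℝ) m / (m : ℝ)) := by
    intro m hm
    rw [Finset.mem_Icc] at hm
    unfold BB
    rw [if_neg (by omega), Finset.sum_div]
    exact Finset.sum_congr rfl fun k _ => by rw [mul_div_assoc]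
  rw [Finset.sum_congr rfl h2, Finset.sum_comm]
  calc ∑ k ∈ Finset.Ioc K K1, ∑ m ∈ Finset.Icc 1 ⌊X⌋₊,
        (C * a⁻¹) ^ k * ((Λ ^ k : ArithmeticFunction ℝ) m / (m : ℝ))
      ≤ ∑ k ∈ Finset.Ioc K K1, Real.exp lam * ((1 : ℝ) / 2) ^ k := by
        refine Finset.sum_le_sum fun k _ => ?_
        rw [← Finset.mul_sum]
        calc (C * a⁻¹) ^ k * ∑ m ∈ Finset.Icc 1 ⌊X⌋₊, ((Λ ^ k : ArithmeticFunction ℝ) m / (m : ℝ))
            ≤ (C * a⁻¹) ^ k * (Real.exp lam * (3 * Real.log X / lam) ^ k) :=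
              mul_le_mul_of_nonneg_left (hU5 k) (by positivity)
          _ = Real.exp lam * (C * a⁻¹ * (3 * Real.log X / lam)) ^ k := by
              rw [mul_pow (C * a⁻¹)]
              ring
          _ = _ := by rw [hr]
    _ = Real.exp lam * ∑ k ∈ Finset.Ioc K K1, ((1 : ℝ) / 2) ^ k := by rw [Finset.mul_sum]
    _ ≤ _ := mul_le_mul_of_nonneg_left (geo_le K K1) (Real.exp_pos _).le

/-- The pointwise bound of the sum over `k`. -/
theorem sum_TS_le (hU1 : claimU1) (hT5 : claimT5) (hU3 : claimU3) {X : ℝ} (hX : 1 < X)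
    {M₀ th C₀ : ℝ} (hth : th * (s + 1) ≤ 1 - M₀) (hM1 : M₀ < 1) (hC0 : 0 ≤ C₀) (K K1 : ℕ)
    {n : ℕ} (hn : n ≠ 0) (hnX : (n : ℝ) ≤ X)
    (ha : (1 - M₀) / 2 * Real.log X ≤ Real.log n - M₀ * Real.log X) :
    ∑ k ∈ Finset.Ioc K K1, C₀ ^ k * TS (Real.log X) s k n (FT k M₀) ≤
    ∑ M ∈ Finset.Icc 1 ⌊X ^ (1 - th)⌋₊, if M ∣ n then be s X
      ((Finset.Icc 1 ⌊X⌋₊).filter (fun m : ℕ => Real.log m < M₀ * Real.log X))
      (BB C₀ ((1 - M₀) / 2 * Real.log X) K K1) M else 0 := by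
  have hL : 0 < Real.log X := Real.log_pos hX
  have ha0 : 0 < (1 - M₀) / 2 * Real.log X := by
    have : 0 < 1 - M₀ := by linarith
    positivity
  refine le_trans ?_ (pointwise hT5 hX hth hn hnX (BB_nonneg hU3 hC0 ha0 K K1))
  have h1 : ∀ k ∈ Finset.Ioc K K1, C₀ ^ k * TS (Real.log X) s k n (FT k M₀) ≤
      ∑ m ∈ n.divisors, if Real.log m < M₀ * Real.log X then
        ((C₀ * ((1 - M₀) / 2 * Real.log X)⁻¹) ^ k * (Λ ^ k : ArithmeticFunction ℝ) m) *
          (((ζ : ArithmeticFunction ℕ) ^ (s + 1)) (n / m) : ℝ) else 0 := by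
    intro k _
    have h2 := hU1 s k n (Real.log X) ((1 - M₀) / 2 * Real.log X) M₀ hL ha0 hn ha
    refine (mul_le_mul_of_nonneg_left h2 (by positivity)).trans (le_of_eq ?_)
    rw [← mul_assoc, ← mul_pow, Finset.mul_sum]
    refine Finset.sum_congr rfl fun m _ => ?_
    split_ifs
    · ring
    · rw [mul_zero]
  refine (Finset.sum_le_sum h1).trans (le_of_eq ?_)
  rw [Finset.sum_comm]
  refine Finset.sum_congr rfl fun m hm => ?_
  have hm0 : m ≠ 0 := (Nat.pos_of_mem_divisors hm).ne'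
  split_ifs
  · unfold BB
    rw [if_neg hm0, Finset.sum_mul]
  · rw [Finset.sum_const_zero]

theorem Apsi_nonneg {ψ : (Fin s → ℝ) → ℝ} (h : ∀ y, 0 ≤ ψ y) (X : ℝ) (z : ℤ) (n : ℕ) :
    0 ≤ Apsi ψ X z n := by
  unfold Apsi
  refine Finset.sum_nonneg fun b _ => ?_
  split_ifs
  · exact h _
  · exact le_rfl

theorem Wt_mono {θ th : ℝ} (h : th ≤ θ) {ψ : (Fin s → ℝ) → ℝ} (hψ : Wt s θ ψ) : Wt s th ψ :=
  ⟨hψ.nonneg, hψ.bdd, fun y hy => ⟨(hψ.supp y hy).1, (hψ.supp y hy).2.trans (by linarith)⟩,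
    hψ.cont⟩

/-- The lower bound for `log n`. -/
theorem log_lower {X M₀ : ℝ} (hX : Real.exp 1 ≤ X)
    (hLL : Real.log (Real.log X) ≤ (1 - M₀) / 2 * Real.log X) {n : ℕ}
    (hn : ⌊X / Real.log X⌋₊ < n) :
    (1 - M₀) / 2 * Real.log X ≤ Real.log n - M₀ * Real.log X := by
  have hX0 : 0 < X := lt_of_lt_of_le (Real.exp_pos 1) hX
  have hL : 1 ≤ Real.log X := by
    rw [Real.le_log_iff_exp_le hX0]
    exact hX
  have h1 : X / Real.log X < n := Nat.lt_of_floor_lt hn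
  have h2 : Real.log (X / Real.log X) ≤ Real.log n :=
    Real.log_le_log (by positivity) h1.le
  rw [Real.log_div hX0.ne' (by linarith)] at h2
  linarith

/-- The final computation. -/
theorem final {C X L ε E P r : ℝ} {s : ℕ} (hX : 0 < X) (hL : 1 ≤ L) (hE : 0 ≤ E)
    (hP : 0 ≤ P) (hr : 0 < r) (hPE : P ≤ (s + 1) * (E * (1 + L) ^ s))
    (hK : |C| * ((s + 1) * 2 ^ s * E) ≤ ε / 2) (hr2 : 2 * |C| ≤ ε * r) (hε : 0 < ε) :
    C * X * L ^ s * P + C * (X / r) ≤ ε * (X * L ^ (2 * s)) := by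
  have h1 : C * X * L ^ s * P ≤ ε / 2 * (X * L ^ (2 * s)) := by
    have h2 : C * (X * L ^ s * P) ≤ |C| * (X * L ^ s * P) :=
      mul_le_mul_of_nonneg_right (le_abs_self C) (by positivity)
    have h3 : (1 + L) ^ s ≤ 2 ^ s * L ^ s := by
      rw [← mul_pow]
      exact pow_le_pow_left₀ (by linarith) (by linarith) s
    have h4 : P ≤ (s + 1) * (E * (2 ^ s * L ^ s)) :=
      hPE.trans (mul_le_mul_of_nonneg_left (mul_le_mul_of_nonneg_left h3 hE) (by positivity))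
    have h5 : |C| * (X * L ^ s * P) ≤ |C| * (X * L ^ s * ((s + 1) * (E * (2 ^ s * L ^ s)))) :=
      mul_le_mul_of_nonneg_left (mul_le_mul_of_nonneg_left h4 (by positivity)) (abs_nonneg C)
    have h6 : |C| * (X * L ^ s * ((s + 1) * (E * (2 ^ s * L ^ s)))) =
        |C| * ((s + 1) * 2 ^ s * E) * (X * L ^ (2 * s)) := by
      rw [two_mul, pow_add]
      ring
    have h7 : |C| * ((s + 1) * 2 ^ s * E) * (X * L ^ (2 * s)) ≤ ε / 2 * (X * L ^ (2 * s)) :=
      mul_le_mul_of_nonneg_right hK (by positivity)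
    calc C * X * L ^ s * P = C * (X * L ^ s * P) := by ring
      _ ≤ _ := h2.trans (h5.trans (h6.le.trans h7))
  have h2 : C * (X / r) ≤ ε / 2 * (X * L ^ (2 * s)) := by
    have h3 : C * (X / r) ≤ |C| * (X / r) :=
      mul_le_mul_of_nonneg_right (le_abs_self C) (by positivity)
    have h4 : |C| * (X / r) ≤ ε / 2 * X := by
      rw [← mul_div_assoc, div_le_iff₀ hr]
      nlinarith
    have h5 : ε / 2 * X ≤ ε / 2 * (X * L ^ (2 * s)) := by
      refine mul_le_mul_of_nonneg_left ?_ (by positivity)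
      exact le_mul_of_one_le_right hX.le (one_le_pow₀ hL)
    linarith
  linarith

end IU7

open IU7 in
/-- U7: the tail in `k`. -/
theorem prfU7 (hU1 : claimU1) (hU3 : claimU3) (hU5 : claimU5) (hCR : claimCR) (hT5 : claimT5) :
    claimU7 := by
  intro s h hs hh θ hθ0 hθ1 ψ hψ M₀ hM0 hM1 C₀ hC0
  have h1M : 0 < 1 - M₀ := by linarith
  set th : ℝ := min θ ((1 - M₀) / (s + 1)) with hth
  have hth0 : 0 < th := lt_min hθ0 (by positivity)
  have hthθ : th ≤ θ := min_le_left _ _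
  have hth1 : th * (s + 1) ≤ 1 - M₀ := by
    have h1 : th ≤ (1 - M₀) / (s + 1) := min_le_right _ _
    rwa [le_div_iff₀ (by positivity)] at h1
  have hψ' : Wt s th ψ := Wt_mono hthθ hψ
  set C2 : ℝ := max 1 (2 * C₀ * M₀ / (1 - M₀)) with hC2
  have hC21 : 1 ≤ C2 := le_max_left _ _
  set lam : ℝ := 12 * C₀ / (1 - M₀) with hlam
  have hlam1 : 1 ≤ lam := by
    rw [hlam, one_le_div h1M]
    linarith
  obtain ⟨C, hC⟩ := hCR s h th hh hth0 (by linarith) ψ hψ'
  have hlog2 : 0 < Real.log (2 * C2) := Real.log_pos (by linarith)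
  set c : ℝ := th / (200 * Real.log (2 * C2)) with hc
  have hc0 : 0 < c := by positivity
  refine ⟨c, hc0, fun ε hε => ?_⟩
  obtain ⟨K, hK⟩ : ∃ K : ℕ, |C| * ((s + 1) * 2 ^ s * (Real.exp lam * (1 / 2) ^ K)) ≤ ε / 2 := by
    set D : ℝ := |C| * ((s + 1) * 2 ^ s * Real.exp lam) + 1 with hD
    have hD0 : 0 < D := by positivity
    obtain ⟨K, hK⟩ := exists_pow_lt_of_lt_one (show (0 : ℝ) < ε / 2 / D by positivity)
      (show (1 : ℝ) / 2 < 1 by norm_num)
    refine ⟨K, ?_⟩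
    rw [lt_div_iff₀ hD0] at hK
    have h2 : (0 : ℝ) ≤ (1 / 2) ^ K := by positivity
    calc |C| * ((s + 1) * 2 ^ s * (Real.exp lam * (1 / 2) ^ K))
        = (1 / 2) ^ K * (|C| * ((s + 1) * 2 ^ s * Real.exp lam)) := by ring
      _ ≤ (1 / 2) ^ K * D := mul_le_mul_of_nonneg_left (by linarith) h2
      _ ≤ _ := hK.le
  refine ⟨K, ?_⟩
  have hlogT := Real.tendsto_log_atTop
  have e4 : ∀ᶠ X : ℝ in atTop, (s : ℝ) + 1 ≤ X ^ (th / 100) :=
    (tendsto_rpow_atTop (by positivity)).eventually_ge_atTop _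
  have e5 : ∀ᶠ X : ℝ in atTop, Real.log (Real.log X) ≤ (1 - M₀) / 2 * Real.log X := by
    have h1 : ∀ᶠ y : ℝ in atTop, Real.log y ≤ (1 - M₀) / 2 * y := by
      have h2 := Real.isLittleO_log_id_atTop.bound (show (0 : ℝ) < (1 - M₀) / 2 by positivity)
      filter_upwards [h2, eventually_ge_atTop (0 : ℝ)] with y hy hy0
      have h3 := (le_abs_self _).trans hy
      rwa [id, Real.norm_of_nonneg hy0] at h3
    exact hlogT.eventually h1
  have e7 : ∀ᶠ X : ℝ in atTop, 2 * |C| / ε ≤ X ^ (th / 40) :=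
    (tendsto_rpow_atTop (by positivity)).eventually_ge_atTop _
  filter_upwards [hC, hU5 lam hlam1, divisor_bound (s + 1) (show 0 < th / 200 by positivity),
    e4, e5, eventually_ge_atTop (Real.exp 1), e7] with X hCX hU5X hdX h4 h5 h6 h7 z hz
  have hX0 : 0 < X := lt_of_lt_of_le (Real.exp_pos 1) h6
  have hL : 1 ≤ Real.log X := by
    rw [Real.le_log_iff_exp_le hX0]
    exact h6
  have hX1 : 1 < X := by
    have := Real.add_one_lt_exp (show (1 : ℝ) ≠ 0 by norm_num)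
    linarith
  set a : ℝ := (1 - M₀) / 2 * Real.log X with ha
  have ha0 : 0 < a := by positivity
  set K1 : ℕ := ⌊c * Real.log X⌋₊ with hK1
  set S : Finset ℕ := (Finset.Icc 1 ⌊X⌋₊).filter (fun m : ℕ => Real.log m < M₀ * Real.log X)
    with hS
  set N : ℕ := ⌊X ^ (1 - th)⌋₊ with hN
  have hBB0 := BB_nonneg hU3 (show 0 ≤ C₀ by linarith) ha0 K K1
  set β : ℕ → ℝ := fun M => if M ∈ Finset.Icc 1 N then be s X S (BB C₀ a K K1) M else 0 with hβ
  have hβ0 : ∀ m, 0 ≤ β m := by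
    intro m
    rw [hβ]
    dsimp only
    split_ifs
    · exact be_nonneg hBB0 m
    · exact le_rfl
  have hβ1 : ∀ m, β m ≤ X ^ (th / 40) := by
    intro m
    rw [hβ]
    dsimp only
    split_ifs with hm
    · rw [Finset.mem_Icc] at hm
      have hm0 : m ≠ 0 := by omega
      have hmX : (m : ℝ) ≤ X := by
        have h8 : (m : ℝ) ≤ X ^ (1 - th) :=
          le_trans (by exact_mod_cast hm.2) (Nat.floor_le (by positivity))
        refine h8.trans ?_
        calc X ^ (1 - th) ≤ X ^ (1 : ℝ) := Real.rpow_le_rpow_of_exponent_le hX1.le (by linarith)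
          _ = X := Real.rpow_one X
      have h9 : ∀ m ∈ S, BB C₀ a K K1 m ≤ (2 * C2) ^ K1 := by
        intro m hm
        rw [hS, Finset.mem_filter] at hm
        refine BB_le hU3 (by linarith) ha0 K K1 m hm.2.le ?_ hC21
        refine le_trans (le_of_eq ?_) (le_max_right _ _)
        rw [ha]
        field_simp
      have h10 := be_le (s := s) (X := X) (show (0 : ℝ) ≤ (2 * C2) ^ K1 by positivity) h9 hm0
      refine h10.trans ?_
      have h11 : (2 * C2) ^ K1 ≤ X ^ (th / 200) := by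
        have h12 : (2 * C2) ^ K1 = Real.exp (K1 * Real.log (2 * C2)) := by
          rw [Real.exp_nat_mul, Real.exp_log (by linarith)]
        rw [h12, Real.rpow_def_of_pos hX0, Real.exp_le_exp]
        have h13 : (K1 : ℝ) ≤ c * Real.log X := Nat.floor_le (by positivity)
        calc (K1 : ℝ) * Real.log (2 * C2) ≤ c * Real.log X * Real.log (2 * C2) :=
              mul_le_mul_of_nonneg_right h13 hlog2.le
          _ = Real.log X * (th / 200) := by
              rw [hc]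
              field_simp
      have h12 := hdX m hm0 hmX
      calc ((s : ℝ) + 1) * ((2 * C2) ^ K1 * (m.divisors.card : ℝ) ^ (s + 1))
          ≤ X ^ (th / 100) * (X ^ (th / 200) * X ^ (th / 200)) := by
            refine mul_le_mul h4 (mul_le_mul h11 h12 (by positivity) (by positivity))
              (by positivity) (by positivity)
        _ = X ^ (th / 50) := by
            rw [← Real.rpow_add hX0, ← Real.rpow_add hX0]
            congr 1
            ring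
        _ ≤ X ^ (th / 40) := Real.rpow_le_rpow_of_exponent_le hX1.le (by linarith)
    · positivity
  have hmain := hCX z hz β hβ0 hβ1
  have hstep : ∑ n ∈ Finset.Ioc ⌊X / Real.log X⌋₊ ⌊X⌋₊, Apsi ψ X z n *
      (∑ k ∈ Finset.Ioc K K1, C₀ ^ k * TS (Real.log X) s k n (FT k M₀)) ≤
      ∑ n ∈ Finset.Icc 1 ⌊X⌋₊, Apsi ψ X z n *
        (∑ m ∈ Finset.Icc 1 N, if m ∣ n then β m else 0) := by
    have hsub : Finset.Ioc ⌊X / Real.log X⌋₊ ⌊X⌋₊ ⊆ Finset.Icc 1 ⌊X⌋₊ := by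
      intro n hn
      rw [Finset.mem_Ioc] at hn
      rw [Finset.mem_Icc]
      exact ⟨by omega, hn.2⟩
    refine (Finset.sum_le_sum fun n hn => ?_).trans
      (Finset.sum_le_sum_of_subset_of_nonneg hsub fun n _ _ => ?_)
    · rw [Finset.mem_Ioc] at hn
      refine mul_le_mul_of_nonneg_left ?_ (Apsi_nonneg hψ.nonneg X z n)
      have hnX : (n : ℝ) ≤ X := le_trans (by exact_mod_cast hn.2) (Nat.floor_le hX0.le)
      refine (sum_TS_le hU1 hT5 hU3 hX1 hth1 hM1 (by linarith) K K1 (by omega) hnX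
        (log_lower h6 h5 hn.1)).trans (le_of_eq ?_)
      refine Finset.sum_congr rfl fun M hM => ?_
      rw [hβ]
      dsimp only
      rw [if_pos hM]
    · refine mul_nonneg (Apsi_nonneg hψ.nonneg X z n) (Finset.sum_nonneg fun m _ => ?_)
      split_ifs
      · exact hβ0 m
      · exact le_rfl
  refine hstep.trans (hmain.trans ?_)
  have hsum : ∑ m ∈ Finset.Icc 1 N, β m / m ≤
      (s + 1) * ((Real.exp lam * (1 / 2) ^ K) * (1 + Real.log X) ^ s) := by
    have h8 : ∑ m ∈ Finset.Icc 1 N, β m / m =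
        ∑ M ∈ Finset.Icc 1 N, be s X S (BB C₀ a K K1) M / M := by
      refine Finset.sum_congr rfl fun M hM => ?_
      rw [hβ]
      dsimp only
      rw [if_pos hM]
    rw [h8]
    refine (sum_be_le hX1.le hBB0 N).trans ?_
    refine mul_le_mul_of_nonneg_left (mul_le_mul_of_nonneg_right ?_ (by positivity))
      (by positivity)
    refine sum_BB_le hU3 (by linarith) ha0 K K1 ?_ hU5X S (Finset.filter_subset _ _)
    rw [ha, hlam]
    have : C₀ ≠ 0 := by linarith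
    field_simp
    norm_num
  refine final hX0 hL (by positivity) (Finset.sum_nonneg fun m _ =>
    div_nonneg (hβ0 m) (Nat.cast_nonneg m)) (by positivity) hsum hK ?_ hε
  rw [div_le_iff₀ hε] at h7
  linarith

end Pool.Agent.Work.MP_122e00_nt.Two
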