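import Mathlib
import Pool.Agent.Work.MP_122e00_nt.Corr
import Pool.Agent.Work.MP_122e00_nt.BV7

set_option autoImplicit false

/-!
# Shifted divisor sums with marks: definitions (arithmetic module, see PLAN_ARITH.md)

`s ≥ 1`, `r = s + 1`.  `Fh`, `Csing`, `box`, `rho`, `sol`, `Err0` are those of the lower bound.
-/

namespace Pool.Agent.Work.MP_122e00_nt.Two

open Finset Filter Topology MeasureTheory

open scoped ArithmeticFunction.vonMangoldt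

/-- `∑_{lo < n ≤ hi} (∑_{m ∣ n} β m) (∑_{e ∣ n - z} w e)` with `m ≤ M`, `e ≤ Q`. -/
noncomputable def GC (β w : ℕ → ℝ) (lo hi M Q : ℕ) (z : ℤ) : ℝ :=
  ∑ n ∈ Finset.Ioc lo hi, (∑ m ∈ Finset.Icc 1 M, if m ∣ n then β m else 0) *
    (∑ e ∈ Finset.Icc 1 Q, if (e : ℤ) ∣ (n : ℤ) - z then w e else 0)

/-- The main term of `GC`. -/
noncomputable def GM (h : ℕ) (β w : ℕ → ℝ) (M Q : ℕ) : ℝ :=
  ∑ m ∈ Finset.Icc 1 M, ∑ e ∈ Finset.Icc 1 Q, β m * w e * (Fh h (Nat.gcd m e) / (m * e))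

/-- The part of `β` in the class `[lam ^ j, lam ^ (j + 1))`. -/
noncomputable def cl (lam : ℝ) (j : ℕ) (β : ℕ → ℝ) (m : ℕ) : ℝ :=
  if lam ^ j ≤ (m : ℝ) ∧ (m : ℝ) < lam ^ (j + 1) then β m else 0

/-- All `s`-tuples of integers in `[1, X]`. -/
noncomputable def tup (s : ℕ) (X : ℝ) : Finset (Fin s → ℕ) :=
  Fintype.piFinset fun _ => Finset.Icc 1 ⌊X⌋₊

/-- The logarithmic position of a tuple. -/
noncomputable def lg {ι : Type} (X : ℝ) (a : ι → ℕ) : ι → ℝ :=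
  fun i => Real.log (a i) / Real.log X

/-- Admissible weights of level `1/2 - θ`. -/
structure Wt (s : ℕ) (θ : ℝ) (ψ : (Fin s → ℝ) → ℝ) : Prop where
  nonneg : ∀ y, 0 ≤ ψ y
  bdd : ∃ B : ℝ, ∀ y, ψ y ≤ B
  supp : ∀ y, ψ y ≠ 0 → (∀ i, 0 ≤ y i) ∧ ∑ i, y i ≤ 1 / 2 - θ
  cont : ∀ᵐ y, ContinuousAt ψ y

/-- `A_ψ(n - z) = ∑_{b ∈ ℕ^s, b₁⋯b_s ∣ n - z} ψ(log b / log X)`. -/
noncomputable def Apsi {s : ℕ} (ψ : (Fin s → ℝ) → ℝ) (X : ℝ) (z : ℤ) (n : ℕ) : ℝ :=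
  ∑ b ∈ tup s X, if ((∏ i, b i : ℕ) : ℤ) ∣ (n : ℤ) - z then ψ (lg X b) else 0

/-- The open unit cube. -/
def O1 (s : ℕ) : Set (Fin s → ℝ) := Set.pi Set.univ fun _ => Set.Ioo 0 1

/-- The open simplex of the positions of `k` marks and `s` of the `s + 1` variables. -/
def Sim (k s : ℕ) : Set (Fin k ⊕ Fin s → ℝ) := {y | (∀ i, 0 < y i) ∧ ∑ i, y i < 1}

/-- The density of `k` successive size-biased marks. -/
noncomputable def den {k s : ℕ} (y : Fin k ⊕ Fin s → ℝ) : ℝ :=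
  ∏ j : Fin k, (1 - ∑ i ∈ Finset.univ.filter (fun i : Fin k => i < j), y (Sum.inl i))⁻¹

/-- The structure sum: `k` successive marks `d₁, …, d_k` (prime powers, weights
`Λ(d_j) / log (n / (d₁ ⋯ d_{j-1}))`) and a factorisation of the rest in `s + 1` factors `v`;
`F` is evaluated at `(log d / L, log v / L)`. -/
noncomputable def TS (L : ℝ) (s : ℕ) :
    (k : ℕ) → ℕ → ((Fin k → ℝ) → (Fin (s + 1) → ℝ) → ℝ) → ℝ
  | 0, n, F => ∑ v ∈ Nat.finMulAntidiag (s + 1) n, F Fin.elim0 (fun i => Real.log (v i) / L)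
  | k + 1, n, F => ∑ d ∈ n.divisors, (Λ d / Real.log n) *
      TS L s k (n / d) (fun x v => F (Fin.cons (Real.log d / L) x) v)

/-- `F` as a function of the position in `Fin k ⊕ Fin s → ℝ` and of the last coordinate. -/
def ext {k s : ℕ} (F : (Fin k → ℝ) → (Fin (s + 1) → ℝ) → ℝ) (p : (Fin k ⊕ Fin s → ℝ) × ℝ) : ℝ :=
  F (fun i => p.1 (Sum.inl i)) (Fin.snoc (fun i => p.1 (Sum.inr i)) p.2)

/-- Half open grid cubes. -/
def gcube {ι : Type} (N : ℕ) (m : ι → ℕ) : Set (ι → ℝ) :=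
  {y | ∀ i, ((m i : ℝ) - 1) / N < y i ∧ y i ≤ (m i : ℝ) / N}

/-- Closed grid cubes. -/
def ccube {ι : Type} (N : ℕ) (m : ι → ℕ) : Set (ι → ℝ) :=
  {y | ∀ i, ((m i : ℝ) - 1) / N ≤ y i ∧ y i ≤ (m i : ℝ) / N}

/-- The region of the `s` smaller variables. -/
def Rs (s : ℕ) : Set (Fin s → ℝ) := {y | ∀ j, ∑ i, y i + y j ≤ 1}

end Pool.Agent.Work.MP_122e00_nt.Two
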