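import Pool.Agent.Work.MP_122e00_nt.Two.StmtsTail

set_option autoImplicit false

/-!
# U6: the mean value of the divisor function, from above
-/

namespace Pool.Agent.Work.MP_122e00_nt.Two

open Finset Filter Topology MeasureTheory

open scoped ArithmeticFunction.vonMangoldt ArithmeticFunction.zeta

namespace IU6

theorem Icc_one_eq (N : ℕ) : Icc 1 N = Ioc 0 N := by
  ext n
  simp only [mem_Icc, mem_Ioc]
  omega

/-- the version for natural numbers -/
theorem natBound (s : ℕ) : ∀ N : ℕ,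
    ∑ n ∈ Ioc 0 N, (((ζ : ArithmeticFunction ℕ) ^ (s + 1)) n : ℝ) ≤
      N * (∑ a ∈ Ioc 0 N, 1 / (a : ℝ)) ^ s := by
  induction s with
  | zero =>
    intro N
    have h := ArithmeticFunction.sum_Ioc_zeta N
    have h1 : ∑ n ∈ Ioc 0 N, ((((ζ : ArithmeticFunction ℕ) ^ (0 + 1)) n : ℕ) : ℝ) = (N : ℝ) := by
      rw [zero_add, pow_one, ← Nat.cast_sum, h]
    rw [h1, pow_zero, mul_one]
  | succ s ih =>
    intro N
    have h1 : ∑ n ∈ Ioc 0 N, (((ζ : ArithmeticFunction ℕ) ^ (s + 1 + 1)) n : ℝ) =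
        ∑ a ∈ Ioc 0 N, ∑ b ∈ Ioc 0 (N / a), (((ζ : ArithmeticFunction ℕ) ^ (s + 1)) b : ℝ) := by
      rw [pow_succ' (ζ : ArithmeticFunction ℕ) (s + 1), ← Nat.cast_sum,
        ArithmeticFunction.sum_Ioc_mul_eq_sum_sum, Nat.cast_sum]
      refine sum_congr rfl fun a ha => ?_
      rw [mem_Ioc] at ha
      rw [ArithmeticFunction.zeta_apply_ne (by omega), one_mul, Nat.cast_sum]
    rw [h1]
    have h2 : ∀ a ∈ Ioc 0 N, ∑ b ∈ Ioc 0 (N / a), (((ζ : ArithmeticFunction ℕ) ^ (s + 1)) b : ℝ) ≤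
        (N / a : ℝ) * (∑ a ∈ Ioc 0 N, 1 / (a : ℝ)) ^ s := by
      intro a ha
      refine (ih (N / a)).trans ?_
      have h3 : ((N / a : ℕ) : ℝ) ≤ (N / a : ℝ) := Nat.cast_div_le
      have h4 : ∑ b ∈ Ioc 0 (N / a), 1 / (b : ℝ) ≤ ∑ a ∈ Ioc 0 N, 1 / (a : ℝ) := by
        refine sum_le_sum_of_subset_of_nonneg ?_ (fun i _ _ => by positivity)
        exact Ioc_subset_Ioc_right (Nat.div_le_self N a)
      have h5 : (0:ℝ) ≤ ∑ b ∈ Ioc 0 (N / a), 1 / (b : ℝ) := sum_nonneg fun i _ => by positivity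
      exact mul_le_mul h3 (pow_le_pow_left₀ h5 h4 s) (pow_nonneg h5 s) (by positivity)
    refine (sum_le_sum h2).trans (le_of_eq ?_)
    rw [← sum_mul, pow_succ]
    have h6 : ∑ a ∈ Ioc 0 N, (N / a : ℝ) = N * ∑ a ∈ Ioc 0 N, 1 / (a : ℝ) := by
      rw [mul_sum]
      refine sum_congr rfl fun a _ => ?_
      ring
    rw [h6]
    ring

end IU6

theorem prfU6 : claimU6 := by
  intro s X hX
  rw [IU6.Icc_one_eq]
  refine (IU6.natBound s ⌊X⌋₊).trans ?_
  refine mul_le_mul_of_nonneg_right (Nat.floor_le hX) ?_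
  exact pow_nonneg (sum_nonneg fun i _ => by positivity) s

end Pool.Agent.Work.MP_122e00_nt.Two
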