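import Mathlib
import Pool.Agent.Work.MP_122e00_nt.Two.StmtsTail

set_option autoImplicit false

/-! # U8: the last tail -/

namespace Pool.Agent.Work.MP_122e00_nt.Two

open Finset Filter Topology MeasureTheory

open scoped ArithmeticFunction.vonMangoldt ArithmeticFunction.zeta

namespace IU8

/-- the divisor function with real values -/
noncomputable def gz (s : ℕ) : ArithmeticFunction ℝ :=
  ((((ζ : ArithmeticFunction ℕ) ^ (s + 1)) : ArithmeticFunction ℕ) : ArithmeticFunction ℝ)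

lemma gz_apply (s n : ℕ) : gz s n = (((ζ : ArithmeticFunction ℕ) ^ (s + 1)) n : ℝ) := by
  unfold gz
  rw [ArithmeticFunction.natCoe_apply]

lemma gz_nonneg (s n : ℕ) : 0 ≤ gz s n := by
  rw [gz_apply]
  positivity

lemma mul_divisors (f g : ArithmeticFunction ℝ) (n : ℕ) :
    (f * g) n = ∑ m ∈ n.divisors, f m * g (n / m) := by
  rw [ArithmeticFunction.mul_apply]
  exact Nat.sum_divisorsAntidiagonal (fun x y => f x * g y)

lemma harm_le {X L : ℝ} (hL : L = Real.log X) (hX : 1 ≤ X) (m : ℕ) (hm : 1 ≤ m) :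
    ∑ a ∈ Finset.Icc 1 ⌊X / m⌋₊, 1 / (a : ℝ) ≤ 1 + L := by
  have hm' : (1 : ℝ) ≤ m := by exact_mod_cast hm
  have hL0 : 0 ≤ L := by rw [hL]; exact Real.log_nonneg hX
  have h1 : ∑ a ∈ Finset.Icc 1 ⌊X / m⌋₊, 1 / (a : ℝ) = ((harmonic ⌊X / m⌋₊ : ℚ) : ℝ) := by
    rw [harmonic_eq_sum_Icc]
    push_cast
    simp only [one_div]
  rw [h1]
  refine (harmonic_le_one_add_log _).trans ?_
  rcases Nat.eq_zero_or_pos ⌊X / m⌋₊ with h0 | h0
  · rw [h0]
    simpa using hL0
  · have h2 : ((⌊X / m⌋₊ : ℕ) : ℝ) ≤ X := by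
      refine (Nat.floor_le (by positivity)).trans ?_
      exact div_le_self (by linarith) hm'
    have h3 : Real.log ((⌊X / m⌋₊ : ℕ) : ℝ) ≤ L := by
      rw [hL]
      exact Real.log_le_log (by exact_mod_cast h0) h2
    linarith

lemma sum_gz_le (h6 : claimU6) (s : ℕ) {X L : ℝ} (hL : L = Real.log X) (hX : 1 ≤ X) (m : ℕ)
    (hm : 1 ≤ m) :
    ∑ n ∈ Finset.Ioc 0 (⌊X⌋₊ / m), gz s n ≤ X / m * (1 + L) ^ s := by
  have hm' : (1 : ℝ) ≤ m := by exact_mod_cast hm
  have h1 := h6 s (X / m) (by positivity)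
  have h2 : ⌊X / (m : ℝ)⌋₊ = ⌊X⌋₊ / m := Nat.floor_div_natCast X m
  have h3 := harm_le hL hX m hm
  have h4 : (0 : ℝ) ≤ ∑ a ∈ Finset.Icc 1 ⌊X / m⌋₊, 1 / (a : ℝ) := by positivity
  have h5 : ∑ n ∈ Finset.Ioc 0 (⌊X⌋₊ / m), gz s n
      = ∑ n ∈ Finset.Icc 1 ⌊X / (m : ℝ)⌋₊, (((ζ : ArithmeticFunction ℕ) ^ (s + 1)) n : ℝ) := by
    rw [h2]
    apply Finset.sum_congr
    · ext x
      simp only [Finset.mem_Ioc, Finset.mem_Icc]
      omega
    · intro n _
      exact gz_apply s n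
  rw [h5]
  refine h1.trans ?_
  apply mul_le_mul_of_nonneg_left _ (by positivity)
  exact pow_le_pow_left₀ h4 h3 s

lemma half_pow {X L c : ℝ} (hL : L = Real.log X) (hX : 1 ≤ X) :
    (1 / 2 : ℝ) ^ ⌊c * L⌋₊ ≤ 2 * X ^ (-(c * Real.log 2)) := by
  have h1 : c * L < (⌊c * L⌋₊ : ℝ) + 1 := Nat.lt_floor_add_one (c * L)
  have h2 : (1 / 2 : ℝ) ^ ⌊c * L⌋₊ = 2 * (1 / 2 : ℝ) ^ (((⌊c * L⌋₊ + 1 : ℕ)) : ℝ) := by
    rw [Real.rpow_natCast, pow_succ]
    ring
  rw [h2]
  apply mul_le_mul_of_nonneg_left _ (by norm_num)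
  have h3 : (1 / 2 : ℝ) ^ (((⌊c * L⌋₊ + 1 : ℕ)) : ℝ) ≤ (1 / 2 : ℝ) ^ (c * L) := by
    apply Real.rpow_le_rpow_of_exponent_ge (by norm_num) (by norm_num)
    push_cast
    exact h1.le
  refine h3.trans (le_of_eq ?_)
  rw [Real.rpow_def_of_pos (by norm_num), Real.rpow_def_of_pos (by linarith), ← hL, one_div,
    Real.log_inv]
  congr 1
  ring

end IU8

theorem prfU8 (h1 : claimU1) (h3 : claimU3) (h5 : claimU5) (h6 : claimU6) : claimU8 := by
  intro s M₀ hM0 hM1 c hc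
  have hl2 : 0 < Real.log 2 := Real.log_pos one_lt_two
  have hM : 0 < 1 - M₀ := by linarith
  refine ⟨c * Real.log 2 / 2, by positivity, ?_⟩
  set lam : ℝ := 12 / (1 - M₀) with hlam
  have hlam1 : 1 ≤ lam := by
    rw [hlam, le_div_iff₀ hM]
    linarith
  have hlam0 : 0 < lam := by linarith
  have e1 : ∀ᶠ X : ℝ in atTop, Real.log (Real.log X) ≤ (1 - M₀) / 2 * Real.log X := by
    have h := (Real.isLittleO_log_id_atTop.comp_tendsto Real.tendsto_log_atTop).bound
      (by positivity : 0 < (1 - M₀) / 2)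
    filter_upwards [h, Filter.eventually_ge_atTop (1 : ℝ)] with X hX hX1
    simp only [Function.comp_apply, id_eq, Real.norm_eq_abs] at hX
    have h2 : |Real.log X| = Real.log X := abs_of_nonneg (Real.log_nonneg hX1)
    rw [h2] at hX
    exact (le_abs_self _).trans hX
  have e2 : ∀ᶠ X : ℝ in atTop,
      2 * Real.exp lam * (1 + Real.log X) ^ s ≤ X ^ (c * Real.log 2 / 2) := by
    have h := (isLittleO_log_rpow_rpow_atTop (s := c * Real.log 2 / 2) (s : ℝ)
      (by positivity)).bound (by positivity : 0 < 1 / (2 * Real.exp lam * 2 ^ s))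
    filter_upwards [h, Filter.eventually_ge_atTop (Real.exp 1)] with X hX hX1
    have hX0 : 0 < X := lt_of_lt_of_le (Real.exp_pos 1) hX1
    have hL1 : 1 ≤ Real.log X := (Real.le_log_iff_exp_le hX0).2 hX1
    rw [Real.norm_eq_abs, Real.norm_eq_abs, abs_of_nonneg (by positivity),
      abs_of_nonneg (by positivity), Real.rpow_natCast] at hX
    have h2 : (1 + Real.log X) ^ s ≤ (2 * Real.log X) ^ s :=
      pow_le_pow_left₀ (by linarith) (by linarith) s
    calc 2 * Real.exp lam * (1 + Real.log X) ^ s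
        ≤ 2 * Real.exp lam * (2 * Real.log X) ^ s := by
          apply mul_le_mul_of_nonneg_left h2 (by positivity)
      _ = 2 * Real.exp lam * 2 ^ s * (Real.log X) ^ s := by rw [mul_pow]; ring
      _ ≤ 2 * Real.exp lam * 2 ^ s *
          (1 / (2 * Real.exp lam * 2 ^ s) * X ^ (c * Real.log 2 / 2)) := by
          apply mul_le_mul_of_nonneg_left hX (by positivity)
      _ = X ^ (c * Real.log 2 / 2) := by
          field_simp
  filter_upwards [e1, e2, h5 lam hlam1, Filter.eventually_ge_atTop (Real.exp 1)] with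
    X hX1 hX2 hX3 hX4
  have hX0 : 0 < X := lt_of_lt_of_le (Real.exp_pos 1) hX4
  have hXone : 1 ≤ X := le_trans (Real.one_le_exp (zero_le_one' ℝ)) hX4
  set L := Real.log X with hL
  have hL1 : 1 ≤ L := (Real.le_log_iff_exp_le hX0).2 hX4
  have hL0 : 0 < L := by linarith
  set k := ⌊c * L⌋₊ with hk
  set a := (1 - M₀) / 2 * L with ha
  have ha0 : 0 < a := by positivity
  set N := ⌊X⌋₊ with hN
  set f : ArithmeticFunction ℝ := (Λ : ArithmeticFunction ℝ) ^ k with hf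
  have hf0 : ∀ m, 0 ≤ f m := by
    intro m
    rcases Nat.eq_zero_or_pos m with h | h
    · rw [h, ArithmeticFunction.map_zero]
    · exact (h3 k m h.ne').1
  have hfg : ∀ n, 0 ≤ (f * IU8.gz s) n := by
    intro n
    rw [IU8.mul_divisors]
    exact Finset.sum_nonneg fun m _ => mul_nonneg (hf0 m) (IU8.gz_nonneg s _)
  -- each term
  have stepA : ∀ n ∈ Finset.Ioc ⌊X / L⌋₊ N, TS L s k n (FT k M₀) ≤
      (a⁻¹) ^ k * (f * IU8.gz s) n := by
    intro n hn
    rw [Finset.mem_Ioc] at hn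
    have hn0 : n ≠ 0 := by omega
    have h7 : X / L < n := Nat.lt_of_floor_lt hn.1
    have h8 : L - Real.log L ≤ Real.log n := by
      rw [hL, ← hL, ← Real.log_div hX0.ne' hL0.ne']
      exact Real.log_le_log (by positivity) h7.le
    have h9 : a ≤ Real.log n - M₀ * L := by
      rw [ha]
      nlinarith
    refine (h1 s k n L a M₀ hL0 ha0 hn0 h9).trans ?_
    apply mul_le_mul_of_nonneg_left _ (by positivity)
    rw [IU8.mul_divisors]
    apply Finset.sum_le_sum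
    intro m _
    have h10 : 0 ≤ f m * IU8.gz s (n / m) := mul_nonneg (hf0 m) (IU8.gz_nonneg s _)
    split_ifs
    · rw [IU8.gz_apply]
    · exact h10
  have stepB : ∑ n ∈ Finset.Ioc ⌊X / L⌋₊ N, TS L s k n (FT k M₀) ≤
      (a⁻¹) ^ k * ∑ n ∈ Finset.Ioc 0 N, (f * IU8.gz s) n := by
    refine (Finset.sum_le_sum stepA).trans ?_
    rw [← Finset.mul_sum]
    apply mul_le_mul_of_nonneg_left _ (by positivity)
    apply Finset.sum_le_sum_of_subset_of_nonneg
    · intro n hn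
      rw [Finset.mem_Ioc] at hn ⊢
      omega
    · intro n _ _
      exact hfg n
  have stepC : ∑ n ∈ Finset.Ioc 0 N, (f * IU8.gz s) n ≤
      X * (1 + L) ^ s * (Real.exp lam * (3 * L / lam) ^ k) := by
    rw [ArithmeticFunction.sum_Ioc_mul_eq_sum_sum]
    have h7 : ∑ m ∈ Finset.Ioc 0 N, f m * ∑ n ∈ Finset.Ioc 0 (N / m), IU8.gz s n ≤
        ∑ m ∈ Finset.Ioc 0 N, X * (1 + L) ^ s * (f m / m) := by
      apply Finset.sum_le_sum
      intro m hm
      rw [Finset.mem_Ioc] at hm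
      have h8 := IU8.sum_gz_le h6 s hL hXone m hm.1
      calc f m * ∑ n ∈ Finset.Ioc 0 (N / m), IU8.gz s n ≤ f m * (X / m * (1 + L) ^ s) :=
            mul_le_mul_of_nonneg_left h8 (hf0 m)
        _ = X * (1 + L) ^ s * (f m / m) := by ring
    refine h7.trans ?_
    rw [← Finset.mul_sum]
    apply mul_le_mul_of_nonneg_left _ (by positivity)
    have h9 := hX3 k
    have h10 : Finset.Ioc 0 N = Finset.Icc 1 N := by
      ext x
      simp only [Finset.mem_Ioc, Finset.mem_Icc]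
      omega
    rw [h10]
    exact h9
  have hak : (a⁻¹) ^ k * (3 * L / lam) ^ k = (1 / 2 : ℝ) ^ k := by
    rw [← mul_pow]
    congr 1
    rw [ha, hlam]
    field_simp
    norm_num
  have hhalf := IU8.half_pow (c := c) hL hXone
  calc ∑ n ∈ Finset.Ioc ⌊X / L⌋₊ N, TS L s k n (FT k M₀)
      ≤ (a⁻¹) ^ k * ∑ n ∈ Finset.Ioc 0 N, (f * IU8.gz s) n := stepB
    _ ≤ (a⁻¹) ^ k * (X * (1 + L) ^ s * (Real.exp lam * (3 * L / lam) ^ k)) :=
        mul_le_mul_of_nonneg_left stepC (by positivity)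
    _ = X * (1 + L) ^ s * Real.exp lam * ((a⁻¹) ^ k * (3 * L / lam) ^ k) := by ring
    _ = X * (1 + L) ^ s * Real.exp lam * (1 / 2 : ℝ) ^ k := by rw [hak]
    _ ≤ X * (1 + L) ^ s * Real.exp lam * (2 * X ^ (-(c * Real.log 2))) :=
        mul_le_mul_of_nonneg_left hhalf (by positivity)
    _ = X * X ^ (-(c * Real.log 2)) * (2 * Real.exp lam * (1 + L) ^ s) := by ring
    _ ≤ X * X ^ (-(c * Real.log 2)) * X ^ (c * Real.log 2 / 2) :=
        mul_le_mul_of_nonneg_left hX2 (by positivity)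
    _ = X ^ (1 - c * Real.log 2 / 2) := by
        have h11 : X ^ (1 - c * Real.log 2 / 2) = X ^ (1 : ℝ) * X ^ (-(c * Real.log 2)) *
            X ^ (c * Real.log 2 / 2) := by
          rw [← Real.rpow_add hX0, ← Real.rpow_add hX0]
          congr 1
          ring
        rw [h11, Real.rpow_one]

end Pool.Agent.Work.MP_122e00_nt.Two
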